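import Pool.Agent.H440.OZ.LNum
import Pool.Graph.R_pool_sql_team_seeded_63374d34.N880.HD.Const
import Pool.Graph.R_pool_sql_team_seeded_63374d34.N880.HD.Core

/-!
Project OZ (helper440): comparison of the constants.
-/

set_option autoImplicit false

open Filter Topology MeasureTheory Set

namespace Pool.Agent.H440.OZ

open H385 (Rw Rw_nonneg fa_Rw_cont)

lemma nn_le {γ : ℝ} (h0 : 0 < γ) {a : ℝ} (h1 : a ≤ 1) : H385.WinAux.nn γ a ≤ 2 * (1 - a) := by
  unfold H385.WinAux.nn
  have h2 : (1 - a) * Real.cos (γ * a) ≤ (1 - a) * 1 :=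
    mul_le_mul_of_nonneg_left (Real.cos_le_one _) (by linarith)
  have h3 : Real.sin (γ * (1 - a)) / γ ≤ 1 - a := by
    rw [div_le_iff₀ h0]
    have := Real.sin_le (x := γ * (1 - a)) (mul_nonneg h0.le (by linarith))
    linarith
  linarith

lemma Rw_le_lin {γ : ℝ} (h0 : 0 < γ) {a : ℝ} (ha : 0 ≤ a) (h1 : a ≤ 1) :
    Rw γ a ≤ (γ / (2 * Real.sin (γ / 2))) ^ 2 * (1 - a) := by
  rw [H385.WinAux.Rw_eq, abs_of_nonneg ha, min_eq_left h1]
  have := mul_le_mul_of_nonneg_left (nn_le h0 h1) (sq_nonneg (γ / (2 * Real.sin (γ / 2))))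
  linarith

lemma int_lin {h : ℝ} (h1 : 1 ≤ h) :
    ∫ α in (0 : ℝ)..1, min α (1 / h) * (1 - α) = (1 / h) / 2 - (1 / h) ^ 2 / 2 + (1 / h) ^ 3 / 6 := by
  have hb0 : 0 ≤ 1 / h := by positivity
  have hb1 : 1 / h ≤ 1 := by rw [div_le_iff₀ (by linarith)]; linarith
  set b : ℝ := 1 / h with hb
  have hint : ∀ x y : ℝ, IntervalIntegrable (fun α : ℝ => min α b * (1 - α)) volume x y := by
    intro x y
    apply Continuous.intervalIntegrable
    fun_prop
  rw [← intervalIntegral.integral_add_adjacent_intervals (hint 0 b) (hint b 1)]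
  have e1 : ∫ α in (0 : ℝ)..b, min α b * (1 - α) = b ^ 2 / 2 - b ^ 3 / 3 := by
    have h2 : ∫ α in (0 : ℝ)..b, min α b * (1 - α) = ∫ α in (0 : ℝ)..b, α * (1 - α) := by
      apply intervalIntegral.integral_congr
      intro x hx
      rw [uIcc_of_le hb0] at hx
      simp only
      rw [min_eq_left hx.2]
    rw [h2]
    have h3 : ∀ x ∈ uIcc (0 : ℝ) b, HasDerivAt (fun x : ℝ => x ^ 2 / 2 - x ^ 3 / 3)
        (x * (1 - x)) x := by
      intro x _
      have := ((hasDerivAt_pow 2 x).div_const 2).sub ((hasDerivAt_pow 3 x).div_const 3)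
      refine this.congr_deriv ?_
      push_cast
      ring
    rw [intervalIntegral.integral_eq_sub_of_hasDerivAt h3
      (Continuous.intervalIntegrable (by fun_prop) _ _)]
    ring
  have e2 : ∫ α in b..(1 : ℝ), min α b * (1 - α) = b * (1 - b) ^ 2 / 2 := by
    have h2 : ∫ α in b..(1 : ℝ), min α b * (1 - α) = ∫ α in b..(1 : ℝ), b * (1 - α) := by
      apply intervalIntegral.integral_congr
      intro x hx
      rw [uIcc_of_le hb1] at hx
      simp only
      rw [min_eq_right hx.1]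
    rw [h2]
    have h3 : ∀ x ∈ uIcc b (1 : ℝ), HasDerivAt (fun x : ℝ => b * (x - x ^ 2 / 2))
        (b * (1 - x)) x := by
      intro x _
      have := (((hasDerivAt_id x).sub ((hasDerivAt_pow 2 x).div_const 2)).const_mul b)
      refine this.congr_deriv ?_
      push_cast
      ring
    rw [intervalIntegral.integral_eq_sub_of_hasDerivAt h3
      (Continuous.intervalIntegrable (by fun_prop) _ _)]
    ring
  rw [e1, e2]
  ring

/-- the bound by the Fejer window -/
lemma cN_le_fejer {h γ : ℝ} (h1 : 1 ≤ h) (h0 : 0 < γ) (hπ : γ < Real.pi) :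
    cN h γ ≤ (γ / (2 * Real.sin (γ / 2))) ^ 2 * (1 + (1 / h) ^ 2 / 3) := by
  rw [← LNum.num1_main h γ h1 h0 hπ]
  set g : ℝ := (γ / (2 * Real.sin (γ / 2))) ^ 2 with hg
  have hh : 0 < h := by linarith
  have hR0 : Rw γ 0 ≤ g := by
    have := Rw_le_lin h0 le_rfl zero_le_one
    linarith
  have hcont := fa_Rw_cont γ h0 hπ
  have h2 : ∫ α in (0 : ℝ)..1, min α (1 / h) * Rw γ α ≤
      ∫ α in (0 : ℝ)..1, min α (1 / h) * (g * (1 - α)) := by
    apply intervalIntegral.integral_mono_on zero_le_one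
      (Continuous.intervalIntegrable (by fun_prop) _ _)
      (Continuous.intervalIntegrable (by fun_prop) _ _)
    intro x hx
    exact mul_le_mul_of_nonneg_left (Rw_le_lin h0 hx.1 hx.2) (le_min hx.1 (by positivity))
  have h3 : ∫ α in (0 : ℝ)..1, min α (1 / h) * (g * (1 - α)) =
      g * ∫ α in (0 : ℝ)..1, min α (1 / h) * (1 - α) := by
    rw [← intervalIntegral.integral_const_mul]
    congr 1
    ext x
    ring
  rw [h3, int_lin h1] at h2
  have h4 : Rw γ 0 / h ≤ g / h := div_le_div_of_nonneg_right hR0 hh.le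
  have h5 := mul_le_mul_of_nonneg_left h2 (by linarith : (0 : ℝ) ≤ 2 * h)
  calc _ ≤ g / h + 2 * h * (g * (1 / h / 2 - (1 / h) ^ 2 / 2 + (1 / h) ^ 3 / 6)) := add_le_add h4 h5
    _ = _ := by
        field_simp
        ring

lemma exists_gamma (δ : ℝ) (hδ : 0 < δ) : ∃ γ : ℝ, 0 < γ ∧ γ < Real.pi ∧
    (γ / (2 * Real.sin (γ / 2))) ^ 2 ≤ 1 + δ := by
  have h1 : Tendsto (fun γ : ℝ => (1 / Real.sinc (γ / 2)) ^ 2) (𝓝 0) (𝓝 ((1 / 1) ^ 2)) := by
    have hs : Tendsto (fun γ : ℝ => Real.sinc (γ / 2)) (𝓝 0) (𝓝 1) := by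
      have : ContinuousAt (fun γ : ℝ => Real.sinc (γ / 2)) 0 :=
        (Real.continuous_sinc.comp (continuous_id.div_const 2)).continuousAt
      have h := this.tendsto
      simpa using h
    exact (tendsto_const_nhds.div hs one_ne_zero).pow 2
  have h2 : ∀ᶠ γ in 𝓝[>] (0 : ℝ), (1 / Real.sinc (γ / 2)) ^ 2 < 1 + δ := by
    apply (h1.mono_left nhdsWithin_le_nhds).eventually_lt_const
    norm_num
    exact hδ
  have h3 : ∀ᶠ γ in 𝓝[>] (0 : ℝ), γ ∈ Ioo (0 : ℝ) Real.pi := Ioo_mem_nhdsGT Real.pi_pos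
  obtain ⟨γ, h4, h5⟩ := (h2.and h3).exists
  refine ⟨γ, h5.1, h5.2, ?_⟩
  have h6 : γ / (2 * Real.sin (γ / 2)) = 1 / Real.sinc (γ / 2) := by
    rw [Real.sinc_of_ne_zero (by linarith [h5.1])]
    have hs : 0 < Real.sin (γ / 2) :=
      Real.sin_pos_of_pos_of_lt_pi (by linarith [h5.1]) (by linarith [h5.1, h5.2])
    field_simp
  rw [h6]
  exact h4.le

/-- the clean constant -/
theorem cN_clean (h ε : ℝ) (h1 : 1 ≤ h) (hε : 0 < ε) : ∃ γ : ℝ, 0 < γ ∧ γ < Real.pi ∧
    cN h γ ≤ 1 + (1 / h) ^ 2 / 3 + ε := by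
  have hb0 : 0 ≤ 1 / h := by positivity
  have hb1 : 1 / h ≤ 1 := by rw [div_le_iff₀ (by linarith)]; linarith
  obtain ⟨γ, h2, h3, h4⟩ := exists_gamma (ε / 2) (by linarith)
  refine ⟨γ, h2, h3, (cN_le_fejer h1 h2 h3).trans ?_⟩
  have h5 : (1 / h) ^ 2 ≤ 1 := pow_le_one₀ hb0 hb1
  have h6 := mul_le_mul_of_nonneg_right h4 (by positivity : (0 : ℝ) ≤ 1 + (1 / h) ^ 2 / 3)
  nlinarith

/-- comparison with the function of Montgomery and Taylor -/
theorem cN_lt (h : ℝ) (h1 : 1 < h) (h2 : h ≤ 2) :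
    cN h (Real.sqrt 2 * h) < h / 2 + Real.cot (h / Real.sqrt 2) / Real.sqrt 2 := by
  have hh : 0 < h := by linarith
  obtain ⟨g1, g2, g3⟩ := Pool.Agent.N880.HD.const_main h hh h2
  set γ : ℝ := Real.sqrt 2 * h with hγ
  rw [← LNum.num1_main h γ h1.le g1 g2, ← g3]
  have hcont := fa_Rw_cont γ g1 g2
  have hb1 : 1 / h < 1 := by rw [div_lt_iff₀ hh]; linarith
  have hb0 : 0 < 1 / h := by positivity
  have key : ∫ α in (0 : ℝ)..1, min α (1 / h) * Rw γ α < ∫ α in (0 : ℝ)..1, α * Rw γ α := by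
    apply intervalIntegral.integral_lt_integral_of_continuousOn_of_le_of_exists_lt zero_lt_one
    · exact Continuous.continuousOn (by fun_prop)
    · exact Continuous.continuousOn (by fun_prop)
    · intro x hx
      exact mul_le_mul_of_nonneg_right (min_le_left _ _) (Rw_nonneg γ g1 g2 x)
    · refine ⟨(1 / h + 1) / 2, ⟨by linarith, by linarith⟩, ?_⟩
      have hx1 : 1 / h < (1 / h + 1) / 2 := by linarith
      apply mul_lt_mul_of_pos_right (lt_of_le_of_lt (min_le_right _ _) hx1)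
      have hpos : 0 < Rw γ ((1 / h + 1) / 2) := by
        set a : ℝ := (1 / h + 1) / 2 with ha
        have ha0 : 0 < a := by linarith
        have ha1 : a < 1 := by linarith
        rw [H385.WinAux.Rw_eq, abs_of_pos ha0, min_eq_left ha1.le]
        have hs : 0 < Real.sin (γ / 2) := Real.sin_pos_of_pos_of_lt_pi (by linarith) (by linarith)
        -- `nn γ a > nn γ 1 = 0` by strict decrease
        have hnn : 0 < H385.WinAux.nn γ a := by
          have hanti : StrictAntiOn (H385.WinAux.nn γ) (Set.Icc 0 1) := by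
            apply strictAntiOn_of_deriv_neg (convex_Icc 0 1)
            · exact fun x _ => (H385.WinAux.nn_deriv γ g1 x).continuousAt.continuousWithinAt
            · intro x hx
              rw [interior_Icc] at hx
              obtain ⟨hx0, hx1⟩ := hx
              rw [(H385.WinAux.nn_deriv γ g1 x).deriv]
              have c1 : 0 ≤ Real.cos (γ / 2) :=
                Real.cos_nonneg_of_mem_Icc ⟨by linarith, by linarith⟩
              have c2 : 0 ≤ Real.cos (γ * (x - 1 / 2)) :=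
                Real.cos_nonneg_of_mem_Icc ⟨by nlinarith, by nlinarith⟩
              have c3 : 0 < Real.sin (γ * x) :=
                Real.sin_pos_of_pos_of_lt_pi (by positivity) (by nlinarith)
              have c4 : 0 ≤ 2 * Real.cos (γ / 2) * Real.cos (γ * (x - 1 / 2)) := by positivity
              have c5 : 0 < γ * (1 - x) * Real.sin (γ * x) :=
                mul_pos (mul_pos g1 (by linarith)) c3
              linarith
          have h3 := hanti (a := a) (b := 1) ⟨ha0.le, ha1.le⟩ ⟨zero_le_one, le_rfl⟩ ha1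
          have h4 : H385.WinAux.nn γ 1 = 0 := by
            unfold H385.WinAux.nn
            simp
          rwa [h4] at h3
        positivity
      exact hpos
  have h3 := mul_lt_mul_of_pos_left key (by linarith : (0 : ℝ) < 2 * h)
  have h4 : 1 / h * Rw γ 0 = Rw γ 0 / h := by ring
  linarith

end Pool.Agent.H440.OZ
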