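import Pool.Agent.H440.OZ.Stm
import Pool.Graph.R_pool_sql_team_seeded_63374d34.N880.HD.Blk
import Pool.Graph.R_pool_sql_team_seeded_63374d34.N880.HD.Prm
import Pool.Graph.R_pool_sql_team_seeded_63374d34.N880.HD.Cop

/-!
Project OZ (helper440): from primitive characters to Farey fractions, and the large sieve for
the Farey fractions in blocks (after N880/HD/Blk and N880/HD/Prm).
-/

set_option autoImplicit false

open Complex Filter Topology Set MeasureTheory

namespace Pool.Agent.H440.OZ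

open H385 H385.Flat Pool.Agent.N880.HD

lemma AX_sum (P X Y : ℕ) (F : ℕ → ℕ → ℝ) : ∑ i ∈ AX P X Y, F i.1 i.2 =
    ∑ q ∈ Finset.Ioc X (P * Y), ∑ b ∈ (Finset.range q).filter (fun b => Nat.Coprime b q), F q b := by
  unfold AX
  rw [Finset.sum_filter, Finset.sum_product]
  refine Finset.sum_congr rfl fun q hq => ?_
  rw [Finset.mem_Ioc] at hq
  rw [← Finset.sum_filter]
  refine Finset.sum_congr ?_ fun _ _ => rfl
  ext b
  simp only [Finset.mem_filter, Finset.mem_range]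
  constructor
  · rintro ⟨_, h1, h2⟩
    exact ⟨h1, h2⟩
  · rintro ⟨h1, h2⟩
    exact ⟨by omega, h1, h2⟩

lemma aw_nonneg (P : ℕ) (i : ℕ × ℕ) : 0 ≤ aw P i := by
  unfold aw
  have h1 := hP_nonneg P i.1
  have h2 : 0 ≤ ∏ p ∈ P.primeFactors, kp p := Finset.prod_nonneg fun p hp =>
    zero_le_one.trans (kp_one_le p (Nat.prime_of_mem_primeFactors hp))
  positivity

lemma aw_sum (P X Y N : ℕ) (b : ℕ → ℂ) :
    ∑ i ∈ AX P X Y, aw P i * ‖SS N b ((i.2 : ℝ) / i.1)‖ ^ 2 =
    (∑ q ∈ Finset.Ioc X (P * Y), (hP P q / (q : ℝ) ^ 2) *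
      ∑ b' ∈ (Finset.range q).filter (fun b => Nat.Coprime b q), ‖SS N b ((b' : ℝ) / q)‖ ^ 2) /
      ∏ p ∈ P.primeFactors, kp p := by
  rw [AX_sum P X Y (fun q b' => aw P (q, b') * ‖SS N b ((b' : ℝ) / q)‖ ^ 2), Finset.sum_div]
  refine Finset.sum_congr rfl fun q _ => ?_
  rw [Finset.mul_sum, Finset.sum_div]
  refine Finset.sum_congr rfl fun b' _ => ?_
  unfold aw
  ring

theorem add_main : S_add := by
  intro ε hε hε1
  set e : ℝ := ε / 20 with he
  have he0 : 0 < e := by positivity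
  have he1 : e ≤ 1 := by rw [he]; linarith
  have he2 : e ≤ 1 / 20 := by rw [he]; linarith
  obtain ⟨P, hPsf, hPe⟩ := H385.PrimLS.euler_exists e he0
  have hP1 : 1 ≤ P := Nat.pos_of_ne_zero hPsf.ne_zero
  have hP1R : (1 : ℝ) ≤ P := by exact_mod_cast hP1
  obtain ⟨C0, hC0, hLS⟩ := farey_large_sieve_P P hPsf
  obtain ⟨C4, hC4, hmass⟩ := H385.prim_mass
  have hc0 : 0 < c0 := by unfold c0; positivity
  have hlogP : 0 ≤ Real.log P := Real.log_nonneg (by exact_mod_cast hP1)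
  obtain ⟨C, hCdef⟩ : ∃ C, C = c0 * Real.log P + C0 := ⟨_, rfl⟩
  have hC : 0 < C := by rw [hCdef]; positivity
  set B : ℕ := P + ⌈8 / (e ^ 2 * c0 ^ 2)⌉₊ + 1 with hB
  have hBP : P ≤ B := by omega
  have hB1 : 1 ≤ B := by omega
  have hBr : 8 / (e ^ 2 * c0 ^ 2) ≤ (B : ℝ) := by
    have := Nat.le_ceil (8 / (e ^ 2 * c0 ^ 2))
    have h2 : ((⌈8 / (e ^ 2 * c0 ^ 2)⌉₊ : ℕ) : ℝ) ≤ (B : ℝ) := by exact_mod_cast (by omega)
    linarith
  have hB0 : (0 : ℝ) < B := by exact_mod_cast hB1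
  set Kl : ℝ := 1 + Real.log P + (3 * C4 + C) / (e * c0 ^ 2) with hKl
  have hKl0 : 0 ≤ (3 * C4 + C) / (e * c0 ^ 2) := by positivity
  have hKl1 : 1 ≤ Kl := by rw [hKl]; linarith
  refine ⟨P, B, Real.exp Kl, e / 8, hP1, hB1, Real.one_le_exp (by linarith), by positivity, ?_⟩
  intro X Y hX hKX
  have hXpos : (0 : ℝ) < X := by exact_mod_cast hX
  have hX1 : (1 : ℝ) ≤ X := by exact_mod_cast hX
  have hXYr : (X : ℝ) ≤ Y := by
    have : (1 : ℝ) * X ≤ Real.exp Kl * X :=
      mul_le_mul_of_nonneg_right (Real.one_le_exp (by linarith)) hXpos.le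
    linarith
  have hXY : X ≤ Y := by exact_mod_cast hXYr
  have hYpos : (0 : ℝ) < Y := by linarith
  set 𝓛 : ℝ := Real.log ((Y : ℝ) / X) with h𝓛
  have h𝓛K : Kl ≤ 𝓛 := by
    rw [h𝓛, Real.le_log_iff_exp_le (by positivity), le_div_iff₀ hXpos]
    exact hKX
  have h𝓛0 : 0 < 𝓛 := by linarith
  have hWlow := (abs_le.mp (hmass X Y hX hXY)).1
  have hWlow' : c0 ^ 2 * 𝓛 - C4 ≤ WW X Y := by
    have : primFam X Y (fun _ _ => 1) = WW X Y := rfl
    rw [this] at hWlow; linarith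
  have hW0 : 0 ≤ WW X Y := H385.primFam_nonneg _ _ _ (fun _ _ => zero_le_one)
  have hlogPY : Real.log (((P * Y : ℕ) : ℝ) / X) = Real.log P + 𝓛 := by
    rw [h𝓛, ← Real.log_mul (by exact_mod_cast (by omega : P ≠ 0)) (by positivity)]
    push_cast
    congr 1
    ring
  have h3q : 3 * C4 + C ≤ e * c0 ^ 2 * 𝓛 := by
    have : (3 * C4 + C) / (e * c0 ^ 2) ≤ 𝓛 := by linarith
    rw [div_le_iff₀ (by positivity)] at this; linarith
  set K : ℝ := ∏ p ∈ P.primeFactors, kp p with hK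
  set D : ℝ := ∏ p ∈ P.primeFactors, (1 - 1 / (p : ℝ) ^ 2) with hD
  have hK1 : 1 ≤ K := Finset.one_le_prod
    (fun p hp => kp_one_le p (Nat.prime_of_mem_primeFactors hp))
  have hK0 : 0 < K := by linarith
  have hDp : ∀ p ∈ P.primeFactors, 0 ≤ (1 - 1 / (p : ℝ) ^ 2) ∧ (1 - 1 / (p : ℝ) ^ 2) ≤ 1 := by
    intro p hp
    have h2 : (1 : ℝ) ≤ p := by exact_mod_cast (Nat.prime_of_mem_primeFactors hp).one_lt.le
    have h3 : 1 / (p : ℝ) ^ 2 ≤ 1 := by
      rw [div_le_one (by positivity)]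
      nlinarith
    have h4 : 0 ≤ 1 / (p : ℝ) ^ 2 := by positivity
    constructor <;> linarith
  have hD0 : 0 ≤ D := Finset.prod_nonneg (fun p hp => (hDp p hp).1)
  have hD1 : D ≤ 1 := Finset.prod_le_one (fun p hp => (hDp p hp).1) (fun p hp => (hDp p hp).2)
  refine ⟨?_, ?_, ?_⟩
  · -- the large sieve
    intro M H b hH hbM
    obtain ⟨N, hN⟩ : ∃ N, N = M + H := ⟨_, rfl⟩
    rw [← hN]
    have hLS' := hLS X (P * Y) H ((X : ℝ) ^ 2) (fun n => b (M + n)) hX (by nlinarith) (by nlinarith)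
      le_rfl
    rw [const_eq, ← hK, ← hD, ← Blk_sq M H b hbM, ← hN] at hLS'
    simp only [← Blk_SS M H b hbM, ← hN] at hLS'
    rw [aw_sum, ← hK, div_le_iff₀ hK0]
    refine hLS'.trans ?_
    rw [hlogPY]
    set S : ℝ := ∑ n ∈ Finset.Icc 1 N, ‖b n‖ ^ 2 with hS
    have hS0 : 0 ≤ S := Finset.sum_nonneg fun _ _ => by positivity
    have hexp : Real.exp (Real.pi * H / (X : ℝ) ^ 2) ≤ 1 + e := by
      refine exp_le_one_add he0 he1 ?_
      rw [div_le_iff₀ (by positivity)]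
      have h3 : Real.pi * H ≤ 4 * (e / 8 * (X : ℝ) ^ 2) :=
        mul_le_mul Real.pi_lt_four.le hH (by positivity) (by norm_num)
      linarith
    have h8 : c0 * (K * D) * (Real.log P + 𝓛) + C0 ≤ K * (c0 * D * 𝓛 + C) := by
      have h81 : c0 * Real.log P * D ≤ c0 * Real.log P * 1 :=
        mul_le_mul_of_nonneg_left hD1 (by positivity)
      have h82 : K * (c0 * Real.log P * D) ≤ K * (c0 * Real.log P * 1) :=
        mul_le_mul_of_nonneg_left h81 hK0.le
      have h83 : 1 * C0 ≤ K * C0 := mul_le_mul_of_nonneg_right hK1 hC0.le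
      rw [hCdef]
      nlinarith
    have h0 : c0 * D * 𝓛 ≤ c0 ^ 2 * (1 + e) * 𝓛 := by
      have := mul_le_mul_of_nonneg_left hPe hc0.le
      have := mul_le_mul_of_nonneg_right this h𝓛0.le
      linarith [show c0 * (c0 * (1 + e)) * 𝓛 = c0 ^ 2 * (1 + e) * 𝓛 by ring]
    have h1 : c0 * D * 𝓛 + C ≤ (1 + 2 * e) * WW X Y := by
      have h3 : (1 + 2 * e) * (c0 ^ 2 * 𝓛 - C4) ≤ (1 + 2 * e) * WW X Y :=
        mul_le_mul_of_nonneg_left hWlow' (by linarith)
      have h4 : (1 + 2 * e) * (c0 ^ 2 * 𝓛 - C4) = c0 ^ 2 * (1 + e) * 𝓛 + e * c0 ^ 2 * 𝓛 -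
        (1 + 2 * e) * C4 := by ring
      have h5 : (1 + 2 * e) * C4 ≤ 3 * C4 := mul_le_mul_of_nonneg_right (by linarith) hC4.le
      linarith
    have h9 : Real.exp (Real.pi * H / (X : ℝ) ^ 2) * (c0 * (K * D) * (Real.log P + 𝓛) + C0) ≤
        (1 + e) * (K * ((1 + 2 * e) * WW X Y)) := by
      refine mul_le_mul hexp (h8.trans (mul_le_mul_of_nonneg_left h1 hK0.le)) ?_ (by linarith)
      positivity
    refine (mul_le_mul_of_nonneg_right h9 hS0).trans ?_
    have h10 : (1 + e) * (1 + 2 * e) ≤ 1 + ε := by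
      rw [he]; nlinarith
    have h11 : 0 ≤ K * WW X Y * S := by positivity
    calc (1 + e) * (K * ((1 + 2 * e) * WW X Y)) * S = ((1 + e) * (1 + 2 * e)) * (K * WW X Y * S) := by
          ring
      _ ≤ (1 + ε) * (K * WW X Y * S) := mul_le_mul_of_nonneg_right h10 h11
      _ = _ := by ring
  · -- from characters to fractions
    intro N b hsupp
    have hb : ∀ n, ¬ Nat.Coprime n P → b n = 0 := fun n hn => by
      by_contra hbn
      obtain ⟨hp, hBn⟩ := hsupp n hbn
      apply hn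
      rw [hp.coprime_iff_not_dvd]
      intro hd
      have := Nat.le_of_dvd (by omega) hd
      omega
    set S : ℝ := ∑ n ∈ Finset.Icc 1 N, ‖b n‖ ^ 2 with hS
    have hS0 : 0 ≤ S := Finset.sum_nonneg fun _ _ => by positivity
    set E : ℝ := ∑ q ∈ Finset.Ioc X (P * Y), (1 / (q : ℝ)) * EB N b q ^ 2 with hE
    have hE0 : 0 ≤ E := Finset.sum_nonneg (fun _ _ => by positivity)
    have h2 : K * primFam X Y (fun q χ => ‖∑ n ∈ Finset.Icc 1 N, b n * χ (n : ZMod q)‖ ^ 2) ≤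
        ∑ q ∈ Finset.Ioc X Y, ∑ T ∈ (P.primeFactors.filter (fun p => ¬ p ∣ q)).powerset,
          ff P N b (q * pr T) T := by
      have h21 : primFam X Y (fun q χ => ‖∑ n ∈ Finset.Icc 1 N, b n * χ (n : ZMod q)‖ ^ 2) =
          ∑ q ∈ Finset.Ioc X Y, (1 / (q : ℝ) ^ 2) * PS N b q := rfl
      rw [h21, Finset.mul_sum]
      apply Finset.sum_le_sum
      intro q hq
      rw [Finset.mem_Ioc] at hq
      have h22 := mul_le_mul_of_nonneg_right (weight P q (by omega)) (PS_nonneg N b q)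
      calc K * ((1 / (q : ℝ) ^ 2) * PS N b q) = (1 / (q : ℝ) ^ 2) * K * PS N b q := by ring
        _ ≤ _ := h22
        _ = _ := by
          rw [Finset.sum_mul]
          apply Finset.sum_congr rfl
          intro T hT
          rw [Finset.mem_powerset] at hT
          have hTP : T ⊆ P.primeFactors := hT.trans (Finset.filter_subset _ _)
          unfold ff
          rw [Nat.mul_div_cancel q (pr_pos hTP)]
          ring
    have h3 := h2.trans (reindex P hPsf X Y N b)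
    have h4 : ∑ q' ∈ Finset.Ioc X (P * Y), ∑ T ∈ UT P q', ff P N b q' T ≤
        (1 + e) * ∑ q ∈ Finset.Ioc X (P * Y), (hP P q / (q : ℝ) ^ 2) *
          ∑ b' ∈ (Finset.range q).filter (fun b => Nat.Coprime b q), ‖SS N b ((b' : ℝ) / q)‖ ^ 2
        + (2 / e) * E := by
      rw [hE, Finset.mul_sum, Finset.mul_sum, ← Finset.sum_add_distrib]
      apply Finset.sum_le_sum
      intro q' hq'
      rw [Finset.mem_Ioc] at hq'
      have hq1 : 1 ≤ q' := by omega
      have hq0 : (0 : ℝ) < q' := by exact_mod_cast hq1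
      have hh0 := hP_nonneg P q'
      have hh1 := hP_le_one P q'
      have h41 : 0 ≤ hP P q' / (q' : ℝ) ^ 2 := by positivity
      unfold ff
      rw [← Finset.mul_sum]
      refine (mul_le_mul_of_nonneg_left (lemC P hPsf q' hq1 N b hb e he0 he1) h41).trans ?_
      rw [mul_add]
      have h42 : hP P q' / (q' : ℝ) ^ 2 * (2 / e * (Nat.totient q' : ℝ) * EB N b q' ^ 2) ≤
          2 / e * (1 / (q' : ℝ) * EB N b q' ^ 2) := by
        have h43 : hP P q' / (q' : ℝ) ^ 2 * (Nat.totient q' : ℝ) ≤ 1 / (q' : ℝ) := by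
          have h44 : (Nat.totient q' : ℝ) ≤ q' := by exact_mod_cast Nat.totient_le q'
          have h45 : hP P q' * (Nat.totient q' : ℝ) ≤ 1 * q' :=
            mul_le_mul hh1 h44 (Nat.cast_nonneg _) zero_le_one
          rw [div_mul_eq_mul_div, div_le_div_iff₀ (by positivity) hq0]
          nlinarith
        have h46 : 0 ≤ 2 / e * EB N b q' ^ 2 := by positivity
        have := mul_le_mul_of_nonneg_right h43 h46
        nlinarith [this]
      nlinarith [h42]
    have h5 := h3.trans h4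
    have hEb : E ≤ (2 / (B : ℝ)) * (1 + (Real.log P + 𝓛)) * S := by
      have h2 := Pool.Agent.N880.HD.cop_main B X (P * Y) N (fun n => ‖b n‖) hB1 hX
        (hXY.trans (Nat.le_mul_of_pos_left Y hP1)) (fun n => norm_nonneg _)
        (fun n hn => hsupp n (norm_ne_zero_iff.1 hn))
      rw [hlogPY] at h2
      exact h2
    have hpart2 : (2 / e) * E ≤ (2 * e) * WW X Y * S := by
      have g1 : 1 + (Real.log P + 𝓛) ≤ 2 * 𝓛 := by linarith
      have g2 : 2 / (B : ℝ) ≤ e ^ 2 * c0 ^ 2 / 4 := by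
        rw [div_le_iff₀ hB0]
        rw [div_le_iff₀ (by positivity)] at hBr
        linarith
      have g3 : (2 / (B : ℝ)) * (1 + (Real.log P + 𝓛)) ≤ e ^ 2 * c0 ^ 2 / 4 * (2 * 𝓛) := by
        refine mul_le_mul g2 g1 (by positivity) (by positivity)
      have g4 : (2 / e) * ((2 / (B : ℝ)) * (1 + (Real.log P + 𝓛))) ≤ e * (c0 ^ 2 * 𝓛) := by
        calc _ ≤ (2 / e) * (e ^ 2 * c0 ^ 2 / 4 * (2 * 𝓛)) :=
              mul_le_mul_of_nonneg_left g3 (by positivity)
          _ = _ := by field_simp; ring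
      have g5 : c0 ^ 2 * 𝓛 ≤ 2 * WW X Y := by
        have k1 : C4 ≤ e * (c0 ^ 2 * 𝓛) := by linarith
        have k2 : e * (c0 ^ 2 * 𝓛) ≤ 1 / 20 * (c0 ^ 2 * 𝓛) :=
          mul_le_mul_of_nonneg_right he2 (by positivity)
        linarith
      have g6 : e * (c0 ^ 2 * 𝓛) ≤ 2 * e * WW X Y := by
        have := mul_le_mul_of_nonneg_left g5 he0.le
        linarith
      calc _ ≤ (2 / e) * ((2 / (B : ℝ)) * (1 + (Real.log P + 𝓛)) * S) :=
            mul_le_mul_of_nonneg_left hEb (by positivity)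
        _ = ((2 / e) * ((2 / (B : ℝ)) * (1 + (Real.log P + 𝓛)))) * S := by ring
        _ ≤ _ := mul_le_mul_of_nonneg_right (g4.trans g6) hS0
    rw [aw_sum, ← hK]
    obtain ⟨F, hF⟩ : ∃ F, F = ∑ q ∈ Finset.Ioc X (P * Y), (hP P q / (q : ℝ) ^ 2) *
          ∑ b' ∈ (Finset.range q).filter (fun b => Nat.Coprime b q),
            ‖SS N b ((b' : ℝ) / q)‖ ^ 2 := ⟨_, rfl⟩
    have hF0 : 0 ≤ F := by
      rw [hF]
      exact Finset.sum_nonneg fun q _ => mul_nonneg (div_nonneg (hP_nonneg P q) (by positivity))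
        (Finset.sum_nonneg fun _ _ => by positivity)
    rw [← hF] at h5 ⊢
    have h6 : K * primFam X Y (fun q χ => ‖∑ n ∈ Finset.Icc 1 N, b n * χ (n : ZMod q)‖ ^ 2) ≤
        K * ((1 + ε) * (F / K) + ε * WW X Y * S) := by
      have e1 : K * ((1 + ε) * (F / K) + ε * WW X Y * S) = (1 + ε) * F + K * (ε * WW X Y * S) := by
        field_simp
      rw [e1]
      have e2 : (1 + e) * F ≤ (1 + ε) * F :=
        mul_le_mul_of_nonneg_right (show 1 + e ≤ 1 + ε by rw [he]; linarith) hF0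
      have e3 : 1 * (ε * WW X Y * S) ≤ K * (ε * WW X Y * S) :=
        mul_le_mul_of_nonneg_right hK1 (by positivity)
      have e4 : (2 * e) * WW X Y * S ≤ ε * WW X Y * S := by
        have h7 : 0 ≤ WW X Y * S := by positivity
        have h8 : 2 * e ≤ ε := by rw [he]; linarith
        calc (2 * e) * WW X Y * S = (2 * e) * (WW X Y * S) := by ring
          _ ≤ ε * (WW X Y * S) := mul_le_mul_of_nonneg_right h8 h7
          _ = _ := by ring
      linarith
    exact le_of_mul_le_mul_left h6 hK0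
  · -- the mass
    have h1 : ∑ i ∈ AX P X Y, aw P i = ∑ q ∈ Finset.Ioc X (P * Y),
        ∑ b ∈ (Finset.range q).filter (fun b => Nat.Coprime b q), aw P (q, b) :=
      AX_sum P X Y (fun q b => aw P (q, b))
    have h2 : ∑ i ∈ AX P X Y, aw P i ≤ ∑ q ∈ Finset.Ioc X (P * Y), 1 / (q : ℝ) := by
      rw [h1]
      refine Finset.sum_le_sum fun q hq => ?_
      rw [Finset.mem_Ioc] at hq
      have hq1 : 1 ≤ q := by omega
      have hq0 : (0 : ℝ) < q := by exact_mod_cast hq1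
      have h3 : ∀ b : ℕ, aw P (q, b) ≤ 1 / (q : ℝ) ^ 2 := by
        intro b
        show hP P q / (q : ℝ) ^ 2 / K ≤ _
        have h4 : hP P q / (q : ℝ) ^ 2 ≤ 1 / (q : ℝ) ^ 2 :=
          div_le_div_of_nonneg_right (hP_le_one P q) (by positivity)
        exact (div_le_self (div_nonneg (hP_nonneg P q) (by positivity)) hK1).trans h4
      calc ∑ b ∈ (Finset.range q).filter (fun b => Nat.Coprime b q), aw P (q, b) ≤
          ∑ b ∈ (Finset.range q).filter (fun b => Nat.Coprime b q), 1 / (q : ℝ) ^ 2 :=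
            Finset.sum_le_sum fun b _ => h3 b
        _ ≤ ∑ b ∈ Finset.range q, 1 / (q : ℝ) ^ 2 :=
            Finset.sum_le_sum_of_subset_of_nonneg (Finset.filter_subset _ _)
              fun _ _ _ => by positivity
        _ = 1 / (q : ℝ) := by
            rw [Finset.sum_const, Finset.card_range, nsmul_eq_mul]
            field_simp
    have hPY : X ≤ P * Y := hXY.trans (Nat.le_mul_of_pos_left Y hP1)
    have h5 := cop_log X (P * Y) hX hPY
    have h6 : Real.log ((P * Y : ℕ) : ℝ) - Real.log X = Real.log P + 𝓛 := by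
      have h61 : (0 : ℝ) < ((P * Y : ℕ) : ℝ) := by
        push_cast
        have : (0 : ℝ) < P := by linarith
        positivity
      rw [← hlogPY, Real.log_div h61.ne' hXpos.ne']
    rw [h6] at h5
    have hc36 : 0.36 ≤ c0 ^ 2 := by
      have hpi : Real.pi ^ 2 ≤ 10 := by
        have := Real.pi_lt_d2
        have := Real.pi_pos
        nlinarith
      have hc6 : 0.6 ≤ c0 := by
        unfold c0
        rw [le_div_iff₀ (by positivity)]
        linarith
      nlinarith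
    have h7 : 0.36 * 𝓛 ≤ c0 ^ 2 * 𝓛 := mul_le_mul_of_nonneg_right hc36 h𝓛0.le
    have k1 : 3 * C4 ≤ 1 / 20 * (c0 ^ 2 * 𝓛) := by
      have : e * (c0 ^ 2 * 𝓛) ≤ 1 / 20 * (c0 ^ 2 * 𝓛) :=
        mul_le_mul_of_nonneg_right he2 (by positivity)
      linarith
    linarith

end Pool.Agent.H440.OZ
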