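import Pool.Agent.H440.OZ.Stm3

/-!
# Project OZ (helper440), step A2: the coefficient sums of the compared coefficients
-/

set_option autoImplicit false

open Complex Filter Topology MeasureTheory Set

namespace Pool.Agent.H440.OZ.LCoef

open Pool.Agent.H440.OZ
open Pool.Agent.N880.QF (yy yy_sq yy_abs)

/-- the prime part -/
noncomputable def yc (B n : ℕ) : ℝ := if n.Prime ∧ B < n then yy n else 0

lemma mem_PN {u D : ℝ} {n : ℕ} :
    n ∈ PN u D ↔ (1 ≤ n ∧ n ≤ ⌊Real.exp (u + D)⌋₊) ∧ |Real.log n - u| ≤ D := by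
  unfold PN
  rw [Finset.mem_filter, Finset.mem_Icc]

lemma card_PN (u D : ℝ) : ((PN u D).card : ℝ) ≤ Real.exp (u + D) := by
  have h1 : (PN u D).card ≤ ⌊Real.exp (u + D)⌋₊ := by
    refine (Finset.card_filter_le _ _).trans ?_
    rw [Nat.card_Icc]
    omega
  calc ((PN u D).card : ℝ) ≤ (⌊Real.exp (u + D)⌋₊ : ℝ) := by exact_mod_cast h1
    _ ≤ _ := Nat.floor_le (Real.exp_pos _).le

lemma RR_facts {s L u : ℝ} (hs : 0 < s) (hL : 0 ≤ L) (h1 : (1 + s) * L ≤ u) (h2 : u ≤ 2 * L) :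
    1 ≤ RR s L u ∧ (RR s L u : ℝ) ≤ Real.exp (u - (1 + s) * L) ∧ 0 ≤ Real.log (RR s L u) ∧
      Real.log (RR s L u) ≤ u - (1 + s) * L ∧
      u - (1 + s) * L - Real.log 2 ≤ Real.log (RR s L u) ∧
      Real.log (RR s L u) ≤ L ∧ 2 * Real.log (RR s L u) ≤ u := by
  have hv : 0 ≤ u - (1 + s) * L := by linarith
  have hR1 : 1 ≤ RR s L u := by
    unfold RR
    exact Nat.le_floor (by push_cast; exact Real.one_le_exp hv)
  have hR0 : (0 : ℝ) < RR s L u := by exact_mod_cast hR1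
  have hRe : (RR s L u : ℝ) ≤ Real.exp (u - (1 + s) * L) := by
    unfold RR
    exact Nat.floor_le (Real.exp_pos _).le
  have hlog0 : 0 ≤ Real.log (RR s L u) := Real.log_nonneg (by exact_mod_cast hR1)
  have hlog1 : Real.log (RR s L u) ≤ u - (1 + s) * L := by
    rw [Real.log_le_iff_le_exp hR0]
    exact hRe
  have hlow : Real.exp (u - (1 + s) * L) ≤ 2 * RR s L u := by
    have := Nat.lt_floor_add_one (Real.exp (u - (1 + s) * L))
    have h3 : (1 : ℝ) ≤ RR s L u := by exact_mod_cast hR1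
    unfold RR at h3 ⊢
    linarith
  have hlog2 : u - (1 + s) * L - Real.log 2 ≤ Real.log (RR s L u) := by
    have := Real.log_le_log (Real.exp_pos _) hlow
    rw [Real.log_exp, Real.log_mul (by norm_num) hR0.ne'] at this
    linarith
  have hsL : 0 ≤ s * L := by positivity
  exact ⟨hR1, hRe, hlog0, hlog1, hlog2, by nlinarith, by nlinarith⟩

lemma poly_exp {s L : ℝ} (hs : 0 < s) (hL : 0 ≤ L) :
    (1 + L) ^ 4 * Real.exp (-(2 * s * L)) ≤ 24 * Real.exp (2 * s) / (2 * s) ^ 4 := by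
  have h1 := Real.pow_div_factorial_le_exp (2 * s * (1 + L)) (by positivity) 4
  have h2 : ((Nat.factorial 4 : ℕ) : ℝ) = 24 := by norm_num [Nat.factorial]
  rw [h2, div_le_iff₀ (by norm_num)] at h1
  rw [le_div_iff₀ (by positivity)]
  have h3 : Real.exp (2 * s * (1 + L)) = Real.exp (2 * s) * Real.exp (2 * s * L) := by
    rw [← Real.exp_add]
    ring_nf
  have h4 : Real.exp (2 * s * L) * Real.exp (-(2 * s * L)) = 1 := by
    rw [← Real.exp_add, add_neg_cancel, Real.exp_zero]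
  calc (1 + L) ^ 4 * Real.exp (-(2 * s * L)) * (2 * s) ^ 4
      = (2 * s * (1 + L)) ^ 4 * Real.exp (-(2 * s * L)) := by ring
    _ ≤ (Real.exp (2 * s * (1 + L)) * 24) * Real.exp (-(2 * s * L)) :=
        mul_le_mul_of_nonneg_right h1 (Real.exp_pos _).le
    _ = 24 * Real.exp (2 * s) * (Real.exp (2 * s * L) * Real.exp (-(2 * s * L))) := by
        rw [h3]; ring
    _ = _ := by rw [h4, mul_one]

lemma err_le {s L u C2 A : ℝ} {R : ℕ} (hs : 0 < s) (hL : 0 ≤ L) (hu2 : u ≤ 2 * L) (hC2 : 0 ≤ C2)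
    (hR1 : 1 ≤ R) (hRe : (R : ℝ) ≤ Real.exp (u - (1 + s) * L)) (hlog : Real.log R ≤ L)
    (hA0 : 0 ≤ A) (hA : A ≤ C2 * R * (1 + Real.log R) ^ 2) :
    Real.exp (-u) * A ^ 2 ≤ C2 ^ 2 * (24 * Real.exp (2 * s) / (2 * s) ^ 4) := by
  have hlog0 : 0 ≤ Real.log R := Real.log_nonneg (by exact_mod_cast hR1)
  have h1 : A ≤ C2 * Real.exp (u - (1 + s) * L) * (1 + L) ^ 2 := by
    refine hA.trans ?_
    gcongr
  have h2 : A ^ 2 ≤ (C2 * Real.exp (u - (1 + s) * L) * (1 + L) ^ 2) ^ 2 :=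
    pow_le_pow_left₀ hA0 h1 2
  calc Real.exp (-u) * A ^ 2
      ≤ Real.exp (-u) * (C2 * Real.exp (u - (1 + s) * L) * (1 + L) ^ 2) ^ 2 :=
        mul_le_mul_of_nonneg_left h2 (Real.exp_pos _).le
    _ = C2 ^ 2 * ((1 + L) ^ 4 * (Real.exp (-u) *
          (Real.exp (u - (1 + s) * L) * Real.exp (u - (1 + s) * L)))) := by ring
    _ = C2 ^ 2 * ((1 + L) ^ 4 * Real.exp (u - 2 * L - 2 * s * L)) := by
        rw [← Real.exp_add, ← Real.exp_add]
        ring_nf
    _ ≤ C2 ^ 2 * ((1 + L) ^ 4 * Real.exp (-(2 * s * L))) := by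
        gcongr
        linarith
    _ ≤ _ := mul_le_mul_of_nonneg_left (poly_exp hs hL) (by positivity)

lemma yc_sq_le (B n : ℕ) : yc B n ^ 2 ≤ ArithmeticFunction.vonMangoldt n ^ 2 / n := by
  unfold yc
  split_ifs
  · rw [yy_sq]
  · rw [zero_pow two_ne_zero]
    positivity

lemma y_sum1 (B : ℕ) (u : ℝ) (P : Finset ℕ) :
    ∑ n ∈ P, yc B n ^ 2 * Real.exp (-(u - Real.log n) ^ 2) ≤
      Pool.Agent.N7.MainC.inner 1 u := by
  have h1 := (Pool.Agent.N7.MainC.inner_summable (c := 1) one_pos u).sum_le_tsum P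
    (fun n _ => by positivity)
  unfold Pool.Agent.N7.MainC.inner
  rw [one_pow, one_mul]
  refine le_trans (Finset.sum_le_sum fun p _ => ?_) h1
  rw [one_mul]
  exact mul_le_mul_of_nonneg_right (yc_sq_le B p) (Real.exp_pos _).le

/-- the mixed sum -/
lemma mixed {B R : ℕ} {u D E ε : ℝ} (hR : 1 ≤ R) (hDE : D ≤ E)
    (hlow : ∀ n ∈ PN u E, B < n ∧ R < n)
    (hm : Real.sqrt Real.pi - ε ≤
      ∑ p ∈ (Finset.Icc 1 ⌊Real.exp (u + D)⌋₊).filter
        (fun p : ℕ => p.Prime ∧ |Real.log p - u| ≤ D),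
      Real.log p / p * Real.exp (-(u - Real.log p) ^ 2)) :
    GG R * (Real.sqrt Real.pi - ε) ≤
      ∑ n ∈ PN u E, yc B n * (gg R n / Real.sqrt n) * Real.exp (-(u - Real.log n) ^ 2) := by
  have hterm : ∀ n ∈ PN u E, yc B n * (gg R n / Real.sqrt n) * Real.exp (-(u - Real.log n) ^ 2) =
      if n.Prime then GG R * (Real.log n / n * Real.exp (-(u - Real.log n) ^ 2)) else 0 := by
    intro n hn
    obtain ⟨h1, h2⟩ := hlow n hn
    unfold yc
    by_cases hp : n.Prime
    · rw [if_pos ⟨hp, h1⟩, if_pos hp, gg_prime hR hp h2]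
      unfold yy
      rw [ArithmeticFunction.vonMangoldt_apply_prime hp]
      have hn0 : (0 : ℝ) < n := by exact_mod_cast hp.pos
      have h3 : Real.log n / Real.sqrt n * (GG R / Real.sqrt n) =
          GG R * (Real.log n / (Real.sqrt n * Real.sqrt n)) := by
        field_simp
      rw [h3, Real.mul_self_sqrt hn0.le, mul_assoc]
    · rw [if_neg (fun h => hp h.1), if_neg hp]
      ring
  rw [Finset.sum_congr rfl hterm, ← Finset.sum_filter, ← Finset.mul_sum]
  refine mul_le_mul_of_nonneg_left (hm.trans ?_) (GG_nonneg R)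
  refine Finset.sum_le_sum_of_subset_of_nonneg ?_ ?_
  · intro p hp
    rw [Finset.mem_filter, Finset.mem_Icc] at hp
    obtain ⟨⟨h1, h2⟩, h3, h4⟩ := hp
    rw [Finset.mem_filter, mem_PN]
    refine ⟨⟨⟨h1, h2.trans ?_⟩, h4.trans hDE⟩, h3⟩
    exact Nat.floor_le_floor (Real.exp_le_exp.2 (by linarith))
  · intro p hp _
    have hp1 : 1 ≤ p := (mem_PN.1 (Finset.mem_filter.1 hp).1).1.1
    have : 0 ≤ Real.log p := Real.log_nonneg (by exact_mod_cast hp1)
    positivity

lemma abs_gg_le (R n : ℕ) : |gg R n| ≤ ∑ d ∈ SQ R, |lam R d| := by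
  unfold gg
  refine (Finset.abs_sum_le_sum_abs _ _).trans ?_
  exact Finset.sum_le_sum_of_subset_of_nonneg (Finset.filter_subset _ _) fun _ _ _ => abs_nonneg _

/-- **Step A2** -/
theorem coef_main (hmer : S_mer) : S_coef := by
  intro s hs hs1 B
  obtain ⟨C2, hC2, hG⟩ := GG_le
  obtain ⟨C3, hC3, hg1⟩ := gg_mean (c := 1) one_pos
  obtain ⟨C4, hC4, hg2⟩ := gg_mean (c := 1 / 2) (by norm_num)
  obtain ⟨C5, hC5, hcr⟩ := H385.lam_sq_crude
  have hC20 : 0 < C2 := by linarith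
  obtain ⟨D, u0, hD, hu0, hm⟩ := hmer (s / (2 * C2)) (by positivity)
  obtain ⟨E, hE⟩ : ∃ E, E = C2 ^ 2 * (24 * Real.exp (2 * s) / (2 * s) ^ 4) := ⟨_, rfl⟩
  have hE0 : 0 ≤ E := by rw [hE]; positivity
  obtain ⟨Ca, hCa⟩ : ∃ Ca, Ca = Real.sqrt Real.pi * Real.log 2 + s + C3 * E := ⟨_, rfl⟩
  obtain ⟨Cb, hCb⟩ : ∃ Cb, Cb = 6 * C5 + 2 * (Real.sqrt (Real.pi / (1 / 2)) * (2 * C2) + C4 * E) :=
    ⟨_, rfl⟩
  obtain ⟨Cc, hCc⟩ : ∃ Cc, Cc = 2 + C2 * (2 * Real.exp 1) := ⟨_, rfl⟩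
  have hlog2 : 0 < Real.log 2 := Real.log_pos (by norm_num)
  have hCa0 : 0 ≤ Ca := by rw [hCa]; positivity
  have hCb0 : 0 ≤ Cb := by rw [hCb]; positivity
  have hCc0 : 0 < Cc := by rw [hCc]; positivity
  refine ⟨Ca + Cb + Cc, max 1 (max u0 (max (4 * D / s) (Real.log (B + 1)))), by positivity,
    le_max_left _ _, ?_⟩
  intro L u hL hu1 hu2
  have hL1 : 1 ≤ L := (le_max_left _ _).trans hL
  have hLu0 : u0 ≤ L := ((le_max_left _ _).trans (le_max_right _ _)).trans hL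
  have hLD : 4 * D / s ≤ L :=
    ((le_max_left _ _).trans ((le_max_right _ _).trans (le_max_right _ _))).trans hL
  have hLB : Real.log (B + 1) ≤ L :=
    ((le_max_right _ _).trans ((le_max_right _ _).trans (le_max_right _ _))).trans hL
  have hL0 : 0 ≤ L := by linarith
  have hsL : 0 ≤ s * L := by positivity
  have hDE : D ≤ s / 4 * L := by
    rw [div_le_iff₀ hs] at hLD
    linarith
  have huL : L ≤ u := by nlinarith
  have hu00 : 0 ≤ u := by linarith
  obtain ⟨hR1, hRe, hl0, hl1, hl2, hl3, hl4⟩ := RR_facts hs hL0 hu1 hu2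
  obtain ⟨R, hR⟩ : ∃ R, R = RR s L u := ⟨_, rfl⟩
  rw [← hR] at hR1 hRe hl0 hl1 hl2 hl3 hl4 ⊢
  obtain ⟨hG1, hG2⟩ := hG R hR1
  obtain ⟨A, hA⟩ : ∃ A, A = ∑ d ∈ SQ R, |lam R d| := ⟨_, rfl⟩
  have hA0 : 0 ≤ A := by rw [hA]; exact Finset.sum_nonneg fun _ _ => abs_nonneg _
  rw [← hA] at hG2
  have hGG0 := GG_nonneg R
  have hGGlow : u - (1 + s) * L - Real.log 2 ≤ GG R := hl2.trans (log_le_GG hR1)
  have hGGup : GG R ≤ C2 * (1 + L) := hG1.trans (mul_le_mul_of_nonneg_left (by linarith) hC20.le)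
  have herr : Real.exp (-u) * A ^ 2 ≤ E := by
    rw [hE]
    exact err_le hs hL0 hu2 hC20.le hR1 hRe hl3 hA0 hG2
  obtain ⟨P, hP⟩ : ∃ P, P = PN u (s / 4 * L) := ⟨_, rfl⟩
  have hlow : ∀ n ∈ PN u (s / 4 * L), B < n ∧ R < n := by
    intro n hn
    obtain ⟨⟨h1, _⟩, h2⟩ := mem_PN.1 hn
    have h3 := (abs_le.1 h2).1
    have hn0 : (0 : ℝ) < n := by exact_mod_cast h1
    have h4 : (1 + s) * L - s / 4 * L ≤ Real.log n := by linarith
    constructor
    · have h5 : Real.log (B + 1) ≤ Real.log n := by nlinarith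
      have h6 := (Real.log_le_log_iff (by positivity) hn0).1 h5
      have h7 : B + 1 ≤ n := by exact_mod_cast h6
      omega
    · have h5 : Real.log R < Real.log n := by nlinarith
      have h6 := (Real.log_lt_log_iff (by exact_mod_cast hR1) hn0).1 h5
      exact_mod_cast h6
  have hmix := mixed (B := B) hR1 hDE hlow (hm u (by linarith))
  rw [← hP] at hmix hlow ⊢
  have hx : ∀ n, xc B R n = yc B n - gg R n / Real.sqrt n := fun n => rfl
  have hgsq : ∀ n : ℕ, (gg R n / Real.sqrt n) ^ 2 = gg R n ^ 2 / n := fun n => by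
    rw [div_pow, Real.sq_sqrt (Nat.cast_nonneg n)]
  refine ⟨?_, ?_, ?_⟩
  · -- (a)
    have e1 : ∑ n ∈ P, xc B R n ^ 2 * Real.exp (-(u - Real.log n) ^ 2) =
        ∑ n ∈ P, yc B n ^ 2 * Real.exp (-(u - Real.log n) ^ 2) -
        2 * ∑ n ∈ P, yc B n * (gg R n / Real.sqrt n) * Real.exp (-(u - Real.log n) ^ 2) +
        ∑ n ∈ P, gg R n ^ 2 / n * Real.exp (-(u - Real.log n) ^ 2) := by
      rw [Finset.mul_sum, ← Finset.sum_sub_distrib, ← Finset.sum_add_distrib]
      refine Finset.sum_congr rfl fun n _ => ?_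
      rw [hx, ← hgsq]
      ring
    obtain ⟨g1, g2⟩ := hg1 R u hR1 hl4
    have e2 : ∑ n ∈ P, gg R n ^ 2 / n * Real.exp (-(u - Real.log n) ^ 2) ≤
        Real.sqrt Real.pi * GG R + C3 * E := by
      have h1 := g1.sum_le_tsum P (fun n _ => by positivity)
      have h2 : ∑ n ∈ P, gg R n ^ 2 / n * Real.exp (-(u - Real.log n) ^ 2) =
          ∑ n ∈ P, gg R n ^ 2 / n * Real.exp (-1 * (u - Real.log n) ^ 2) := by
        refine Finset.sum_congr rfl fun n _ => ?_
        rw [neg_one_mul]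
      rw [h2]
      refine (h1.trans g2).trans ?_
      rw [div_one, ← hA, mul_assoc]
      have := mul_le_mul_of_nonneg_left herr hC3.le
      linarith
    have e3 := y_sum1 B u P
    rw [e1]
    have e4 : 2 * (s / (2 * C2)) * GG R ≤ s * L + s := by
      have h1 : 2 * (s / (2 * C2)) * GG R ≤ 2 * (s / (2 * C2)) * (C2 * (1 + L)) :=
        mul_le_mul_of_nonneg_left hGGup (by positivity)
      have h2 : 2 * (s / (2 * C2)) * (C2 * (1 + L)) = s * (1 + L) := by
        field_simp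
      linarith
    have e5 : Real.sqrt Real.pi * (u - (1 + s) * L) - Real.sqrt Real.pi * Real.log 2 ≤
        Real.sqrt Real.pi * GG R := by
      have := mul_le_mul_of_nonneg_left hGGlow (Real.sqrt_nonneg Real.pi)
      linarith
    have e6 : GG R * (Real.sqrt Real.pi - s / (2 * C2)) =
        Real.sqrt Real.pi * GG R - (s / (2 * C2)) * GG R := by ring
    rw [e6] at hmix
    linarith
  · -- (b)
    obtain ⟨g1, g2⟩ := hg2 R u hR1 hl4
    obtain ⟨c1, c2⟩ := hcr u hu00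
    have e1 : ∑ n ∈ P, xc B R n ^ 2 * Real.exp (-(u - Real.log n) ^ 2 / 2) ≤
        2 * ∑ n ∈ P, ArithmeticFunction.vonMangoldt n ^ 2 / n *
          Real.exp (-(u - Real.log n) ^ 2 / 2) +
        2 * ∑ n ∈ P, gg R n ^ 2 / n * Real.exp (-(1 / 2) * (u - Real.log n) ^ 2) := by
      rw [Finset.mul_sum, Finset.mul_sum, ← Finset.sum_add_distrib]
      refine Finset.sum_le_sum fun n _ => ?_
      have h1 : -(1 / 2) * (u - Real.log n) ^ 2 = -(u - Real.log n) ^ 2 / 2 := by ring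
      rw [h1]
      have h2 : xc B R n ^ 2 ≤ 2 * (ArithmeticFunction.vonMangoldt n ^ 2 / n) +
          2 * (gg R n ^ 2 / n) := by
        rw [hx, ← hgsq]
        have h3 := yc_sq_le B n
        nlinarith [sq_nonneg (yc B n + gg R n / Real.sqrt n)]
      calc _ ≤ (2 * (ArithmeticFunction.vonMangoldt n ^ 2 / n) + 2 * (gg R n ^ 2 / n)) *
            Real.exp (-(u - Real.log n) ^ 2 / 2) :=
            mul_le_mul_of_nonneg_right h2 (Real.exp_pos _).le
        _ = _ := by ring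
    have e2 := c1.sum_le_tsum P (fun n _ => by positivity)
    have e3 := g1.sum_le_tsum P (fun n _ => by positivity)
    have e4 : C5 * (u + 1) ≤ C5 * (3 * L) := mul_le_mul_of_nonneg_left (by linarith) hC5.le
    have e5 : Real.sqrt (Real.pi / (1 / 2)) * GG R ≤
        Real.sqrt (Real.pi / (1 / 2)) * (2 * C2) * L := by
      rw [mul_assoc]
      refine mul_le_mul_of_nonneg_left (hGGup.trans ?_) (Real.sqrt_nonneg _)
      nlinarith
    have e6 : C4 * Real.exp (-u) * (∑ d ∈ SQ R, |lam R d|) ^ 2 ≤ C4 * E * L := by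
      rw [← hA, mul_assoc]
      have h1 := mul_le_mul_of_nonneg_left herr hC4.le
      have h2 : 0 ≤ C4 * E := by positivity
      nlinarith
    have e7 : 0 ≤ (Ca + Cc) * L := by positivity
    have e8 : (Ca + Cb + Cc) * L = (Ca + Cc) * L + (6 * C5 * L +
        2 * (Real.sqrt (Real.pi / (1 / 2)) * (2 * C2) * L + C4 * E * L)) := by
      rw [hCb]; ring
    rw [e8]
    linarith
  · -- (c)
    have h1 : ∀ n ∈ P, |xc B R n| ≤ 2 + A := by
      intro n hn
      rw [hx]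
      have hn1 : 1 ≤ n := by
        rw [hP] at hn
        exact (mem_PN.1 hn).1.1
      have h2 : |yc B n| ≤ 2 := by
        unfold yc
        split_ifs
        · exact yy_abs n
        · rw [abs_zero]; norm_num
      have h3 : |gg R n / Real.sqrt n| ≤ A := by
        rw [abs_div, abs_of_nonneg (Real.sqrt_nonneg _)]
        have h4 : 1 ≤ Real.sqrt n := by
          rw [Real.one_le_sqrt]
          exact_mod_cast hn1
        rw [div_le_iff₀ (by linarith)]
        have h5 := abs_gg_le R n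
        rw [← hA] at h5
        nlinarith
      exact (abs_sub _ _).trans (add_le_add h2 h3)
    have h2 : A ≤ C2 * (2 * Real.exp 1) * Real.exp (2 * L) := by
      have h3 : (1 + Real.log R) ^ 2 ≤ 2 * Real.exp (1 + L) := by
        have h4 := Real.pow_div_factorial_le_exp (1 + L) (by linarith) 2
        have h5 : ((Nat.factorial 2 : ℕ) : ℝ) = 2 := by norm_num [Nat.factorial]
        rw [h5, div_le_iff₀ (by norm_num)] at h4
        have h6 : (1 + Real.log R) ^ 2 ≤ (1 + L) ^ 2 := pow_le_pow_left₀ (by linarith) (by linarith) 2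
        linarith
      have h4 : (R : ℝ) ≤ Real.exp L := hRe.trans (Real.exp_le_exp.2 (by nlinarith))
      calc A ≤ C2 * R * (1 + Real.log R) ^ 2 := hG2
        _ ≤ C2 * Real.exp L * (2 * Real.exp (1 + L)) := by gcongr
        _ = C2 * (2 * (Real.exp L * Real.exp (1 + L))) := by ring
        _ = C2 * (2 * (Real.exp 1 * Real.exp (2 * L))) := by
            rw [← Real.exp_add, ← Real.exp_add]
            ring_nf
        _ = _ := by ring
    have h3 : 2 + A ≤ Cc * Real.exp (2 * L) := by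
      rw [hCc, add_mul]
      have : 1 ≤ Real.exp (2 * L) := Real.one_le_exp (by linarith)
      linarith
    have h4 : (P.card : ℝ) ≤ Real.exp (3 * L) := by
      rw [hP]
      refine (card_PN _ _).trans (Real.exp_le_exp.2 ?_)
      nlinarith
    calc ∑ n ∈ P, |xc B R n| ≤ ∑ _n ∈ P, (2 + A) := Finset.sum_le_sum h1
      _ = (P.card : ℝ) * (2 + A) := by rw [Finset.sum_const, nsmul_eq_mul]
      _ ≤ Real.exp (3 * L) * (Cc * Real.exp (2 * L)) :=
          mul_le_mul h4 h3 (by linarith) (Real.exp_pos _).le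
      _ = Cc * (Real.exp (3 * L) * Real.exp (2 * L)) := by ring
      _ = Cc * Real.exp (5 * L) := by
          rw [← Real.exp_add]
          ring_nf
      _ ≤ _ := by
          have : 0 ≤ (Ca + Cb) * Real.exp (5 * L) := by positivity
          linarith

end Pool.Agent.H440.OZ.LCoef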