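import Pool.Agent.H440.OZ.Stm

/-!
# Exponential sums with Gaussian weight by `k`-fold summation by parts (project OZ of helper440)
-/

set_option autoImplicit false

open Complex Filter Topology MeasureTheory Set

namespace Pool.Agent.H440.OZ.LExp

open _root_.H385 (ee)
open Pool.Agent.H440.OZ

/-! ### Differences -/

/-- backward difference -/
def Dl (f : ℝ → ℂ) (x : ℝ) : ℂ := f x - f (x - 1)

lemma Dl_deriv {F : ℕ → ℝ → ℂ} (hF : ∀ j x, 0 < x → HasDerivAt (F j) (F (j + 1) x) x) (k : ℕ) :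
    ∀ (j : ℕ) (x : ℝ), (k : ℝ) < x → HasDerivAt (Dl^[k] (F j)) (Dl^[k] (F (j + 1)) x) x := by
  induction k with
  | zero => exact fun j x hx => hF j x (by simpa using hx)
  | succ k ih =>
    intro j x hx
    push_cast at hx
    rw [Function.iterate_succ_apply', Function.iterate_succ_apply']
    have h1 := ih j x (by linarith)
    have h2 := (ih j (x - 1) (by linarith)).comp_sub_const x 1
    exact h1.sub h2

lemma Dl_bound {F : ℕ → ℝ → ℂ} (hF : ∀ j x, 0 < x → HasDerivAt (F j) (F (j + 1) x) x) (k : ℕ) :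
    ∀ (j : ℕ) (x M : ℝ), (k : ℝ) < x → (∀ t, x - k ≤ t → t ≤ x → ‖F (j + k) t‖ ≤ M) →
      ‖Dl^[k] (F j) x‖ ≤ M := by
  induction k with
  | zero =>
    intro j x M hx h
    exact h x (by simp) le_rfl
  | succ k ih =>
    intro j x M hx h
    push_cast at hx h
    rw [Function.iterate_succ_apply']
    have hb : ∀ t ∈ Icc (x - 1) x, ‖Dl^[k] (F (j + 1)) t‖ ≤ M := by
      intro t ht
      apply ih (j + 1) t M (by linarith [ht.1])
      intro t' h1 h2
      have h3 := h t' (by linarith [ht.1]) (by linarith [ht.2])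
      rwa [show j + 1 + k = j + (k + 1) by ring]
    have h1 := (convex_Icc (x - 1) x).norm_image_sub_le_of_norm_hasDerivWithin_le
      (f := Dl^[k] (F j)) (f' := Dl^[k] (F (j + 1))) (C := M)
      (fun t ht => (Dl_deriv hF k j t (by linarith [ht.1])).hasDerivWithinAt) hb
      (x := x - 1) (y := x) ⟨le_rfl, by linarith⟩ ⟨by linarith, le_rfl⟩
    have e : ‖x - (x - 1)‖ = 1 := by
      rw [show x - (x - 1) = (1 : ℝ) by ring, norm_one]
    rw [e, mul_one] at h1
    exact h1

/-- backward difference of a sequence -/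
def dl (b : ℕ → ℂ) : ℕ → ℂ
  | 0 => b 0
  | n + 1 => b (n + 1) - b n

lemma dl_summable {b : ℕ → ℂ} (hb : Summable b) : Summable (dl b) := by
  rw [← summable_nat_add_iff 1]
  exact ((summable_nat_add_iff 1).2 hb).sub hb

lemma dl_iter_summable {b : ℕ → ℂ} (hb : Summable b) (k : ℕ) : Summable (dl^[k] b) := by
  induction k with
  | zero => exact hb
  | succ k ih =>
    rw [Function.iterate_succ_apply']
    exact dl_summable ih

lemma summable_pow {b : ℕ → ℂ} (hb : Summable b) {z : ℂ} (hz : ‖z‖ = 1) :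
    Summable fun n => b n * z ^ n := by
  refine Summable.of_norm ?_
  have e : (fun n => ‖b n * z ^ n‖) = fun n => ‖b n‖ := by
    funext n
    rw [norm_mul, norm_pow, hz, one_pow, mul_one]
  rw [e]
  exact hb.norm

lemma parts_one {b : ℕ → ℂ} (hb : Summable b) {z : ℂ} (hz : ‖z‖ = 1) :
    (1 - z) * ∑' n, b n * z ^ n = ∑' n, dl b n * z ^ n := by
  have s1 := summable_pow hb hz
  have s2 := summable_pow (dl_summable hb) hz
  rw [s2.tsum_eq_zero_add]
  have e : (fun n => dl b (n + 1) * z ^ (n + 1)) =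
      fun n => b (n + 1) * z ^ (n + 1) - z * (b n * z ^ n) := by
    funext n
    show (b (n + 1) - b n) * z ^ (n + 1) = _
    ring
  rw [e, ((summable_nat_add_iff 1).2 s1).tsum_sub (s1.mul_left z), tsum_mul_left,
    sub_mul, one_mul]
  have h1 := s1.tsum_eq_zero_add
  have e2 : dl b 0 * z ^ 0 = b 0 * z ^ 0 := rfl
  rw [e2]
  linear_combination h1

lemma parts {b : ℕ → ℂ} (hb : Summable b) {z : ℂ} (hz : ‖z‖ = 1) (k : ℕ) :
    (1 - z) ^ k * ∑' n, b n * z ^ n = ∑' n, (dl^[k] b) n * z ^ n := by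
  induction k with
  | zero => simp
  | succ k ih =>
    rw [Function.iterate_succ_apply', ← parts_one (dl_iter_summable hb k) hz, ← ih]
    ring

lemma dl_iter_small {b : ℕ → ℂ} {M : ℝ} {n : ℕ} (k : ℕ) (h : ∀ m ≤ n, ‖b m‖ ≤ M) :
    ∀ m ≤ n, ‖(dl^[k] b) m‖ ≤ 2 ^ k * M := by
  induction k with
  | zero => simpa using h
  | succ k ih =>
    intro m hm
    rw [Function.iterate_succ_apply']
    have hM : 0 ≤ M := (norm_nonneg _).trans (h 0 (Nat.zero_le _))
    cases m with
    | zero =>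
      refine (ih 0 (Nat.zero_le _)).trans ?_
      rw [pow_succ]
      have : 0 ≤ 2 ^ k * M := by positivity
      linarith
    | succ m =>
      refine (norm_sub_le _ _).trans ?_
      have h1 := ih (m + 1) hm
      have h2 := ih m (by omega)
      rw [pow_succ]
      linarith

lemma dl_iter_eq {b : ℕ → ℂ} {f : ℝ → ℂ} (h : ∀ n : ℕ, 1 ≤ n → b n = f n) (k : ℕ) :
    ∀ n : ℕ, k + 1 ≤ n → (dl^[k] b) n = Dl^[k] f n := by
  induction k with
  | zero => exact fun n hn => h n hn
  | succ k ih =>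
    intro n hn
    rw [Function.iterate_succ_apply', Function.iterate_succ_apply']
    obtain ⟨m, rfl⟩ : ∃ m, n = m + 1 := ⟨n - 1, by omega⟩
    show (dl^[k] b) (m + 1) - (dl^[k] b) m = Dl^[k] f ((m + 1 : ℕ) : ℝ) -
      Dl^[k] f (((m + 1 : ℕ) : ℝ) - 1)
    rw [ih (m + 1) (by omega), ih m (by omega)]
    push_cast
    rw [add_sub_cancel_right]

/-! ### The derivatives -/

/-- the polynomial factors of the derivatives -/
noncomputable def qp (y : ℝ) : ℕ → Polynomial ℂ
  | 0 => 1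
  | k + 1 => -Polynomial.derivative (qp y k) +
      qp y k * (Polynomial.C (-((k : ℂ) + 1 / 2 + I * y)) + Polynomial.C (1 / 2) * Polynomial.X)

/-- the derivatives of the weight -/
noncomputable def FF (u y : ℝ) (k : ℕ) (x : ℝ) : ℂ :=
  (qp y k).eval ((u : ℂ) - (Real.log x : ℝ)) *
    cexp (-((k : ℂ) + 1 / 2 + I * y) * (Real.log x : ℝ) - ((u : ℂ) - (Real.log x : ℝ)) ^ 2 / 4)

lemma FF_deriv (u y : ℝ) (k : ℕ) (x : ℝ) (hx : 0 < x) :
    HasDerivAt (FF u y k) (FF u y (k + 1) x) x := by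
  have h0 : HasDerivAt (fun x : ℝ => ((Real.log x : ℝ) : ℂ)) ((x⁻¹ : ℝ) : ℂ) x :=
    (Real.hasDerivAt_log hx.ne').ofReal_comp
  have h1 : HasDerivAt (fun x : ℝ => (u : ℂ) - (Real.log x : ℝ)) (-((x⁻¹ : ℝ) : ℂ)) x :=
    h0.const_sub _
  have h2 := ((qp y k).hasDerivAt ((u : ℂ) - (Real.log x : ℝ))).comp x h1
  have h3 : HasDerivAt (fun x : ℝ => -((k : ℂ) + 1 / 2 + I * y) * (Real.log x : ℝ) -
      ((u : ℂ) - (Real.log x : ℝ)) ^ 2 / 4)
      (-((k : ℂ) + 1 / 2 + I * y) * ((x⁻¹ : ℝ) : ℂ) -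
        (2 * ((u : ℂ) - (Real.log x : ℝ)) * (-((x⁻¹ : ℝ) : ℂ))) / 4) x := by
    have h4 := (h1.pow 2).div_const 4
    refine (h0.const_mul _).sub (h4.congr_deriv ?_)
    ring
  have h5 := h2.mul h3.cexp
  refine h5.congr_deriv ?_
  unfold FF
  have hl : ((x⁻¹ : ℝ) : ℂ) = cexp (-(Real.log x : ℝ)) := by
    rw [← Complex.ofReal_neg, ← Complex.ofReal_exp, Real.exp_neg, Real.exp_log hx]
  have he : cexp (-(((k + 1 : ℕ) : ℂ) + 1 / 2 + I * y) * (Real.log x : ℝ) -
      ((u : ℂ) - (Real.log x : ℝ)) ^ 2 / 4) = ((x⁻¹ : ℝ) : ℂ) *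
      cexp (-((k : ℂ) + 1 / 2 + I * y) * (Real.log x : ℝ) -
        ((u : ℂ) - (Real.log x : ℝ)) ^ 2 / 4) := by
    rw [hl, ← Complex.exp_add]
    congr 1
    push_cast
    ring
  rw [he]
  show _ = (-Polynomial.derivative (qp y k) +
      qp y k * (Polynomial.C (-((k : ℂ) + 1 / 2 + I * y)) +
        Polynomial.C (1 / 2) * Polynomial.X)).eval ((u : ℂ) - (Real.log x : ℝ)) * _
  simp only [Polynomial.eval_add, Polynomial.eval_neg, Polynomial.eval_mul, Polynomial.eval_C,
    Polynomial.eval_X, Function.comp_apply]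
  ring

lemma qp_deg (y : ℝ) (k : ℕ) : (qp y k).natDegree ≤ k := by
  induction k with
  | zero => simp [qp]
  | succ k ih =>
    show (-Polynomial.derivative (qp y k) +
      qp y k * (Polynomial.C (-((k : ℂ) + 1 / 2 + I * y)) +
        Polynomial.C (1 / 2) * Polynomial.X)).natDegree ≤ k + 1
    refine (Polynomial.natDegree_add_le _ _).trans (max_le ?_ ?_)
    · rw [Polynomial.natDegree_neg]
      exact (Polynomial.natDegree_derivative_le _).trans (by omega)
    · refine (Polynomial.natDegree_mul_le).trans (add_le_add ih ?_)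
      refine (Polynomial.natDegree_add_le _ _).trans (max_le ?_ ?_)
      · exact (Polynomial.natDegree_C _).le.trans zero_le_one
      · exact (Polynomial.natDegree_C_mul_le _ _).trans Polynomial.natDegree_X_le

/-- constants -/
noncomputable def cc : ℕ → ℝ
  | 0 => 1
  | k + 1 => (2 * k + 2) * cc k

lemma cc_pos (k : ℕ) : 0 < cc k := by
  induction k with
  | zero => exact one_pos
  | succ k ih => exact mul_pos (by positivity) ih

lemma qp_coeff (y : ℝ) (k : ℕ) : ∀ i, ‖(qp y k).coeff i‖ ≤ cc k * (1 + |y|) ^ k := by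
  have hy := abs_nonneg y
  induction k with
  | zero =>
    intro i
    show ‖(1 : Polynomial ℂ).coeff i‖ ≤ 1 * (1 + |y|) ^ 0
    rw [Polynomial.coeff_one]
    split_ifs <;> simp
  | succ k ih =>
    intro i
    set N := cc k * (1 + |y|) ^ k with hN
    have hN0 : 0 ≤ N := (norm_nonneg _).trans (ih 0)
    have h1 : ‖(Polynomial.derivative (qp y k)).coeff i‖ ≤ k * N := by
      rw [Polynomial.coeff_derivative]
      by_cases h : i + 1 ≤ k
      · rw [norm_mul, mul_comm]
        have h2 : ‖(i : ℂ) + 1‖ ≤ k := by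
          have e : (i : ℂ) + 1 = ((i + 1 : ℕ) : ℂ) := by push_cast; ring
          rw [e, Complex.norm_natCast]
          exact_mod_cast h
        exact mul_le_mul h2 (ih _) (norm_nonneg _) (Nat.cast_nonneg _)
      · rw [Polynomial.coeff_eq_zero_of_natDegree_lt (by have := qp_deg y k; omega)]
        simp
        positivity
    have h2 : ‖(qp y k * (Polynomial.C (-((k : ℂ) + 1 / 2 + I * y)) +
        Polynomial.C (1 / 2) * Polynomial.X)).coeff i‖ ≤ (k + 1 + |y|) * N := by
      rw [mul_add, Polynomial.coeff_add, Polynomial.coeff_mul_C]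
      have h3 : ‖(qp y k).coeff i * -((k : ℂ) + 1 / 2 + I * y)‖ ≤ N * (k + 1 / 2 + |y|) := by
        rw [norm_mul, norm_neg]
        refine mul_le_mul (ih i) ?_ (norm_nonneg _) hN0
        refine (norm_add_le _ _).trans ?_
        refine add_le_add ?_ (le_of_eq (by simp))
        have e : (k : ℂ) + 1 / 2 = ((k + 1 / 2 : ℝ) : ℂ) := by push_cast; ring
        rw [e, Complex.norm_real, Real.norm_of_nonneg (by positivity)]
      have h4 : ‖(qp y k * (Polynomial.C (1 / 2) * Polynomial.X)).coeff i‖ ≤ N * (1 / 2) := by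
        rw [← mul_assoc]
        cases i with
        | zero =>
          rw [Polynomial.coeff_mul_X_zero, norm_zero]
          positivity
        | succ i =>
          rw [Polynomial.coeff_mul_X, Polynomial.coeff_mul_C, norm_mul]
          refine mul_le_mul (ih i) (by simp) (norm_nonneg _) hN0
      refine (norm_add_le _ _).trans ?_
      linarith
    show ‖(-Polynomial.derivative (qp y k) +
      qp y k * (Polynomial.C (-((k : ℂ) + 1 / 2 + I * y)) +
        Polynomial.C (1 / 2) * Polynomial.X)).coeff i‖ ≤ ((2 * k + 2) * cc k) * (1 + |y|) ^ (k + 1)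
    rw [Polynomial.coeff_add, Polynomial.coeff_neg]
    refine (norm_add_le _ _).trans ?_
    rw [norm_neg]
    have e : ((2 * k + 2) * cc k) * (1 + |y|) ^ (k + 1) = (2 * k + 2) * (1 + |y|) * N := by
      rw [hN, pow_succ]; ring
    rw [e]
    refine (add_le_add h1 h2).trans ?_
    have hk : (0:ℝ) ≤ k := Nat.cast_nonneg k
    have h5 : (k : ℝ) + (k + 1 + |y|) ≤ (2 * k + 2) * (1 + |y|) := by nlinarith
    have h6 := mul_le_mul_of_nonneg_right h5 hN0
    linarith

lemma qp_eval (y : ℝ) (k : ℕ) (X : ℝ) :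
    ‖(qp y k).eval (X : ℂ)‖ ≤ (k + 1) * cc k * (1 + |y|) ^ k * (1 + |X|) ^ k := by
  have hX := abs_nonneg X
  rw [Polynomial.eval_eq_sum_range' (Nat.lt_succ_of_le (qp_deg y k))]
  refine (norm_sum_le _ _).trans ?_
  have h1 : ∀ i ∈ Finset.range (k + 1), ‖(qp y k).coeff i * (X : ℂ) ^ i‖ ≤
      cc k * (1 + |y|) ^ k * (1 + |X|) ^ k := by
    intro i hi
    rw [Finset.mem_range] at hi
    rw [norm_mul, norm_pow, Complex.norm_real, Real.norm_eq_abs]
    refine mul_le_mul (qp_coeff y k i) ?_ (by positivity) ((norm_nonneg _).trans (qp_coeff y k i))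
    calc |X| ^ i ≤ (1 + |X|) ^ i := pow_le_pow_left₀ hX (by linarith) i
      _ ≤ (1 + |X|) ^ k := pow_le_pow_right₀ (by linarith) (by omega)
  refine (Finset.sum_le_sum h1).trans (le_of_eq ?_)
  rw [Finset.sum_const, Finset.card_range, nsmul_eq_mul]
  push_cast
  ring

/-- constants -/
noncomputable def KK (k : ℕ) : ℝ := (k + 1) * cc k * (k.factorial * Real.exp (1 + k ^ 2))

lemma KK_pos (k : ℕ) : 0 < KK k := by
  have := cc_pos k
  unfold KK
  positivity

lemma FF_bound {k : ℕ} (hk : 1 ≤ k) (u y : ℝ) {x : ℝ} :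
    ‖FF u y k x‖ ≤ KK k * (1 + |y|) ^ k * Real.exp (-((k : ℝ) - 1) * u) *
      Real.exp (-(3 / 2) * Real.log x) := by
  unfold FF
  set l := Real.log x with hl
  have hk1 : (1:ℝ) ≤ k := by exact_mod_cast hk
  have e1 : (u : ℂ) - (l : ℂ) = ((u - l : ℝ) : ℂ) := by push_cast; ring
  rw [norm_mul, e1, Complex.norm_exp]
  have e2 : (-((k : ℂ) + 1 / 2 + I * y) * (l : ℂ) - ((u - l : ℝ) : ℂ) ^ 2 / 4).re =
      -(k + 1 / 2) * l - (u - l) ^ 2 / 4 := by
    have e : -((k : ℂ) + 1 / 2 + I * y) * (l : ℂ) - ((u - l : ℝ) : ℂ) ^ 2 / 4 =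
        ((-(k + 1 / 2) * l - (u - l) ^ 2 / 4 : ℝ) : ℂ) + ((-(y * l) : ℝ) : ℂ) * I := by
      push_cast; ring
    rw [e, Complex.add_re, Complex.ofReal_re, Complex.mul_re, Complex.ofReal_re, Complex.I_re,
      Complex.ofReal_im]
    ring
  rw [e2]
  have hX := abs_nonneg (u - l)
  have h1 := qp_eval y k (u - l)
  have h2 : (1 + |u - l|) ^ k ≤ k.factorial * Real.exp (1 + |u - l|) := by
    have := Real.pow_div_factorial_le_exp (1 + |u - l|) (by positivity) k
    rw [div_le_iff₀ (by positivity)] at this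
    linarith
  have h3 : Real.exp (1 + |u - l|) * Real.exp (-(k + 1 / 2) * l - (u - l) ^ 2 / 4) ≤
      Real.exp (1 + k ^ 2) * Real.exp (-((k : ℝ) - 1) * u) * Real.exp (-(3 / 2) * l) := by
    rw [← Real.exp_add, ← Real.exp_add, ← Real.exp_add]
    apply Real.exp_le_exp.2
    have h4 : ((k : ℝ) - 1) * (u - l) ≤ ((k : ℝ) - 1) * |u - l| :=
      mul_le_mul_of_nonneg_left (le_abs_self _) (by linarith)
    have h5 : (u - l) ^ 2 = |u - l| ^ 2 := (sq_abs _).symm
    have h6 : k * |u - l| ≤ |u - l| ^ 2 / 4 + k ^ 2 := by nlinarith [sq_nonneg (|u - l| / 2 - k)]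
    nlinarith
  have hc := cc_pos k
  have hy := abs_nonneg y
  calc ‖(qp y k).eval ((u - l : ℝ) : ℂ)‖ * Real.exp (-(k + 1 / 2) * l - (u - l) ^ 2 / 4)
      ≤ ((k + 1) * cc k * (1 + |y|) ^ k * (k.factorial * Real.exp (1 + |u - l|))) *
        Real.exp (-(k + 1 / 2) * l - (u - l) ^ 2 / 4) := by
        apply mul_le_mul_of_nonneg_right _ (Real.exp_pos _).le
        exact h1.trans (mul_le_mul_of_nonneg_left h2 (by positivity))
    _ = ((k + 1) * cc k * (1 + |y|) ^ k * k.factorial) * (Real.exp (1 + |u - l|) *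
        Real.exp (-(k + 1 / 2) * l - (u - l) ^ 2 / 4)) := by ring
    _ ≤ ((k + 1) * cc k * (1 + |y|) ^ k * k.factorial) * (Real.exp (1 + k ^ 2) *
        Real.exp (-((k : ℝ) - 1) * u) * Real.exp (-(3 / 2) * l)) :=
        mul_le_mul_of_nonneg_left h3 (by positivity)
    _ = _ := by
        unfold KK
        ring

lemma Ew_zero (u y : ℝ) : Ew u y 0 = 0 := by
  unfold Ew
  simp

lemma Ew_eq (u y : ℝ) {n : ℕ} (hn : 1 ≤ n) : Ew u y n = FF u y 0 n := by
  unfold Ew FF qp
  rw [Polynomial.eval_one, one_mul]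
  have hn0 : (0:ℝ) < n := by exact_mod_cast hn
  have h1 : Real.sqrt n = Real.exp (Real.log n / 2) := by
    rw [Real.exp_half, Real.exp_log hn0]
  rw [h1, ← Real.exp_sub, Complex.ofReal_exp, ← Complex.exp_add]
  congr 1
  push_cast
  ring

/-- decay of the weights -/
lemma Ew_norm (u y : ℝ) (A : ℝ) {n : ℕ} (hn : 1 ≤ n) :
    ‖Ew u y n‖ ≤ Real.exp (-A * u + A ^ 2) * Real.exp ((A - 1 / 2) * Real.log n) := by
  unfold Ew
  have hn0 : (0:ℝ) < n := by exact_mod_cast hn
  have h1 : Real.sqrt n = Real.exp (Real.log n / 2) := by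
    rw [Real.exp_half, Real.exp_log hn0]
  have h2 : ‖cexp (-(I * y * Real.log n))‖ = 1 := by
    have e : -(I * y * Real.log n) = ((-(y * Real.log n) : ℝ) : ℂ) * I := by push_cast; ring
    rw [e, Complex.norm_exp_ofReal_mul_I]
  rw [norm_mul, h2, mul_one, Complex.norm_real, h1, ← Real.exp_sub,
    Real.norm_of_nonneg (Real.exp_pos _).le, ← Real.exp_add]
  apply Real.exp_le_exp.2
  nlinarith [sq_nonneg ((u - Real.log n) / 2 - A)]

lemma Ew_summable (u y : ℝ) : Summable (Ew u y) := by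
  rw [← summable_nat_add_iff 1]
  refine Summable.of_norm_bounded (g := fun n : ℕ => Real.exp (-(-2 + 1 / 2) * u + (-2 + 1 / 2) ^ 2) *
    (1 / ((n + 1 : ℕ) : ℝ) ^ 2)) ?_ ?_
  · exact (((summable_nat_add_iff 1).2 (Real.summable_one_div_nat_pow.2 one_lt_two))).mul_left _
  · intro n
    refine (Ew_norm u y (-2 + 1 / 2) (n := n + 1) (by omega)).trans (le_of_eq ?_)
    have hn0 : (0:ℝ) < ((n + 1 : ℕ) : ℝ) := by positivity
    have e : Real.exp ((-2 + 1 / 2 - 1 / 2) * Real.log ((n + 1 : ℕ) : ℝ)) =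
        1 / ((n + 1 : ℕ) : ℝ) ^ 2 := by
      have e3 : (-2 + 1 / 2 - 1 / 2) * Real.log ((n + 1 : ℕ) : ℝ) =
          -(((2 : ℕ) : ℝ) * Real.log ((n + 1 : ℕ) : ℝ)) := by push_cast; ring
      rw [e3, Real.exp_neg, ← Real.log_pow, Real.exp_log (by positivity), one_div]
    rw [e]

lemma ee_mul_nat (φ : ℝ) (n : ℕ) : ee (n * φ) = ee φ ^ n := by
  unfold _root_.H385.ee
  rw [← Complex.exp_nat_mul]
  congr 1
  push_cast
  ring

/-- the summable majorant -/
noncomputable def maj (k : ℕ) (n : ℕ) : ℝ :=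
  if n ≤ k then 2 ^ k * (Real.exp (((k : ℝ) - 1) ^ 2) * Real.exp ((k : ℝ) * Real.log (k + 1)))
  else KK k * (1 / ((n - k : ℕ) : ℝ) ^ (3 / 2 : ℝ))

lemma maj_summable (k : ℕ) : Summable (maj k) := by
  rw [← summable_nat_add_iff (k + 1)]
  have e : (fun n => maj k (n + (k + 1))) =
      fun n : ℕ => KK k * (1 / ((n + 1 : ℕ) : ℝ) ^ (3 / 2 : ℝ)) := by
    funext n
    unfold maj
    rw [if_neg (by omega)]
    have : n + (k + 1) - k = n + 1 := by omega
    rw [this]
  rw [e]
  exact (((summable_nat_add_iff 1).2 (Real.summable_one_div_nat_rpow.2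
    (by norm_num : (1:ℝ) < 3 / 2)))).mul_left _

theorem exp_main : S_exp := by
  intro k hk
  have hk1 : (1:ℝ) ≤ k := by exact_mod_cast hk
  have hmaj0 : ∀ n, 0 ≤ maj k n := by
    intro n
    unfold maj
    have := KK_pos k
    split_ifs <;> positivity
  refine ⟨(∑' n, maj k n) + 1, by have h : 0 ≤ ∑' n, maj k n := tsum_nonneg hmaj0; linarith, ?_⟩
  intro u y φ hu hφ
  set z := ee φ with hz
  have hz1 : ‖z‖ = 1 := by
    rw [hz]
    unfold _root_.H385.ee
    have e : 2 * Real.pi * I * φ = ((2 * Real.pi * φ : ℝ) : ℂ) * I := by push_cast; ring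
    rw [e, Complex.norm_exp_ofReal_mul_I]
  have hzn : 0 < ‖1 - z‖ := norm_pos_iff.2 (sub_ne_zero.2 (Ne.symm hφ))
  have e1 : ∑' n : ℕ, Ew u y n * ee (n * φ) = ∑' n : ℕ, Ew u y n * z ^ n := by
    refine tsum_congr fun n => ?_
    rw [ee_mul_nat]
  rw [e1, le_div_iff₀ (by positivity), mul_comm, ← norm_pow, ← norm_mul,
    parts (Ew_summable u y) hz1 k]
  set N := (1 + |y|) ^ k * Real.exp (-((k : ℝ) - 1) * u) with hN
  have hy := abs_nonneg y
  have hN0 : 0 ≤ N := by positivity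
  have hterm : ∀ n, ‖(dl^[k] (Ew u y)) n * z ^ n‖ ≤ N * maj k n := by
    intro n
    rw [norm_mul, norm_pow, hz1, one_pow, mul_one]
    unfold maj
    split_ifs with h
    · have h1 : ∀ m ≤ n, ‖Ew u y m‖ ≤ Real.exp (-((k : ℝ) - 1) * u) *
          (Real.exp (((k : ℝ) - 1) ^ 2) * Real.exp ((k : ℝ) * Real.log (k + 1))) := by
        intro m hm
        rcases Nat.eq_zero_or_pos m with h0 | h0
        · rw [h0, Ew_zero, norm_zero]
          positivity
        · refine (Ew_norm u y ((k : ℝ) - 1) h0).trans ?_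
          rw [Real.exp_add, mul_assoc]
          have hm0 : (0:ℝ) < m := by exact_mod_cast h0
          have hm1 : (1:ℝ) ≤ m := by exact_mod_cast h0
          have hmk : (m : ℝ) ≤ k + 1 := by
            have : m ≤ k + 1 := by omega
            exact_mod_cast this
          have h2 : ((k : ℝ) - 1 - 1 / 2) * Real.log m ≤ (k : ℝ) * Real.log (k + 1) := by
            have h3 : 0 ≤ Real.log m := Real.log_nonneg hm1
            have h4 : Real.log m ≤ Real.log (k + 1) := Real.log_le_log hm0 hmk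
            nlinarith
          have h5 := Real.exp_le_exp.2 h2
          gcongr
      refine (dl_iter_small k h1 n le_rfl).trans ?_
      rw [hN]
      have h2 : 1 ≤ (1 + |y|) ^ k := one_le_pow₀ (by linarith)
      have h3 : 0 ≤ Real.exp (-((k : ℝ) - 1) * u) * (2 ^ k * (Real.exp (((k : ℝ) - 1) ^ 2) *
          Real.exp ((k : ℝ) * Real.log (k + 1)))) := by positivity
      calc 2 ^ k * (Real.exp (-((k : ℝ) - 1) * u) * (Real.exp (((k : ℝ) - 1) ^ 2) *
            Real.exp ((k : ℝ) * Real.log (k + 1))))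
          = 1 * (Real.exp (-((k : ℝ) - 1) * u) * (2 ^ k * (Real.exp (((k : ℝ) - 1) ^ 2) *
            Real.exp ((k : ℝ) * Real.log (k + 1))))) := by ring
        _ ≤ (1 + |y|) ^ k * (Real.exp (-((k : ℝ) - 1) * u) * (2 ^ k *
            (Real.exp (((k : ℝ) - 1) ^ 2) * Real.exp ((k : ℝ) * Real.log (k + 1))))) :=
            mul_le_mul_of_nonneg_right h2 h3
        _ = _ := by ring
    · push Not at h
      have hnk : (1:ℝ) ≤ ((n - k : ℕ) : ℝ) := by
        have : 1 ≤ n - k := by omega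
        exact_mod_cast this
      have hnk' : ((n - k : ℕ) : ℝ) = (n : ℝ) - k := by
        rw [Nat.cast_sub h.le]
      rw [dl_iter_eq (f := FF u y 0) (fun m hm => Ew_eq u y hm) k n h]
      have h1 := Dl_bound (F := FF u y) (fun j x hx => FF_deriv u y j x hx) k 0 n
        (KK k * (1 + |y|) ^ k * Real.exp (-((k : ℝ) - 1) * u) *
          Real.exp (-(3 / 2) * Real.log ((n - k : ℕ) : ℝ))) (by exact_mod_cast h) (by
          intro t ht1 ht2
          rw [zero_add]
          refine (FF_bound hk u y).trans ?_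
          have h2 : Real.log ((n - k : ℕ) : ℝ) ≤ Real.log t :=
            Real.log_le_log (by linarith) (by rw [hnk']; exact ht1)
          have h3 : Real.exp (-(3 / 2) * Real.log t) ≤
              Real.exp (-(3 / 2) * Real.log ((n - k : ℕ) : ℝ)) :=
            Real.exp_le_exp.2 (by linarith)
          have := KK_pos k
          gcongr)
      refine h1.trans (le_of_eq ?_)
      have h4 : Real.exp (-(3 / 2) * Real.log ((n - k : ℕ) : ℝ)) =
          1 / ((n - k : ℕ) : ℝ) ^ (3 / 2 : ℝ) := by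
        rw [Real.rpow_def_of_pos (by linarith), one_div, ← Real.exp_neg]
        congr 1
        ring
      rw [h4, hN]
      ring
  have hs : Summable fun n => N * maj k n := (maj_summable k).mul_left N
  refine (tsum_of_norm_bounded hs.hasSum hterm).trans ?_
  rw [tsum_mul_left]
  have h1 : N * ∑' n, maj k n ≤ N * ((∑' n, maj k n) + 1) :=
    mul_le_mul_of_nonneg_left (by linarith) hN0
  refine h1.trans (le_of_eq ?_)
  rw [hN]
  ring

end Pool.Agent.H440.OZ.LExp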