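import Pool.Agent.H440.OZ.Stm3
import Pool.Graph.R_pool_sql_team_seeded_63374d34.N880.QF.Rest
import Pool.Graph.R_pool_sql_team_seeded_63374d34.N880.HD.Ms

/-! # Step A4 of project OZ: the mean square beyond `(1+s)L` -/

set_option autoImplicit false

open Complex Filter Topology MeasureTheory Set

namespace Pool.Agent.H440.OZ.LHigh

open H385 (c0 primFam bt wt Rw WW SS ee hP IX primSet primFam_eq wt_nonneg bt_sq_int wt_sq_int
  bt_cont)
open Pool.Agent.N7.MainC (inner)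
open Pool.Agent.H440.OZ
open Pool.Agent.N880.QF (PP mem_PP yy yy_sq yy_abs card_PP sq_add_le)

/-! ### the weight `J` -/

lemma h8 : (0 : ℝ) < 1 / 8 := by norm_num

/-- the integral of the Gaussian of variance 4 -/
noncomputable def JJ (T t : ℝ) : ℝ := ∫ v in T..(2 * T), Real.exp (-(t - v) ^ 2 / 8)

lemma JJ_eq (T t : ℝ) : JJ T t = ∫ v in T..(2 * T), Real.exp (-(1 / 8) * (v - t) ^ 2) := by
  unfold JJ
  congr 1
  ext v
  congr 1
  ring

lemma JJ_nonneg (T t : ℝ) (hT : 0 ≤ T) : 0 ≤ JJ T t := by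
  rw [JJ_eq]
  exact H385.Cut.interval_nonneg (fun τ => (Real.exp_pos _).le) (by linarith)

lemma JJ_le (T t : ℝ) (hT : 0 ≤ T) : JJ T t ≤ Real.sqrt (Real.pi / (1 / 8)) := by
  rw [JJ_eq]
  have h2 := H385.Cut.interval_le (H385.Cut.int_gauss_shift h8 t)
    (fun τ => (Real.exp_pos _).le) (show T ≤ 2 * T by linarith)
  rwa [H385.Cut.integral_gauss_shift] at h2

lemma JJ_cont (T : ℝ) : Continuous (JJ T) := by
  unfold JJ
  apply intervalIntegral.continuous_parametric_intervalIntegral_of_continuous'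
  simp only [Function.uncurry_def]
  fun_prop

lemma prod_int (T : ℝ) : Integrable (fun p : ℝ × ℝ => Real.exp (-(1 / 8) * (p.2 - p.1) ^ 2))
    ((volume : Measure ℝ).prod (volume.restrict (Ioc T (2 * T)))) := by
  have hc : Continuous (fun p : ℝ × ℝ => Real.exp (-(1 / 8) * (p.2 - p.1) ^ 2)) := by fun_prop
  rw [integrable_prod_iff' hc.aestronglyMeasurable]
  have e : ∀ y : ℝ, (fun x : ℝ => Real.exp (-(1 / 8) * (y - x) ^ 2)) =
      (fun x : ℝ => Real.exp (-(1 / 8) * (x - y) ^ 2)) := by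
    intro y
    ext x
    congr 2
    ring
  refine ⟨Eventually.of_forall (fun y => ?_), ?_⟩
  · show Integrable (fun x : ℝ => Real.exp (-(1 / 8) * (y - x) ^ 2))
    rw [e]
    exact H385.Cut.int_gauss_shift h8 y
  · have : (fun y : ℝ => ∫ x : ℝ, ‖Real.exp (-(1 / 8) * (y - x) ^ 2)‖) =
        fun _ => Real.sqrt (Real.pi / (1 / 8)) := by
      ext y
      simp only [Real.norm_eq_abs, Real.abs_exp]
      rw [e, H385.Cut.integral_gauss_shift]
    show Integrable (fun y : ℝ => ∫ x : ℝ, ‖Real.exp (-(1 / 8) * (y - x) ^ 2)‖) _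
    rw [this]
    exact integrable_const _

lemma JJ_fun (T : ℝ) (hT : 0 ≤ T) : JJ T = fun t =>
    ∫ τ in Ioc T (2 * T), Real.exp (-(1 / 8) * (τ - t) ^ 2) := by
  ext t
  rw [JJ_eq, intervalIntegral.integral_of_le (by linarith)]

lemma JJ_integrable (T : ℝ) (hT : 0 ≤ T) : Integrable (JJ T) := by
  have h := (prod_int T).integral_prod_left
  rw [JJ_fun T hT]
  exact h

lemma JJ_integral (T : ℝ) (hT : 0 ≤ T) : ∫ t, JJ T t = Real.sqrt (Real.pi / (1 / 8)) * T := by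
  rw [JJ_fun T hT,
    integral_integral_swap (f := fun t τ : ℝ => Real.exp (-(1 / 8) * (τ - t) ^ 2)) (prod_int T)]
  have : ∀ τ : ℝ, ∫ t : ℝ, Real.exp (-(1 / 8) * (τ - t) ^ 2) = Real.sqrt (Real.pi / (1 / 8)) := by
    intro τ
    rw [← H385.Cut.integral_gauss_shift (1 / 8) τ]
    congr 1
    ext t
    congr 2
    ring
  simp only [this]
  rw [setIntegral_const, smul_eq_mul, Real.volume_real_Ioc_of_le (by linarith)]
  ring

lemma JJ_sq (T : ℝ) (hT : 0 ≤ T) : Integrable (fun t => JJ T t ^ 2) ∧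
    ∫ t : ℝ, JJ T t ^ 2 ≤ (8 * Real.pi) * T := by
  have hpi := Real.pi_pos
  have hs : Real.sqrt (Real.pi / (1 / 8)) * Real.sqrt (Real.pi / (1 / 8)) = 8 * Real.pi := by
    rw [Real.mul_self_sqrt (by positivity)]
    ring
  have hle : ∀ t, JJ T t ^ 2 ≤ Real.sqrt (Real.pi / (1 / 8)) * JJ T t := by
    intro t
    rw [sq]
    exact mul_le_mul_of_nonneg_right (JJ_le T t hT) (JJ_nonneg T t hT)
  have hi : Integrable (fun t => JJ T t ^ 2) := by
    refine Integrable.mono' ((JJ_integrable T hT).const_mul (Real.sqrt (Real.pi / (1 / 8))))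
      ((JJ_cont T).pow 2).aestronglyMeasurable (Eventually.of_forall fun t => ?_)
    rw [Real.norm_of_nonneg (sq_nonneg _)]
    exact hle t
  refine ⟨hi, ?_⟩
  have := integral_mono hi ((JJ_integrable T hT).const_mul (Real.sqrt (Real.pi / (1 / 8)))) hle
  rw [integral_const_mul, JJ_integral T hT] at this
  refine this.trans (le_of_eq ?_)
  rw [← mul_assoc, hs]

/-! ### the family -/

lemma fam_step (X Y : ℕ) (f g : (q : ℕ) → DirichletCharacter ℂ q → ℂ) (e δ : ℝ) (hδ : 0 < δ)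
    (h : ∀ q χ, ‖f q χ - g q χ‖ ≤ e) :
    primFam X Y (fun q χ => ‖f q χ‖ ^ 2) ≤
      (1 + δ) * primFam X Y (fun q χ => ‖g q χ‖ ^ 2) + (1 + 1 / δ) * e ^ 2 * WW X Y := by
  unfold WW
  rw [primFam_eq, primFam_eq, primFam_eq, Finset.mul_sum, Finset.mul_sum,
    ← Finset.sum_add_distrib]
  refine Finset.sum_le_sum fun i _ => ?_
  have h1 : ‖f i.1 i.2‖ ≤ ‖g i.1 i.2‖ + e := by
    have h3 := norm_le_norm_add_norm_sub' (f i.1 i.2) (g i.1 i.2)
    linarith [h i.1 i.2]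
  have h2 := (pow_le_pow_left₀ (norm_nonneg _) h1 2).trans (sq_add_le hδ _ _)
  have h4 : (0 : ℝ) ≤ 1 / (i.1 : ℝ) ^ 2 := by positivity
  calc _ ≤ 1 / (i.1 : ℝ) ^ 2 * ((1 + δ) * ‖g i.1 i.2‖ ^ 2 + (1 + 1 / δ) * e ^ 2) :=
        mul_le_mul_of_nonneg_left h2 h4
    _ = _ := by ring

lemma PP_eq (B : ℕ) (s L u : ℝ) : PP B (s / 8) (2 * L) u =
    (PN u (s / 4 * L)).filter (fun n => n.Prime ∧ B < n) := by
  have e : s / 8 * (2 * L) = s / 4 * L := by ring
  unfold PP PN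
  rw [e]
  ext p
  simp only [Finset.mem_filter, Finset.mem_range, Finset.mem_Icc]
  constructor
  · rintro ⟨h1, h2, h3, h4⟩
    exact ⟨⟨⟨h2.one_lt.le, by omega⟩, h4⟩, h2, h3⟩
  · rintro ⟨⟨⟨h1, h2⟩, h3⟩, h4, h5⟩
    exact ⟨by omega, h4, h5, h3⟩

/-- the coefficients of the primes -/
noncomputable def bb (B : ℕ) (s L u T t : ℝ) (n : ℕ) : ℂ :=
  if n ∈ PP B (s / 8) (2 * L) u then ((yy n : ℝ) : ℂ) * bt T u t (Real.log n) else 0

/-- the range of summation -/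
noncomputable def NNn (s L u : ℝ) : ℕ := ⌊Real.exp (u + s / 8 * (2 * L))⌋₊

lemma PP_sub (B : ℕ) (s L u : ℝ) : PP B (s / 8) (2 * L) u ⊆ Finset.Icc 1 (NNn s L u) := by
  intro p hp
  have h1 := (mem_PP hp).1
  unfold PP at hp
  rw [Finset.mem_filter, Finset.mem_range] at hp
  rw [Finset.mem_Icc]
  refine ⟨h1.one_lt.le, ?_⟩
  unfold NNn
  omega

lemma sum_bb (B : ℕ) (s L u T t : ℝ) (f : ℕ → ℂ) :
    ∑ n ∈ Finset.Icc 1 (NNn s L u), bb B s L u T t n * f n =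
      ∑ p ∈ PP B (s / 8) (2 * L) u, ((yy p : ℝ) : ℂ) * bt T u t (Real.log p) * f p := by
  have h1 : ∀ n ∈ Finset.Icc 1 (NNn s L u), bb B s L u T t n * f n =
      if n ∈ PP B (s / 8) (2 * L) u then ((yy n : ℝ) : ℂ) * bt T u t (Real.log n) * f n else 0 := by
    intro n _
    unfold bb
    split_ifs <;> simp
  rw [Finset.sum_congr rfl h1, Finset.sum_ite_mem, Finset.inter_eq_right.2 (PP_sub B s L u)]

lemma sum_bb_sq (B : ℕ) (s L u T t : ℝ) :
    ∑ n ∈ Finset.Icc 1 (NNn s L u), ‖bb B s L u T t n‖ ^ 2 =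
      ∑ p ∈ PP B (s / 8) (2 * L) u, yy p ^ 2 * ‖bt T u t (Real.log p)‖ ^ 2 := by
  have h1 : ∀ n ∈ Finset.Icc 1 (NNn s L u), ‖bb B s L u T t n‖ ^ 2 =
      if n ∈ PP B (s / 8) (2 * L) u then yy n ^ 2 * ‖bt T u t (Real.log n)‖ ^ 2 else 0 := by
    intro n _
    unfold bb
    split_ifs
    · rw [norm_mul, mul_pow, Complex.norm_real, Real.norm_eq_abs, sq_abs]
    · simp
  rw [Finset.sum_congr rfl h1, Finset.sum_ite_mem, Finset.inter_eq_right.2 (PP_sub B s L u)]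

lemma SS_eq (B R : ℕ) (s L u T t θ : ℝ) : SS (NNn s L u) (bb B s L u T t) θ =
    ∑ n ∈ PN u (s / 4 * L), ee (n * θ) * ((xc B R n : ℝ) : ℂ) * bt T u t (Real.log n) +
    ∑ n ∈ PN u (s / 4 * L), ee (n * θ) * ((gg R n / Real.sqrt n : ℝ) : ℂ) *
      bt T u t (Real.log n) := by
  unfold SS
  rw [sum_bb B s L u T t (fun n => ee (n * θ)), PP_eq, Finset.sum_filter,
    ← Finset.sum_add_distrib]
  refine Finset.sum_congr rfl fun n _ => ?_
  unfold xc
  split_ifs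
  · push_cast
    ring
  · push_cast
    ring

lemma aw_nonneg (P : ℕ) (i : ℕ × ℕ) : 0 ≤ aw P i := by
  unfold aw
  refine div_nonneg (div_nonneg (H385.Flat.hP_nonneg _ _) (by positivity)) ?_
  refine Finset.prod_nonneg fun p hp => ?_
  have := H385.Flat.kp_one_le p (Nat.prime_of_mem_primeFactors hp)
  linarith

/-! ### numerics -/

lemma num_high {s Ci L u I1 W T Tp C1 C2 C3 CR Cb C5 Cw CJ X1 X2 X3 pp E16 : ℝ} (hs : 0 < s)
    (hs1 : s ≤ 1 / 2) (hCi : 0 < Ci) (hL : 1 ≤ L) (hu : (1 + s) * L ≤ u) (huL : u ≤ 2 * L)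
    (hI0 : 0 ≤ I1) (hI1 : I1 ≤ Ci * (u + 1)) (hW : 0 ≤ W) (hT : 1 ≤ T) (hLT : L ^ 2 ≤ T)
    (hTp0 : 0 ≤ Tp) (hTp : Tp ≤ T) (hC1 : 0 < C1) (hC2 : 0 < C2)
    (hCR : 0 < CR) (hCb : 0 < Cb) (hC5 : 0 < C5) (hCw : 0 < Cw) (hCJ : 0 < CJ)
    (hX0 : 0 ≤ X1) (hp1 : 0 ≤ pp) (hp2 : pp ≤ 2)
    (hX1 : X1 ≤ I1 - pp * (u - (1 + s) * L) + s * L + C2) (hX2 : X2 ≤ C2 * L)
    (hX3 : E16 * X3 ^ 2 ≤ C2 ^ 2 * Real.exp 400) :
    (1 + s) * ((1 + s) * ((1 + s) * ((1 + s) * W * Tp * X1 + C1 * W * (T / L) * X2 +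
        C1 * W * T * E16 * X3 ^ 2) + (1 + 1 / s) * (C3 ^ 2 * (CJ * T)) * (10 * W)) +
        s * W * (Tp * I1 + Cb * L * (C5 * (u + 1)))) + (1 + 1 / s) * CR ^ 2 * W * (T + Cw) ≤
      W * Tp * (I1 - pp * (u - L)) + ((12 + 33 * Ci) * s * L + (6 * C2 + 4 * C1 * C2 +
        4 * C1 * (C2 ^ 2 * Real.exp 400) + 30 * (1 + 1 / s) * (C3 ^ 2 * CJ) + 3 * Cb * C5 +
        (1 + 1 / s) * CR ^ 2 * (1 + Cw))) * W * T := by
  have hL0 : 0 < L := by linarith
  have hT0 : 0 < T := by linarith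
  have hWT : 0 ≤ W * T := by positivity
  have hu1 : u + 1 ≤ 3 * L := by linarith
  have hIL : I1 ≤ 3 * Ci * L := by
    have := mul_le_mul_of_nonneg_left hu1 hCi.le
    linarith
  have hsL : 0 ≤ s * L := by positivity
  have h1s : 0 < 1 + 1 / s := by positivity
  -- a
  obtain ⟨Bk, hBk⟩ : ∃ Bk, Bk = I1 - pp * (u - (1 + s) * L) + s * L + C2 := ⟨_, rfl⟩
  rw [← hBk] at hX1
  have hBk0 : 0 ≤ Bk := hX0.trans hX1
  have hpu : 0 ≤ pp * (u - (1 + s) * L) := mul_nonneg hp1 (by linarith)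
  have hB1 : Bk ≤ (3 * Ci + 1) * L + C2 := by
    rw [hBk]
    have : s * L ≤ 1 * L := mul_le_mul_of_nonneg_right (by linarith) hL0.le
    linarith
  have hB2 : Bk ≤ I1 - pp * (u - L) + 3 * (s * L) + C2 := by
    rw [hBk]
    have : pp * (s * L) ≤ 2 * (s * L) := mul_le_mul_of_nonneg_right hp2 hsL
    linarith [this]
  have h4 : (1 + s) * ((1 + s) * ((1 + s) * (1 + s))) ≤ 1 + 9 * s := by
    have e1 : s ^ 2 ≤ 1 / 2 * s := by nlinarith
    have e2 : s ^ 3 ≤ 1 / 4 * s := by nlinarith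
    have e3 : s ^ 4 ≤ 1 / 8 * s := by nlinarith
    nlinarith
  have ha : (1 + s) * ((1 + s) * ((1 + s) * ((1 + s) * W * Tp * X1))) ≤
      W * Tp * (I1 - pp * (u - L)) + ((12 + 27 * Ci) * s * L + 6 * C2) * (W * T) := by
    have e0 : 0 ≤ W * Tp := by positivity
    have e1 : (1 + s) * ((1 + s) * ((1 + s) * ((1 + s) * W * Tp * X1))) ≤
        (1 + 9 * s) * Bk * (W * Tp) := by
      calc _ = ((1 + s) * ((1 + s) * ((1 + s) * (1 + s)))) * X1 * (W * Tp) := by ring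
        _ ≤ _ := by
          refine mul_le_mul_of_nonneg_right ?_ e0
          exact mul_le_mul h4 hX1 hX0 (by positivity)
    have e2 : (1 + 9 * s) * Bk ≤ (I1 - pp * (u - L)) + ((12 + 27 * Ci) * s * L + 6 * C2) := by
      have e3 : 9 * s * Bk ≤ 9 * s * ((3 * Ci + 1) * L + C2) :=
        mul_le_mul_of_nonneg_left hB1 (by positivity)
      have e4 : 9 * s * C2 ≤ 5 * C2 := mul_le_mul_of_nonneg_right (by linarith) hC2.le
      nlinarith
    have e5 : ((12 + 27 * Ci) * s * L + 6 * C2) * (W * Tp) ≤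
        ((12 + 27 * Ci) * s * L + 6 * C2) * (W * T) :=
      mul_le_mul_of_nonneg_left (mul_le_mul_of_nonneg_left hTp hW) (by positivity)
    have e6 := mul_le_mul_of_nonneg_right e2 e0
    rw [add_mul] at e6
    linarith
  have h3 : (1 + s) * ((1 + s) * (1 + s)) ≤ 4 := by nlinarith [sq_nonneg s, mul_nonneg hs.le hs.le]
  have h2 : (1 + s) * (1 + s) ≤ 3 := by nlinarith
  have h3' : 0 ≤ (1 + s) * ((1 + s) * (1 + s)) := by positivity
  -- b
  have hb : (1 + s) * ((1 + s) * ((1 + s) * (C1 * W * (T / L) * X2))) ≤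
      (4 * C1 * C2) * (W * T) := by
    have e1 : C1 * W * (T / L) * X2 ≤ C1 * C2 * (W * T) := by
      calc _ ≤ C1 * W * (T / L) * (C2 * L) := mul_le_mul_of_nonneg_left hX2 (by positivity)
        _ = _ := by field_simp
    calc _ = ((1 + s) * ((1 + s) * (1 + s))) * (C1 * W * (T / L) * X2) := by ring
      _ ≤ ((1 + s) * ((1 + s) * (1 + s))) * (C1 * C2 * (W * T)) :=
          mul_le_mul_of_nonneg_left e1 h3'
      _ ≤ 4 * (C1 * C2 * (W * T)) := mul_le_mul_of_nonneg_right h3 (by positivity)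
      _ = _ := by ring
  -- c
  have hc : (1 + s) * ((1 + s) * ((1 + s) * (C1 * W * T * E16 * X3 ^ 2))) ≤
      (4 * C1 * (C2 ^ 2 * Real.exp 400)) * (W * T) := by
    have e1 : C1 * W * T * E16 * X3 ^ 2 ≤ C1 * (C2 ^ 2 * Real.exp 400) * (W * T) := by
      calc _ = C1 * (W * T) * (E16 * X3 ^ 2) := by ring
        _ ≤ C1 * (W * T) * (C2 ^ 2 * Real.exp 400) :=
            mul_le_mul_of_nonneg_left hX3 (by positivity)
        _ = _ := by ring
    calc _ = ((1 + s) * ((1 + s) * (1 + s))) * (C1 * W * T * E16 * X3 ^ 2) := by ring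
      _ ≤ ((1 + s) * ((1 + s) * (1 + s))) * (C1 * (C2 ^ 2 * Real.exp 400) * (W * T)) :=
          mul_le_mul_of_nonneg_left e1 h3'
      _ ≤ 4 * (C1 * (C2 ^ 2 * Real.exp 400) * (W * T)) :=
          mul_le_mul_of_nonneg_right h3 (by positivity)
      _ = _ := by ring
  -- d
  have hd : (1 + s) * ((1 + s) * ((1 + 1 / s) * (C3 ^ 2 * (CJ * T)) * (10 * W))) ≤
      (30 * (1 + 1 / s) * (C3 ^ 2 * CJ)) * (W * T) := by
    calc _ = ((1 + s) * (1 + s)) * (10 * (1 + 1 / s) * (C3 ^ 2 * CJ) * (W * T)) := by ring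
      _ ≤ 3 * (10 * (1 + 1 / s) * (C3 ^ 2 * CJ) * (W * T)) :=
          mul_le_mul_of_nonneg_right h2 (by positivity)
      _ = _ := by ring
  -- e
  have he : (1 + s) * (s * W * (Tp * I1 + Cb * L * (C5 * (u + 1)))) ≤
      (6 * Ci * s * L + 3 * Cb * C5) * (W * T) := by
    have e1 : Tp * I1 ≤ T * (3 * Ci * L) := mul_le_mul hTp hIL hI0 hT0.le
    have e2 : Cb * L * (C5 * (u + 1)) ≤ 3 * Cb * C5 * T := by
      calc _ = Cb * C5 * (L * (u + 1)) := by ring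
        _ ≤ Cb * C5 * (L * (3 * L)) := by gcongr
        _ = 3 * (Cb * C5) * L ^ 2 := by ring
        _ ≤ 3 * (Cb * C5) * T := mul_le_mul_of_nonneg_left hLT (by positivity)
        _ = _ := by ring
    have e3 : Tp * I1 + Cb * L * (C5 * (u + 1)) ≤ (3 * Ci * L + 3 * Cb * C5) * T := by
      linarith
    calc _ = (1 + s) * s * (W * (Tp * I1 + Cb * L * (C5 * (u + 1)))) := by ring
      _ ≤ (1 + s) * s * (W * ((3 * Ci * L + 3 * Cb * C5) * T)) := by gcongr
      _ ≤ 2 * s * (W * ((3 * Ci * L + 3 * Cb * C5) * T)) := by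
          gcongr
          linarith
      _ = 6 * Ci * s * L * (W * T) + 2 * s * (3 * Cb * C5 * (W * T)) := by ring
      _ ≤ 6 * Ci * s * L * (W * T) + 1 * (3 * Cb * C5 * (W * T)) := by
          gcongr
          linarith
      _ = _ := by ring
  -- f
  have hf : (1 + 1 / s) * CR ^ 2 * W * (T + Cw) ≤ ((1 + 1 / s) * CR ^ 2 * (1 + Cw)) * (W * T) := by
    have e1 : T + Cw ≤ (1 + Cw) * T := by nlinarith
    calc _ ≤ (1 + 1 / s) * CR ^ 2 * W * ((1 + Cw) * T) := by gcongr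
      _ = _ := by ring
  have key : (1 + s) * ((1 + s) * ((1 + s) * ((1 + s) * W * Tp * X1 + C1 * W * (T / L) * X2 +
        C1 * W * T * E16 * X3 ^ 2) + (1 + 1 / s) * (C3 ^ 2 * (CJ * T)) * (10 * W)) +
        s * W * (Tp * I1 + Cb * L * (C5 * (u + 1)))) + (1 + 1 / s) * CR ^ 2 * W * (T + Cw) =
      (1 + s) * ((1 + s) * ((1 + s) * ((1 + s) * W * Tp * X1))) +
      (1 + s) * ((1 + s) * ((1 + s) * (C1 * W * (T / L) * X2))) +
      (1 + s) * ((1 + s) * ((1 + s) * (C1 * W * T * E16 * X3 ^ 2))) +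
      (1 + s) * ((1 + s) * ((1 + 1 / s) * (C3 ^ 2 * (CJ * T)) * (10 * W))) +
      (1 + s) * (s * W * (Tp * I1 + Cb * L * (C5 * (u + 1)))) +
      (1 + 1 / s) * CR ^ 2 * W * (T + Cw) := by ring
  rw [key]
  linarith

theorem high_main (hwin : S_winA) (hcoef : S_coef) (hsmall : S_small) : S_high := by
  obtain ⟨Ci, hCi, hinner⟩ := Pool.Agent.N7.MainC.inner_le 1 le_rfl
  refine ⟨12 + 33 * Ci, by positivity, fun τ s hτ hs hs1 => ?_⟩
  obtain ⟨P, B, K, C1, X1, hP1, hB1, hK1, hC1, hX13, hw⟩ := hwin τ s hτ hs hs1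
  obtain ⟨C2, L0, hC2, hL01, hc⟩ := hcoef s hs hs1 B
  obtain ⟨C3, X2, hC3, hX23, hsm⟩ := hsmall τ s P hτ hs hs1 hP1
  obtain ⟨CR, hCR, hr⟩ := Pool.Agent.N880.QF.Rest.rest_main B (s / 8) (by positivity)
  obtain ⟨Cw, hCw, hwt⟩ := wt_sq_int
  obtain ⟨C5, hC5, hcr⟩ := H385.lam_sq_crude
  obtain ⟨Cb, hCb, hbt⟩ := bt_sq_int
  refine ⟨K, 6 * C2 + 4 * C1 * C2 +
        4 * C1 * (C2 ^ 2 * Real.exp 400) + 30 * (1 + 1 / s) * (C3 ^ 2 * (8 * Real.pi)) +
        3 * Cb * C5 + (1 + 1 / s) * CR ^ 2 * (1 + Cw),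
    max 3 (max X1 (max X2 (Real.exp L0))), hK1, by positivity, le_max_left _ _, ?_⟩
  intro X Y T u hX hKX hYX hT1 hTL hTX hu1 hu
  have hX3 : (3 : ℝ) ≤ X := (le_max_left _ _).trans hX
  have hXX1 : X1 ≤ X := ((le_max_left _ _).trans (le_max_right _ _)).trans hX
  have hXX2 : X2 ≤ X := ((le_max_left _ _).trans ((le_max_right _ _).trans
    (le_max_right _ _))).trans hX
  have hXL0 : Real.exp L0 ≤ X := ((le_max_right _ _).trans ((le_max_right _ _).trans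
    (le_max_right _ _))).trans hX
  have hX0 : (0 : ℝ) < X := by linarith
  have hT0 : 0 < T := by linarith
  obtain ⟨w1, w2, w3⟩ := hw X Y hXX1 hKX
  have w3' := w3 T u hT1 hTL hTX
  have hsm' := hsm X Y T u
  obtain ⟨L, hL⟩ : ∃ L, L = Real.log (X * T) := ⟨_, rfl⟩
  rw [← hL] at hTL hu1 hu w3' hsm' ⊢
  have hLX : Real.log X ≤ L := by
    rw [hL]
    exact Real.log_le_log hX0 (le_mul_of_one_le_right hX0.le hT1)
  have hLL0 : L0 ≤ L := by
    refine le_trans ?_ hLX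
    rw [Real.le_log_iff_exp_le hX0]
    exact hXL0
  have hL1 : 1 ≤ L := hL01.trans hLL0
  have hL0 : 0 < L := by linarith
  have hh1 : 1 ≤ (2 + τ) / (1 + τ) := by
    rw [le_div_iff₀ (by linarith)]; linarith
  have hh2 : (2 + τ) / (1 + τ) ≤ 2 := by
    rw [div_le_iff₀ (by linarith)]; linarith
  have hu0 : 0 ≤ u := le_trans (by positivity) hu1
  have hu2L : u ≤ 2 * L := by
    refine hu.trans ?_
    refine mul_le_mul_of_nonneg_right ?_ hL0.le
    calc (1 - s) * ((2 + τ) / (1 + τ)) ≤ 1 * 2 :=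
          mul_le_mul (by linarith) hh2 (by linarith) (by norm_num)
      _ = 2 := by norm_num
  have hTκ : T ≤ Real.exp (L ^ 2) := by
    have h1 : T ≤ Real.exp L := by
      rw [hL, Real.exp_log (by positivity)]
      exact le_mul_of_one_le_left hT0.le (by linarith)
    refine h1.trans (Real.exp_le_exp.2 ?_)
    nlinarith
  obtain ⟨c1, c2, c3⟩ := hc L u hLL0 hu1 hu2L
  obtain ⟨R, hR⟩ : ∃ R, R = RR s L u := ⟨_, rfl⟩
  rw [← hR] at c1 c2 c3 hsm'
  obtain ⟨W, hWd⟩ : ∃ W, W = WW X Y := ⟨_, rfl⟩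
  have hW0 : 0 ≤ W := by
    rw [hWd]
    exact H385.primFam_nonneg _ _ _ (fun _ _ => zero_le_one)
  have w3x := w3' hu0 hu (fun n => ((xc B R n : ℝ) : ℂ))
  obtain ⟨A, hA⟩ : ∃ A : ℕ × ℕ → ℝ → ℂ, A = fun i t => ∑ n ∈ PN u (s / 4 * L),
    ee (n * ((i.2 : ℝ) / i.1)) * ((xc B R n : ℝ) : ℂ) * bt T u t (Real.log n) := ⟨_, rfl⟩
  obtain ⟨G, hG⟩ : ∃ G : ℕ × ℕ → ℝ → ℂ, G = fun i t => ∑ n ∈ PN u (s / 4 * L),
    ee (n * ((i.2 : ℝ) / i.1)) * ((gg R n / Real.sqrt n : ℝ) : ℂ) *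
      bt T u t (Real.log n) := ⟨_, rfl⟩
  have hGle : ∀ i ∈ AX P X Y, ∀ t, ‖G i t‖ ≤ C3 * JJ T t := by
    intro i hi t
    rw [hG]
    exact hsm' t hXX2 hYX hT1 hTL hTX hu1 hu i hi
  obtain ⟨F1, hF1⟩ : ∃ F1 : ℝ → ℝ, F1 = fun t => ∑ i ∈ AX P X Y, aw P i * ‖A i t‖ ^ 2 := ⟨_, rfl⟩
  obtain ⟨F3, hF3⟩ : ∃ F3 : ℝ → ℝ, F3 = fun t => ∑ p ∈ PP B (s / 8) (2 * L) u,
    yy p ^ 2 * ‖bt T u t (Real.log p)‖ ^ 2 := ⟨_, rfl⟩
  -- the pointwise bound
  have hpt : ∀ t : ℝ, primFam X Y (fun q χ => ‖∑' n : ℕ, (χ (n : ZMod q) *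
        (ArithmeticFunction.vonMangoldt n : ℂ)) * ((Real.sqrt n : ℂ)⁻¹ * bt T u t (Real.log n))‖ ^ 2) ≤
      (1 + s) * ((1 + s) * ((1 + s) * F1 t + (1 + 1 / s) * (C3 ^ 2 * JJ T t ^ 2) * (10 * W)) +
        s * W * F3 t) + (1 + 1 / s) * CR ^ 2 * W * wt T t ^ 2 := by
    intro t
    have a1 := fam_step X Y (fun q χ => ∑' n : ℕ, (χ (n : ZMod q) *
        (ArithmeticFunction.vonMangoldt n : ℂ)) * ((Real.sqrt n : ℂ)⁻¹ * bt T u t (Real.log n)))
      (fun q χ => ∑ n ∈ Finset.Icc 1 (NNn s L u), bb B s L u T t n * χ (n : ZMod q))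
      (CR * wt T t) s hs (fun q χ => by
        have h1 := hr (2 * L) u T t (fun n => χ (n : ZMod q) *
          (ArithmeticFunction.vonMangoldt n : ℂ)) (by linarith) hu0 hu2L hT0.le (fun n => by
            rw [norm_mul, Complex.norm_real, Real.norm_eq_abs,
              abs_of_nonneg ArithmeticFunction.vonMangoldt_nonneg]
            exact mul_le_of_le_one_left ArithmeticFunction.vonMangoldt_nonneg
              (DirichletCharacter.norm_le_one _ _))
        have h2 : ∑ p ∈ PP B (s / 8) (2 * L) u, (χ (p : ZMod q) *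
            (ArithmeticFunction.vonMangoldt p : ℂ)) *
            ((Real.sqrt p : ℂ)⁻¹ * bt T u t (Real.log p)) =
            ∑ n ∈ Finset.Icc 1 (NNn s L u), bb B s L u T t n * χ (n : ZMod q) := by
          rw [sum_bb B s L u T t (fun n => χ (n : ZMod q))]
          refine Finset.sum_congr rfl fun p hp => ?_
          unfold yy
          push_cast
          rw [div_eq_mul_inv]
          ring
        rw [h2] at h1
        exact h1)
    have a2 := w1 (NNn s L u) (bb B s L u T t) (fun n hn => by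
      have hm : n ∈ PP B (s / 8) (2 * L) u := by
        by_contra hcon
        exact hn (if_neg hcon)
      exact ⟨(mem_PP hm).1, (mem_PP hm).2.1⟩)
    rw [sum_bb_sq] at a2
    have a3 : ∑ i ∈ AX P X Y, aw P i * ‖SS (NNn s L u) (bb B s L u T t) ((i.2 : ℝ) / i.1)‖ ^ 2 ≤
        (1 + s) * F1 t + (1 + 1 / s) * (C3 ^ 2 * JJ T t ^ 2) * (10 * W) := by
      have b1 : ∀ i ∈ AX P X Y, aw P i * ‖SS (NNn s L u) (bb B s L u T t) ((i.2 : ℝ) / i.1)‖ ^ 2 ≤
          aw P i * ((1 + s) * ‖A i t‖ ^ 2 + (1 + 1 / s) * (C3 * JJ T t) ^ 2) := by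
        intro i hi
        refine mul_le_mul_of_nonneg_left ?_ (aw_nonneg P i)
        rw [SS_eq B R]
        have b2 : ‖(∑ n ∈ PN u (s / 4 * L), ee (n * ((i.2 : ℝ) / i.1)) * ((xc B R n : ℝ) : ℂ) *
            bt T u t (Real.log n)) + ∑ n ∈ PN u (s / 4 * L), ee (n * ((i.2 : ℝ) / i.1)) *
            ((gg R n / Real.sqrt n : ℝ) : ℂ) * bt T u t (Real.log n)‖ ≤
            ‖A i t‖ + C3 * JJ T t := by
          refine (norm_add_le _ _).trans (add_le_add ?_ ?_)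
          · rw [hA]
          · have := hGle i hi t
            rw [hG] at this
            exact this
        exact (pow_le_pow_left₀ (norm_nonneg _) b2 2).trans (sq_add_le hs _ _)
      refine (Finset.sum_le_sum b1).trans ?_
      have b3 : ∑ i ∈ AX P X Y, aw P i * ((1 + s) * ‖A i t‖ ^ 2 +
          (1 + 1 / s) * (C3 * JJ T t) ^ 2) = (1 + s) * F1 t +
          (1 + 1 / s) * (C3 ^ 2 * JJ T t ^ 2) * ∑ i ∈ AX P X Y, aw P i := by
        rw [hF1, Finset.mul_sum, Finset.mul_sum, ← Finset.sum_add_distrib]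
        refine Finset.sum_congr rfl fun i _ => ?_
        ring
      rw [b3]
      refine add_le_add le_rfl (mul_le_mul_of_nonneg_left ?_ (by positivity))
      rw [hWd]
      exact w2
    refine a1.trans ?_
    have a4 : primFam X Y (fun q χ => ‖∑ n ∈ Finset.Icc 1 (NNn s L u),
        bb B s L u T t n * χ (n : ZMod q)‖ ^ 2) ≤
        (1 + s) * ((1 + s) * F1 t + (1 + 1 / s) * (C3 ^ 2 * JJ T t ^ 2) * (10 * W)) +
        s * W * F3 t := by
      refine a2.trans ?_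
      rw [hF3, hWd]
      refine add_le_add (mul_le_mul_of_nonneg_left ?_ (by positivity)) le_rfl
      rw [← hWd]
      exact a3
    have a5 := mul_le_mul_of_nonneg_left a4 (show (0 : ℝ) ≤ 1 + s by positivity)
    have a6 : (1 + 1 / s) * (CR * wt T t) ^ 2 * WW X Y = (1 + 1 / s) * CR ^ 2 * W * wt T t ^ 2 := by
      rw [hWd]
      ring
    rw [a6]
    exact add_le_add a5 le_rfl
  -- integrability
  have hAi : ∀ i : ℕ × ℕ, Integrable (fun t => ‖A i t‖ ^ 2) := by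
    intro i
    rw [hA]
    exact Pool.Agent.N880.HD.main_sum_integrable (PN u (s / 4 * L))
      (fun n => ee (n * ((i.2 : ℝ) / i.1)) * ((xc B R n : ℝ) : ℂ))
      (fun n => Real.log n) hL1 hT1 hTκ
  have i1 : Integrable F1 := by
    rw [hF1]
    exact integrable_finsetSum _ fun i _ => (hAi i).const_mul _
  have i2 := (JJ_sq T hT0.le).1
  have i3 : Integrable F3 := by
    rw [hF3]
    exact integrable_finsetSum _ fun p _ => (hbt T L u (Real.log p) hL1 hT1 hTκ).1.const_mul _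
  have i4 : Integrable (fun t => wt T t ^ 2) := (hwt T hT0.le).1
  have hfun : (fun t => (1 + s) * ((1 + s) * ((1 + s) * F1 t + (1 + 1 / s) *
      (C3 ^ 2 * JJ T t ^ 2) * (10 * W)) + s * W * F3 t) + (1 + 1 / s) * CR ^ 2 * W * wt T t ^ 2) =
      (fun t => ((((1 + s) * (1 + s) * (1 + s)) * F1 t +
        ((1 + s) * (1 + s) * (1 + 1 / s) * C3 ^ 2 * (10 * W)) * JJ T t ^ 2) +
        ((1 + s) * s * W) * F3 t) + ((1 + 1 / s) * CR ^ 2 * W) * wt T t ^ 2) := by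
    ext t
    ring
  have j1 : Integrable (fun t => ((1 + s) * (1 + s) * (1 + s)) * F1 t) := i1.const_mul _
  have j2 : Integrable (fun t => ((1 + s) * (1 + s) * (1 + 1 / s) * C3 ^ 2 * (10 * W)) *
    JJ T t ^ 2) := i2.const_mul _
  have j3 : Integrable (fun t => ((1 + s) * s * W) * F3 t) := i3.const_mul _
  have j4 : Integrable (fun t => ((1 + 1 / s) * CR ^ 2 * W) * wt T t ^ 2) := i4.const_mul _
  have hint : Integrable (fun t => (1 + s) * ((1 + s) * ((1 + s) * F1 t + (1 + 1 / s) *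
      (C3 ^ 2 * JJ T t ^ 2) * (10 * W)) + s * W * F3 t) +
      (1 + 1 / s) * CR ^ 2 * W * wt T t ^ 2) := by
    rw [hfun]
    exact ((j1.add j2).add j3).add j4
  refine (integral_mono_of_nonneg (Eventually.of_forall fun t =>
    H385.primFam_nonneg _ _ _ fun q χ => by positivity) hint
    (Eventually.of_forall hpt)).trans ?_
  have hTp : 0 ≤ T / (2 * Real.pi) := by positivity
  -- the four integrals
  have k2 := (JJ_sq T hT0.le).2
  have k4 := (hwt T hT0.le).2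
  have k3 : ∫ t, F3 t ≤ T / (2 * Real.pi) * inner 1 u + Cb * L * (C5 * (u + 1)) := by
    have e0 : ∫ t, F3 t = ∑ p ∈ PP B (s / 8) (2 * L) u,
        ∫ t, yy p ^ 2 * ‖bt T u t (Real.log p)‖ ^ 2 := by
      rw [hF3]
      exact integral_finsetSum _ (fun p _ =>
        (hbt T L u (Real.log p) hL1 hT1 hTκ).1.const_mul _)
    rw [e0]
    have e1 : ∀ p ∈ PP B (s / 8) (2 * L) u, ∫ t, yy p ^ 2 * ‖bt T u t (Real.log p)‖ ^ 2 ≤
        T / (2 * Real.pi) * (yy p ^ 2 * Real.exp (-(u - Real.log p) ^ 2)) +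
          Cb * L * (yy p ^ 2 * Real.exp (-(u - Real.log p) ^ 2 / 2)) := by
      intro p _
      rw [integral_const_mul]
      have := mul_le_mul_of_nonneg_left (hbt T L u (Real.log p) hL1 hT1 hTκ).2 (sq_nonneg (yy p))
      refine this.trans (le_of_eq ?_)
      ring
    refine (Finset.sum_le_sum e1).trans ?_
    rw [Finset.sum_add_distrib, ← Finset.mul_sum, ← Finset.mul_sum]
    have s1 : ∑ p ∈ PP B (s / 8) (2 * L) u, yy p ^ 2 * Real.exp (-(u - Real.log p) ^ 2) ≤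
        inner 1 u := by
      have h1 := (Pool.Agent.N7.MainC.inner_summable (c := 1) one_pos u).sum_le_tsum
        (PP B (s / 8) (2 * L) u) (fun n _ => by positivity)
      unfold Pool.Agent.N7.MainC.inner
      rw [one_pow, one_mul]
      refine le_trans (le_of_eq (Finset.sum_congr rfl fun p _ => ?_)) h1
      rw [yy_sq, one_mul]
    have s2 : ∑ p ∈ PP B (s / 8) (2 * L) u, yy p ^ 2 * Real.exp (-(u - Real.log p) ^ 2 / 2) ≤
        C5 * (u + 1) := by
      obtain ⟨h1, h2⟩ := hcr u hu0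
      refine le_trans ?_ h2
      refine le_trans (le_of_eq (Finset.sum_congr rfl fun p _ => ?_))
        (h1.sum_le_tsum (PP B (s / 8) (2 * L) u) (fun n _ => by positivity))
      rw [yy_sq]
    exact add_le_add (mul_le_mul_of_nonneg_left s1 hTp)
      (mul_le_mul_of_nonneg_left s2 (by positivity))
  have hnx1 : ∀ n, ‖((xc B R n : ℝ) : ℂ)‖ = |xc B R n| := fun n => by
    rw [Complex.norm_real, Real.norm_eq_abs]
  simp only [hnx1, sq_abs] at w3x
  have k1 : ∫ t, F1 t ≤ (1 + s) * W * (T / (2 * Real.pi)) *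
        (∑ n ∈ PN u (s / 4 * L), xc B R n ^ 2 * Real.exp (-(u - Real.log n) ^ 2)) +
      C1 * W * (T / L) * (∑ n ∈ PN u (s / 4 * L), xc B R n ^ 2 *
        Real.exp (-(u - Real.log n) ^ 2 / 2)) +
      C1 * W * T * Real.exp (-L ^ 2 / 16) * (∑ n ∈ PN u (s / 4 * L), |xc B R n|) ^ 2 := by
    rw [hF1, hA, hWd]
    exact w3x
  have e16 : Real.exp (-L ^ 2 / 16) * (∑ n ∈ PN u (s / 4 * L), |xc B R n|) ^ 2 ≤
      C2 ^ 2 * Real.exp 400 := by
    have h1 : (∑ n ∈ PN u (s / 4 * L), |xc B R n|) ^ 2 ≤ (C2 * Real.exp (5 * L)) ^ 2 :=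
      pow_le_pow_left₀ (Finset.sum_nonneg fun n _ => abs_nonneg _) c3 2
    calc _ ≤ Real.exp (-L ^ 2 / 16) * (C2 * Real.exp (5 * L)) ^ 2 :=
          mul_le_mul_of_nonneg_left h1 (Real.exp_pos _).le
      _ = C2 ^ 2 * Real.exp (-L ^ 2 / 16 + (5 * L + 5 * L)) := by
          rw [Real.exp_add, Real.exp_add]; ring
      _ ≤ _ := by
          refine mul_le_mul_of_nonneg_left (Real.exp_le_exp.2 ?_) (by positivity)
          nlinarith [sq_nonneg (L - 80)]
  have hpi3 := Real.pi_gt_three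
  have hsp2 : Real.sqrt Real.pi ≤ 2 := by
    rw [Real.sqrt_le_left (by norm_num)]
    have := Real.pi_lt_d2
    linarith
  have hTpT : T / (2 * Real.pi) ≤ T := by
    rw [div_le_iff₀ (by positivity)]
    nlinarith
  have hfin := num_high (s := s) (Ci := Ci) (L := L) (u := u) (I1 := inner 1 u) (W := W) (T := T)
    (Tp := T / (2 * Real.pi)) (C1 := C1) (C2 := C2) (C3 := C3) (CR := CR) (Cb := Cb) (C5 := C5)
    (Cw := Cw) (CJ := 8 * Real.pi)
    (X1 := ∑ n ∈ PN u (s / 4 * L), xc B R n ^ 2 * Real.exp (-(u - Real.log n) ^ 2))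
    (X2 := ∑ n ∈ PN u (s / 4 * L), xc B R n ^ 2 * Real.exp (-(u - Real.log n) ^ 2 / 2))
    (X3 := ∑ n ∈ PN u (s / 4 * L), |xc B R n|) (pp := Real.sqrt Real.pi)
    (E16 := Real.exp (-L ^ 2 / 16)) hs hs1 hCi hL1 hu1 hu2L
    (Pool.Agent.N7.MainC.inner_nonneg 1 u) (hinner u hu0) hW0 hT1 hTL hTp hTpT hC1 hC2 hCR hCb
    hC5 hCw (by positivity) (Finset.sum_nonneg fun n _ => by positivity) (Real.sqrt_nonneg _)
    hsp2 c1 c2 e16
  rw [← hWd]
  refine le_trans ?_ hfin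
  have hI : ∫ t, ((1 + s) * ((1 + s) * ((1 + s) * F1 t + (1 + 1 / s) *
      (C3 ^ 2 * JJ T t ^ 2) * (10 * W)) + s * W * F3 t) + (1 + 1 / s) * CR ^ 2 * W * wt T t ^ 2) =
      ((((1 + s) * (1 + s) * (1 + s)) * ∫ t, F1 t) +
        ((1 + s) * (1 + s) * (1 + 1 / s) * C3 ^ 2 * (10 * W)) * (∫ t, JJ T t ^ 2) +
        ((1 + s) * s * W) * ∫ t, F3 t) + ((1 + 1 / s) * CR ^ 2 * W) * ∫ t, wt T t ^ 2 := by
    have g1 : Integrable (fun t => ((1 + s) * (1 + s) * (1 + s)) * F1 t +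
        ((1 + s) * (1 + s) * (1 + 1 / s) * C3 ^ 2 * (10 * W)) * JJ T t ^ 2) := j1.add j2
    have g2 : Integrable (fun t => (((1 + s) * (1 + s) * (1 + s)) * F1 t +
        ((1 + s) * (1 + s) * (1 + 1 / s) * C3 ^ 2 * (10 * W)) * JJ T t ^ 2) +
        ((1 + s) * s * W) * F3 t) := g1.add j3
    rw [hfun, integral_add g2 j4, integral_add g1 j3,
      integral_add j1 j2, integral_const_mul, integral_const_mul, integral_const_mul,
      integral_const_mul]
  rw [hI]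
  have m1 := mul_le_mul_of_nonneg_left k1 (show 0 ≤ (1 + s) * (1 + s) * (1 + s) by positivity)
  have m2 := mul_le_mul_of_nonneg_left k2
    (show 0 ≤ (1 + s) * (1 + s) * (1 + 1 / s) * C3 ^ 2 * (10 * W) by positivity)
  have m3 := mul_le_mul_of_nonneg_left k3 (show 0 ≤ (1 + s) * s * W by positivity)
  have m4 := mul_le_mul_of_nonneg_left k4 (show 0 ≤ (1 + 1 / s) * CR ^ 2 * W by positivity)
  refine (add_le_add (add_le_add (add_le_add m1 m2) m3) m4).trans (le_of_eq ?_)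
  ring

end Pool.Agent.H440.OZ.LHigh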