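import Pool.Agent.H440.OZ.Stm
import Pool.Graph.R_seed8.Helper923.PNT

/-!
# OZ leaf 5: Mertens' theorem with Gaussian weights (helper118, for helper440)
-/

set_option autoImplicit false

namespace Pool.Agent.H440.OZ.LMer

open Filter Topology MeasureTheory Set intervalIntegral

/-- the weight -/
noncomputable def wf (u t : ℝ) : ℝ := t⁻¹ * Real.exp (-(u - Real.log t) ^ 2)

/-- its derivative -/
noncomputable def wf' (u t : ℝ) : ℝ :=
  t⁻¹ * t⁻¹ * Real.exp (-(u - Real.log t) ^ 2) * (2 * (u - Real.log t) - 1)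

lemma wf_deriv (u : ℝ) {t : ℝ} (ht : 0 < t) : HasDerivAt (wf u) (wf' u t) t := by
  have h1 : HasDerivAt (fun t : ℝ => t⁻¹) (-(t ^ 2)⁻¹) t := hasDerivAt_inv ht.ne'
  have h2 : HasDerivAt (fun t : ℝ => u - Real.log t) (-t⁻¹) t := by
    have := (Real.hasDerivAt_log ht.ne').const_sub u
    exact this
  have h3 : HasDerivAt (fun t : ℝ => Real.exp (-(u - Real.log t) ^ 2))
      (Real.exp (-(u - Real.log t) ^ 2) * (-(2 * (u - Real.log t) * (-t⁻¹)))) t := by
    have h4 := ((h2.fun_pow 2).neg).exp
    simpa using h4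
  have h5 := h1.fun_mul h3
  have h6 : wf' u t = -(t ^ 2)⁻¹ * Real.exp (-(u - Real.log t) ^ 2) +
      t⁻¹ * (Real.exp (-(u - Real.log t) ^ 2) * (-(2 * (u - Real.log t) * (-t⁻¹)))) := by
    unfold wf'
    have h7 : (t ^ 2)⁻¹ = t⁻¹ * t⁻¹ := by rw [pow_two, mul_inv]
    rw [h7]
    ring
  rw [h6]
  exact h5

lemma cont_wf' (u : ℝ) {a b : ℝ} (ha : 0 < a) : ContinuousOn (wf' u) (Icc a b) := by
  have h0 : ∀ t ∈ Icc a b, t ≠ 0 := fun t ht => (ha.trans_le ht.1).ne'
  unfold wf'
  have h1 : ContinuousOn (fun t : ℝ => t⁻¹) (Icc a b) := continuousOn_inv₀.mono h0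
  have h2 : ContinuousOn (fun t : ℝ => Real.log t) (Icc a b) := Real.continuousOn_log.mono h0
  fun_prop

lemma cont_wf (u : ℝ) {a b : ℝ} (ha : 0 < a) : ContinuousOn (wf u) (Icc a b) :=
  fun _ ht => (wf_deriv u (ha.trans_le ht.1)).continuousAt.continuousWithinAt

/-- the integral of the weight -/
lemma int_wf (u D : ℝ) (hD : 0 ≤ D) :
    ∫ t in Real.exp (u - D)..Real.exp (u + D), wf u t = ∫ v in (-D)..D, Real.exp (-v ^ 2) := by
  set a := Real.exp (u - D) with ha
  set b := Real.exp (u + D) with hb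
  have hab : a ≤ b := Real.exp_le_exp.2 (by linarith)
  have ha0 : 0 < a := Real.exp_pos _
  have hcont : Continuous fun v : ℝ => Real.exp (-v ^ 2) := by fun_prop
  have hd : ∀ t ∈ uIcc a b, HasDerivAt (fun t => ∫ v in (0 : ℝ)..(Real.log t - u),
      Real.exp (-v ^ 2)) (wf u t) t := by
    intro t ht
    rw [uIcc_of_le hab] at ht
    have ht0 : 0 < t := ha0.trans_le ht.1
    have h1 : HasDerivAt (fun x => ∫ v in (0 : ℝ)..x, Real.exp (-v ^ 2))
        (Real.exp (-(Real.log t - u) ^ 2)) (Real.log t - u) :=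
      integral_hasDerivAt_right (hcont.intervalIntegrable _ _)
        (hcont.stronglyMeasurableAtFilter _ _) hcont.continuousAt
    have h2 : HasDerivAt (fun t : ℝ => Real.log t - u) t⁻¹ t :=
      (Real.hasDerivAt_log ht0.ne').sub_const u
    have h3 := h1.comp t h2
    have h4 : wf u t = Real.exp (-(Real.log t - u) ^ 2) * t⁻¹ := by
      unfold wf
      rw [mul_comm]
      congr 2
      ring
    rw [h4]
    exact h3
  rw [integral_eq_sub_of_hasDerivAt hd]
  · have h1 : Real.log b - u = D := by rw [hb, Real.log_exp]; ring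
    have h2 : Real.log a - u = -D := by rw [ha, Real.log_exp]; ring
    simp only [h1, h2]
    rw [integral_interval_sub_left (hcont.intervalIntegrable _ _) (hcont.intervalIntegrable _ _)]
  · refine ContinuousOn.intervalIntegrable ?_
    rw [uIcc_of_le hab]
    exact cont_wf u ha0

lemma key (u D η : ℝ) (hD : 0 ≤ D) (hη : 0 ≤ η)
    (hθ : ∀ t, Real.exp (u - D) ≤ t → |Chebyshev.theta t - t| ≤ η * t) :
    (∫ v in (-D)..D, Real.exp (-v ^ 2)) - η * (2 + 2 * D * (1 + 2 * D)) ≤
      ∑ k ∈ Finset.Ioc ⌊Real.exp (u - D)⌋₊ ⌊Real.exp (u + D)⌋₊,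
        wf u k * (if k.Prime then Real.log k else 0) := by
  rw [← int_wf u D hD]
  set a := Real.exp (u - D) with ha
  set b := Real.exp (u + D) with hb
  have hab : a ≤ b := Real.exp_le_exp.2 (by linarith)
  have ha0 : 0 < a := Real.exp_pos _
  have hb0 : 0 < b := Real.exp_pos _
  have hla : Real.log a = u - D := Real.log_exp _
  have hlb : Real.log b = u + D := Real.log_exp _
  have hderiv : ∀ t ∈ Icc a b, deriv (wf u) t = wf' u t := fun t ht =>
    (wf_deriv u (ha0.trans_le ht.1)).deriv
  have hth : ∀ t : ℝ, ∑ k ∈ Finset.Icc 0 ⌊t⌋₊, (if k.Prime then Real.log k else 0) =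
      Chebyshev.theta t := by
    intro t
    rw [Chebyshev.theta_eq_sum_Icc, Finset.sum_filter]
  have hS := sum_mul_eq_sub_sub_integral_mul
    (fun k : ℕ => if k.Prime then Real.log k else 0) (f := wf u) ha0.le hab
    (fun t ht => (wf_deriv u (ha0.trans_le ht.1)).differentiableAt)
    ((ContinuousOn.integrableOn_Icc (cont_wf' u ha0)).congr_fun
      (fun t ht => (hderiv t ht).symm) measurableSet_Icc)
  simp only [hth] at hS
  rw [hS, ← integral_of_le hab]
  have hS2 : ∫ t in a..b, deriv (wf u) t * Chebyshev.theta t =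
      ∫ t in a..b, wf' u t * Chebyshev.theta t := by
    refine integral_congr fun t ht => ?_
    rw [uIcc_of_le hab] at ht
    rw [hderiv t ht]
  rw [hS2]
  have hc' : ContinuousOn (wf' u) (uIcc a b) := by
    rw [uIcc_of_le hab]
    exact cont_wf' u ha0
  have hc : ContinuousOn (wf u) (uIcc a b) := by
    rw [uIcc_of_le hab]
    exact cont_wf u ha0
  have hIt : IntervalIntegrable (fun t => wf' u t * t) volume a b :=
    (hc'.mul continuousOn_id).intervalIntegrable
  have hIth : IntervalIntegrable (fun t => wf' u t * Chebyshev.theta t) volume a b :=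
    (Chebyshev.theta_mono.intervalIntegrable (μ := volume) (a := a) (b := b)).continuousOn_mul hc'
  have hIw : IntervalIntegrable (wf u) volume a b := hc.intervalIntegrable
  -- integration by parts
  have hparts : ∫ t in a..b, wf u t = wf u b * b - wf u a * a - ∫ t in a..b, wf' u t * t := by
    have h1 : ∫ t in a..b, (wf' u t * t + wf u t) = wf u b * b - wf u a * a := by
      refine integral_eq_sub_of_hasDerivAt (f := fun t => wf u t * t) (fun t ht => ?_)
        (hIt.add hIw)
      rw [uIcc_of_le hab] at ht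
      have h2 := (wf_deriv u (ha0.trans_le ht.1)).fun_mul (hasDerivAt_id' t)
      simpa using h2
    rw [integral_add hIt hIw] at h1
    linarith
  rw [hparts]
  have hdiff : (∫ t in a..b, wf' u t * Chebyshev.theta t) - (∫ t in a..b, wf' u t * t) =
      ∫ t in a..b, wf' u t * (Chebyshev.theta t - t) := by
    rw [← integral_sub hIth hIt]
    refine integral_congr fun t _ => ?_
    ring
  have hbound : ‖∫ t in a..b, wf' u t * (Chebyshev.theta t - t)‖ ≤
      ∫ t in a..b, η * (1 + 2 * D) * t⁻¹ := by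
    refine norm_integral_le_of_norm_le hab (Eventually.of_forall fun t ht => ?_) ?_
    · have ht0 : 0 < t := ha0.trans ht.1
      have h1 : |u - Real.log t| ≤ D := by
        have h2 : u - D ≤ Real.log t := by
          rw [← hla]
          exact Real.log_le_log ha0 ht.1.le
        have h3 : Real.log t ≤ u + D := by
          rw [← hlb]
          exact Real.log_le_log ht0 ht.2
        exact abs_le.2 ⟨by linarith, by linarith⟩
      have h2 : |2 * (u - Real.log t) - 1| ≤ 1 + 2 * D := by
        obtain ⟨h3, h4⟩ := abs_le.1 h1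
        exact abs_le.2 ⟨by linarith, by linarith⟩
      have h3 : Real.exp (-(u - Real.log t) ^ 2) ≤ 1 :=
        Real.exp_le_one_iff.2 (by nlinarith [sq_nonneg (u - Real.log t)])
      have h4 := hθ t ht.1.le
      unfold wf'
      rw [Real.norm_eq_abs, abs_mul, abs_mul, abs_of_pos (by positivity :
        0 < t⁻¹ * t⁻¹ * Real.exp (-(u - Real.log t) ^ 2))]
      calc t⁻¹ * t⁻¹ * Real.exp (-(u - Real.log t) ^ 2) * |2 * (u - Real.log t) - 1| *
            |Chebyshev.theta t - t| ≤ t⁻¹ * t⁻¹ * 1 * (1 + 2 * D) * (η * t) := by gcongr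
        _ = η * (1 + 2 * D) * t⁻¹ := by
            field_simp
    · refine ContinuousOn.intervalIntegrable ?_
      rw [uIcc_of_le hab]
      exact (continuousOn_const).mul (continuousOn_inv₀.mono fun t ht => (ha0.trans_le ht.1).ne')
  rw [intervalIntegral.integral_const_mul, integral_inv_of_pos ha0 hb0,
    Real.log_div hb0.ne' ha0.ne', hla, hlb, Real.norm_eq_abs] at hbound
  have hea : wf u a * a ≤ 1 := by
    unfold wf
    rw [hla]
    have : a⁻¹ * Real.exp (-(u - (u - D)) ^ 2) * a = Real.exp (-(u - (u - D)) ^ 2) := by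
      field_simp
    rw [this]
    exact Real.exp_le_one_iff.2 (by nlinarith [sq_nonneg (u - (u - D))])
  have heb : wf u b * b ≤ 1 := by
    unfold wf
    rw [hlb]
    have : b⁻¹ * Real.exp (-(u - (u + D)) ^ 2) * b = Real.exp (-(u - (u + D)) ^ 2) := by
      field_simp
    rw [this]
    exact Real.exp_le_one_iff.2 (by nlinarith [sq_nonneg (u - (u + D))])
  have hwa : 0 ≤ wf u a := by unfold wf; positivity
  have hwb : 0 ≤ wf u b := by unfold wf; positivity
  have e1 := abs_le.1 (hθ a le_rfl)
  have e2 := abs_le.1 (hθ b hab)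
  have e3 := abs_le.1 hbound
  have e4 : wf u b * (Chebyshev.theta b - b) ≥ -η := by
    nlinarith [mul_le_mul_of_nonneg_left e2.1 hwb, mul_le_mul_of_nonneg_left heb hη]
  have e5 : wf u a * (Chebyshev.theta a - a) ≤ η := by
    nlinarith [mul_le_mul_of_nonneg_left e1.2 hwa, mul_le_mul_of_nonneg_left hea hη]
  nlinarith [e3.2, hdiff]

theorem mer_main : Pool.Agent.H440.OZ.S_mer := by
  intro ε hε
  -- the length
  have hlim : Tendsto (fun D : ℝ => ∫ v in (-D)..D, Real.exp (-v ^ 2)) atTop
      (𝓝 (Real.sqrt Real.pi)) := by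
    have hint : Integrable (fun v : ℝ => Real.exp (-v ^ 2)) := by
      have := integrable_exp_neg_mul_sq (b := 1) one_pos
      simpa using this
    have h1 := intervalIntegral_tendsto_integral (μ := volume) hint
      (tendsto_neg_atTop_atBot) (tendsto_id (α := ℝ) (x := atTop))
    have h2 : ∫ v : ℝ, Real.exp (-v ^ 2) = Real.sqrt Real.pi := by
      have := integral_gaussian 1
      simpa using this
    rw [h2] at h1
    exact h1
  obtain ⟨D, hD1, hD⟩ := ((eventually_ge_atTop (1 : ℝ)).and
    (hlim.eventually (eventually_ge_nhds (show Real.sqrt Real.pi - ε / 2 < Real.sqrt Real.pi by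
      linarith)))).exists
  have hD0 : 0 < D := by linarith
  set A : ℝ := 2 + 2 * D * (1 + 2 * D) with hA
  have hA0 : 0 < A := by positivity
  set η : ℝ := ε / (2 * A) with hη
  have hη0 : 0 < η := by positivity
  have hpnt := Pool.Agent.Helper923.PNT.theta_div_tendsto
  have hev : ∀ᶠ x : ℝ in atTop, |Chebyshev.theta x / x - 1| < η := by
    have := (Metric.tendsto_nhds.1 hpnt) η hη0
    simpa [Real.dist_eq] using this
  obtain ⟨x0, hx0⟩ := eventually_atTop.1 hev
  set x1 : ℝ := max x0 1 with hx1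
  have hx1p : 0 < x1 := lt_of_lt_of_le one_pos (le_max_right _ _)
  refine ⟨D, |Real.log x1| + D, hD0, by positivity, fun u hu => ?_⟩
  have hth : ∀ t, Real.exp (u - D) ≤ t → |Chebyshev.theta t - t| ≤ η * t := by
    intro t ht
    have h1 : x1 ≤ t := by
      refine le_trans ?_ ht
      rw [← Real.log_le_iff_le_exp hx1p]
      linarith [le_abs_self (Real.log x1)]
    have ht0 : 0 < t := hx1p.trans_le h1
    have h2 := hx0 t ((le_max_left _ _).trans h1)
    have h3 : Chebyshev.theta t - t = (Chebyshev.theta t / t - 1) * t := by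
      field_simp
    rw [h3, abs_mul, abs_of_pos ht0]
    exact mul_le_mul_of_nonneg_right h2.le ht0.le
  have hk := key u D η hD0.le hη0.le hth
  have hηA : η * A = ε / 2 := by
    rw [hη]
    field_simp
  have h1 : Real.sqrt Real.pi - ε ≤
      ∑ k ∈ Finset.Ioc ⌊Real.exp (u - D)⌋₊ ⌊Real.exp (u + D)⌋₊,
        wf u k * (if k.Prime then Real.log k else 0) := by
    rw [← hA] at hk
    linarith
  refine h1.trans ?_
  have h2 : ∀ k ∈ Finset.Ioc ⌊Real.exp (u - D)⌋₊ ⌊Real.exp (u + D)⌋₊,
      wf u k * (if k.Prime then Real.log k else 0) =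
      if k.Prime then Real.log k / k * Real.exp (-(u - Real.log k) ^ 2) else 0 := by
    intro k _
    split_ifs
    · unfold wf
      ring
    · rw [mul_zero]
  rw [Finset.sum_congr rfl h2, ← Finset.sum_filter]
  refine Finset.sum_le_sum_of_subset_of_nonneg ?_ fun p _ _ => ?_
  · intro p hp
    rw [Finset.mem_filter, Finset.mem_Ioc] at hp
    obtain ⟨⟨h3, h4⟩, h5⟩ := hp
    rw [Finset.mem_filter, Finset.mem_Icc]
    have hp0 : (0 : ℝ) < p := by exact_mod_cast h5.pos
    refine ⟨⟨h5.one_le, h4⟩, h5, ?_⟩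
    have h6 : Real.exp (u - D) < p := Nat.lt_of_floor_lt h3
    have h7 : (p : ℝ) ≤ Real.exp (u + D) := (Nat.le_floor_iff (Real.exp_pos _).le).1 h4
    have h8 : u - D ≤ Real.log p := (Real.le_log_iff_exp_le hp0).2 h6.le
    have h9 : Real.log p ≤ u + D := (Real.log_le_iff_le_exp hp0).2 h7
    exact abs_le.2 ⟨by linarith, by linarith⟩
  · have : 0 ≤ Real.log (p : ℝ) := Real.log_natCast_nonneg p
    positivity

end Pool.Agent.H440.OZ.LMer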