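import Pool.Agent.H440.OZ.Stm3

/-!
Step A5 of project OZ (helper440): the new mean square from `S_high` and `S_ms` (helper34).
-/

set_option autoImplicit false

open Complex Filter Topology MeasureTheory Set

namespace Pool.Agent.H440.OZ.LMsN

open H385 (c0 primFam bt wt Rw WW SS ee hP)
open Pool.Agent.N7.MainC (inner)
open Pool.Agent.H440.OZ

theorem WW_nonneg (X Y : ℕ) : 0 ≤ WW X Y := by
  unfold H385.WW
  exact H385.primFam_nonneg X Y _ fun _ _ => zero_le_one

theorem msN_main (hhigh : S_high) (hms : Pool.Agent.N880.HD.S_ms) : S_msN := by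
  intro τ s hτ hs hs2
  obtain ⟨C0, hC0, hhigh⟩ := hhigh
  obtain ⟨Ci, hCi, hin⟩ := Pool.Agent.N7.MainC.inner_le 1 le_rfl
  have hpi : 0 < Real.pi := Real.pi_pos
  have hsp : 0 < Real.sqrt Real.pi := Real.sqrt_pos.2 hpi
  have hD : 0 < 3 * Ci + Real.sqrt Real.pi := by positivity
  set s1 : ℝ := min s (min (s / C0) (s * (2 * Real.pi) / (3 * Ci + Real.sqrt Real.pi))) with hs1
  have hs1pos : 0 < s1 := lt_min hs (lt_min (by positivity) (by positivity))
  have hs1s : s1 ≤ s := min_le_left _ _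
  have hs1a : C0 * s1 ≤ s := by
    have h1 : s1 ≤ s / C0 := (min_le_right _ _).trans (min_le_left _ _)
    rw [le_div_iff₀ hC0] at h1
    linarith
  have hs1b : s1 * (3 * Ci + Real.sqrt Real.pi) ≤ s * (2 * Real.pi) := by
    have h1 : s1 ≤ s * (2 * Real.pi) / (3 * Ci + Real.sqrt Real.pi) :=
      (min_le_right _ _).trans (min_le_right _ _)
    rwa [le_div_iff₀ hD] at h1
  obtain ⟨K1, C1, X1, hK1, hC1, hX1, H1⟩ := hhigh τ s1 hτ hs1pos (hs1s.trans hs2)
  obtain ⟨K2, C2, X2, hK2, hC2, hX2, H2⟩ := hms τ s1 hτ hs1pos (hs1s.trans hs2)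
  refine ⟨s1 / 8, max K1 K2, max C1 C2, max X1 X2, by positivity, by linarith, le_max_of_le_left hK1,
    lt_max_of_lt_left hC1, le_max_of_le_left hX1, ?_⟩
  intro X Y T u hX hKY hYX hT hLT hTX hu0 hu
  have hXR : (3 : ℝ) ≤ X := hX1.trans ((le_max_left _ _).trans hX)
  have hX0 : (0 : ℝ) < X := by linarith
  set L : ℝ := Real.log (X * T) with hL
  have hXT : (3 : ℝ) ≤ X * T := by nlinarith
  have hL1 : 1 ≤ L := by
    rw [hL, Real.le_log_iff_exp_le (by linarith)]
    have := Real.exp_one_lt_d9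
    linarith
  have hh : 0 ≤ (2 + τ) / (1 + τ) := by positivity
  have hu' : u ≤ (1 - s1) * ((2 + τ) / (1 + τ)) * L := by
    refine hu.trans ?_
    have h1 : (1 - s) * ((2 + τ) / (1 + τ)) ≤ (1 - s1) * ((2 + τ) / (1 + τ)) :=
      mul_le_mul_of_nonneg_right (by linarith) hh
    exact mul_le_mul_of_nonneg_right h1 (by linarith)
  have hK1Y : K1 * X ≤ Y :=
    (mul_le_mul_of_nonneg_right (le_max_left _ _) hX0.le).trans hKY
  have hK2Y : K2 * X ≤ Y :=
    (mul_le_mul_of_nonneg_right (le_max_right _ _) hX0.le).trans hKY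
  have hW := WW_nonneg X Y
  have hT0 : 0 < T := by linarith
  have hWT : 0 ≤ WW X Y * T := mul_nonneg hW hT0.le
  rcases le_or_gt ((1 + s1) * L) u with hcase | hcase
  · have h1 := H1 X Y T u ((le_max_left _ _).trans hX) hK1Y hYX hT hLT hTX hcase hu'
    refine h1.trans ?_
    have h2 : max 0 (u - L) = u - L := by
      apply max_eq_right
      nlinarith
    rw [h2]
    have h3 : (C0 * s1 * L + C1) * WW X Y * T ≤ (s * L + max C1 C2) * WW X Y * T := by
      have h4 : C0 * s1 * L + C1 ≤ s * L + max C1 C2 :=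
        add_le_add (mul_le_mul_of_nonneg_right hs1a (by linarith)) (le_max_left _ _)
      have h5 := mul_le_mul_of_nonneg_right h4 hWT
      linarith
    linarith
  · have hY2 : (Y : ℝ) ≤ (X : ℝ) ^ 2 := by
      refine hYX.trans ?_
      have h1 : (X : ℝ) ^ (1 + s1 / 8) ≤ (X : ℝ) ^ (2 : ℝ) :=
        Real.rpow_le_rpow_of_exponent_le (by linarith) (by linarith)
      rwa [Real.rpow_two] at h1
    have h1 := H2 X Y T u ((le_max_right _ _).trans hX) hK2Y hY2 hT hLT hTX hu0 hu'
    refine h1.trans ?_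
    have h2 : inner 1 u ≤ 3 * Ci * L := by
      have h3 := hin u hu0
      have h4 : u + 1 ≤ 3 * L := by nlinarith
      have h5 : Ci * (u + 1) ≤ Ci * (3 * L) := mul_le_mul_of_nonneg_left h4 hCi.le
      linarith
    have h3 : max 0 (u - L) ≤ s1 * L := by
      apply max_le
      · positivity
      · linarith
    have h4 : s1 * inner 1 u + Real.sqrt Real.pi * max 0 (u - L) ≤ s * (2 * Real.pi) * L := by
      have h5 : s1 * inner 1 u ≤ s1 * (3 * Ci * L) := mul_le_mul_of_nonneg_left h2 hs1pos.le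
      have h6 : Real.sqrt Real.pi * max 0 (u - L) ≤ Real.sqrt Real.pi * (s1 * L) :=
        mul_le_mul_of_nonneg_left h3 hsp.le
      have h7 : s1 * (3 * Ci + Real.sqrt Real.pi) * L ≤ s * (2 * Real.pi) * L :=
        mul_le_mul_of_nonneg_right hs1b (by linarith)
      linarith
    have h5 : WW X Y * (T / (2 * Real.pi)) *
        (s1 * inner 1 u + Real.sqrt Real.pi * max 0 (u - L)) ≤
        WW X Y * (T / (2 * Real.pi)) * (s * (2 * Real.pi) * L) :=
      mul_le_mul_of_nonneg_left h4 (mul_nonneg hW (by positivity))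
    have h6 : WW X Y * (T / (2 * Real.pi)) * (s * (2 * Real.pi) * L) = s * L * (WW X Y * T) := by
      field_simp
    have h7 : C2 * (WW X Y * T) ≤ max C1 C2 * (WW X Y * T) :=
      mul_le_mul_of_nonneg_right (le_max_right _ _) hWT
    calc (1 + s1) * WW X Y * (T / (2 * Real.pi)) * inner 1 u + C2 * WW X Y * T
        = WW X Y * (T / (2 * Real.pi)) * (inner 1 u - Real.sqrt Real.pi * max 0 (u - L)) +
          WW X Y * (T / (2 * Real.pi)) *
            (s1 * inner 1 u + Real.sqrt Real.pi * max 0 (u - L)) + C2 * (WW X Y * T) := by ring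
      _ ≤ WW X Y * (T / (2 * Real.pi)) * (inner 1 u - Real.sqrt Real.pi * max 0 (u - L)) +
          s * L * (WW X Y * T) + max C1 C2 * (WW X Y * T) := by
          rw [← h6]
          linarith
      _ = _ := by ring

end Pool.Agent.H440.OZ.LMsN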