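import Pool.Agent.H440.OZ.Stm

/-!
Project OZ (helper440), leaf 3: the time average `bt` inserted in the bound for the additive
sums of Selberg's model.
-/

set_option autoImplicit false

open Complex Filter Topology MeasureTheory Set

namespace Pool.Agent.H440.OZ.LNegbt

open Pool.Agent.H440.OZ
open H385 (bt ee)

/-- the real weight -/
noncomputable def wgt (u : ℝ) (n : ℕ) : ℝ := Real.exp (-(u - Real.log n) ^ 2 / 4) / Real.sqrt n

lemma wgt_nonneg (u : ℝ) (n : ℕ) : 0 ≤ wgt u n := by unfold wgt; positivity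

lemma wgt_le (u : ℝ) (n : ℕ) (hn : 1 ≤ n) :
    wgt u n ≤ Real.exp (9 / 4 + 3 * u / 2) * ((n : ℝ) ^ 2)⁻¹ := by
  have h0 : (0 : ℝ) < n := by exact_mod_cast hn
  have h1 : wgt u n = Real.exp (-(u - Real.log n) ^ 2 / 4 - Real.log n / 2) := by
    unfold wgt
    rw [Real.exp_sub, Real.sqrt_eq_rpow, Real.rpow_def_of_pos h0]
    congr 2
    ring
  have h2 : ((n : ℝ) ^ 2)⁻¹ = Real.exp (-(2 * Real.log n)) := by
    rw [Real.exp_neg]
    congr 1
    rw [show (2 : ℝ) * Real.log n = Real.log n + Real.log n by ring, Real.exp_add,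
      Real.exp_log h0]
    ring
  rw [h1, h2, ← Real.exp_add]
  apply Real.exp_le_exp.mpr
  nlinarith [sq_nonneg (u - Real.log n + 3)]

lemma wgt_summable (u : ℝ) : Summable (wgt u) := by
  have h : Summable (fun n : ℕ => Real.exp (9 / 4 + 3 * u / 2) * ((n : ℝ) ^ 2)⁻¹) :=
    (Real.summable_nat_pow_inv.mpr (by norm_num)).mul_left _
  refine Summable.of_nonneg_of_le (fun n => wgt_nonneg u n) (fun n => ?_) h
  rcases Nat.eq_zero_or_pos n with rfl | hn
  · simp [wgt]
  · exact wgt_le u n hn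

lemma norm_Ew (u y : ℝ) (n : ℕ) : ‖Ew u y n‖ = wgt u n := by
  unfold Ew
  have e : ‖Real.exp (-(u - Real.log n) ^ 2 / 4) / Real.sqrt n‖ = wgt u n :=
    Real.norm_of_nonneg (wgt_nonneg u n)
  rw [norm_mul, Complex.norm_real, e, Complex.norm_exp]
  have : (-(I * (y : ℂ) * (Real.log n : ℂ))).re = 0 := by
    rw [show -(I * (y : ℂ) * (Real.log n : ℂ)) = ((-(y * Real.log n) : ℝ) : ℂ) * I by
      push_cast; ring]
    rw [Complex.re_ofReal_mul, Complex.I_re, mul_zero]
  rw [this, Real.exp_zero, mul_one]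

/-- the integrand -/
noncomputable def Fi (u t : ℝ) (n : ℕ) (τ : ℝ) : ℂ :=
  (Real.exp (-(t - τ) ^ 2 / 4) : ℂ) * cexp (I * ((t + τ) / 2 : ℝ) * u) * Ew u ((t + τ) / 2) n

lemma bt_eq' (T u t : ℝ) (n : ℕ) : (Real.sqrt n : ℂ)⁻¹ * bt T u t (Real.log n) =
    ((1 / (2 * Real.sqrt Real.pi) * (1 / Real.sqrt (2 * Real.pi)) : ℝ) : ℂ) *
      ∫ τ in T..(2 * T), Fi u t n τ := by
  have h1 : ∀ τ : ℝ, Fi u t n τ = (wgt u n : ℂ) *
      ((Real.exp (-(t - τ) ^ 2 / 4) : ℂ) * cexp (I * ((t + τ) / 2) * (u - Real.log n))) := by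
    intro τ
    unfold Fi Ew wgt
    have : cexp (I * ((t + τ) / 2) * (u - Real.log n)) =
        cexp (I * ((t + τ) / 2 : ℝ) * u) * cexp (-(I * ((t + τ) / 2 : ℝ) * Real.log n)) := by
      rw [← Complex.exp_add]
      congr 1
      push_cast
      ring
    rw [this]
    ring
  simp_rw [h1]
  rw [intervalIntegral.integral_const_mul]
  unfold H385.bt wgt
  push_cast
  rw [div_eq_mul_inv (cexp _) ((Real.sqrt n : ℂ))]
  ring

lemma Fi_cont (u t : ℝ) (n : ℕ) : Continuous (Fi u t n) := by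
  unfold Fi Ew
  fun_prop

lemma norm_Fi (u t : ℝ) (n : ℕ) (τ : ℝ) :
    ‖Fi u t n τ‖ = Real.exp (-(t - τ) ^ 2 / 4) * wgt u n := by
  unfold Fi
  rw [norm_mul, norm_mul, norm_Ew, Complex.norm_real, Real.norm_of_nonneg (Real.exp_pos _).le,
    Complex.norm_exp]
  have : (I * (((t + τ) / 2 : ℝ) : ℂ) * (u : ℂ)).re = 0 := by
    simp [Complex.mul_re, Complex.mul_im]
  rw [this, Real.exp_zero, mul_one]

lemma poly_exp_le (k : ℕ) (x : ℝ) (hx : 0 ≤ x) :
    (1 + x / 2) ^ k * Real.exp (-x ^ 2 / 8) ≤ Real.exp ((k : ℝ) ^ 2 / 2) := by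
  have h1 : (1 + x / 2) ^ k ≤ Real.exp (k * (x / 2)) := by
    rw [Real.exp_nat_mul]
    exact pow_le_pow_left₀ (by positivity) (by linarith [Real.add_one_le_exp (x / 2)]) k
  calc _ ≤ Real.exp (k * (x / 2)) * Real.exp (-x ^ 2 / 8) :=
        mul_le_mul_of_nonneg_right h1 (Real.exp_pos _).le
    _ = Real.exp (k * (x / 2) + -x ^ 2 / 8) := (Real.exp_add _ _).symm
    _ ≤ _ := by
      apply Real.exp_le_exp.mpr
      nlinarith [sq_nonneg (x - 2 * k)]

/-- the general averaging lemma -/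
theorem average (k : ℕ) (g : ℕ → ℂ) (B : ℝ) (hg : ∀ n, ‖g n‖ ≤ B) (u T t A : ℝ) (hT : 1 ≤ T)
    (hA : 0 ≤ A) (h : ∀ y : ℝ, ‖∑' n : ℕ, g n * Ew u y n‖ ≤ A * (1 + |y|) ^ k) :
    ‖∑' n : ℕ, g n * ((Real.sqrt n : ℂ)⁻¹ * bt T u t (Real.log n))‖ ≤
      A * (3 ^ k * Real.exp ((k : ℝ) ^ 2 / 2)) * T ^ k *
        ∫ τ in T..(2 * T), Real.exp (-(t - τ) ^ 2 / 8) := by
  have hT2 : T ≤ 2 * T := by linarith
  set c : ℝ := 1 / (2 * Real.sqrt Real.pi) * (1 / Real.sqrt (2 * Real.pi)) with hc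
  have hpi : 1 ≤ Real.sqrt Real.pi := by
    rw [Real.one_le_sqrt]
    linarith [Real.pi_gt_three]
  have h2pi : 1 ≤ Real.sqrt (2 * Real.pi) := by
    rw [Real.one_le_sqrt]
    linarith [Real.pi_gt_three]
  have hc0 : 0 ≤ c := by positivity
  have hc1 : c ≤ 1 := by
    rw [hc]
    have a1 : 1 / (2 * Real.sqrt Real.pi) ≤ 1 := by
      rw [div_le_one (by positivity)]
      linarith
    have a2 : 1 / Real.sqrt (2 * Real.pi) ≤ 1 := by
      rw [div_le_one (by positivity)]
      exact h2pi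
    calc _ ≤ (1 : ℝ) * 1 := mul_le_mul a1 a2 (by positivity) (by norm_num)
      _ = 1 := one_mul 1
  -- exchange
  have hint : ∀ n : ℕ, Integrable (fun τ => g n * Fi u t n τ) (volume.restrict (Ioc T (2 * T))) := by
    intro n
    have := ((continuous_const.mul (Fi_cont u t n)).intervalIntegrable (μ := volume) T (2 * T) :
      IntervalIntegrable (fun τ => g n * Fi u t n τ) volume T (2 * T))
    exact (intervalIntegrable_iff_integrableOn_Ioc_of_le hT2).mp this
  have hsum : Summable (fun n : ℕ => ∫ τ in Ioc T (2 * T), ‖g n * Fi u t n τ‖) := by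
    have hb : Summable (fun n : ℕ => B * (T * wgt u n)) :=
      ((wgt_summable u).mul_left T).mul_left B
    refine Summable.of_nonneg_of_le (fun n => integral_nonneg (fun τ => norm_nonneg _))
      (fun n => ?_) hb
    have hB : 0 ≤ B := (norm_nonneg _).trans (hg n)
    calc ∫ τ in Ioc T (2 * T), ‖g n * Fi u t n τ‖
        ≤ ∫ τ in Ioc T (2 * T), B * wgt u n := by
          apply setIntegral_mono (hint n).norm
          · exact integrableOn_const (by simp) enorm_ne_top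
          · intro τ
            show ‖g n * Fi u t n τ‖ ≤ B * wgt u n
            rw [norm_mul, norm_Fi]
            apply mul_le_mul (hg n) _ (mul_nonneg (Real.exp_pos _).le (wgt_nonneg u n)) hB
            calc Real.exp (-(t - τ) ^ 2 / 4) * wgt u n ≤ 1 * wgt u n := by
                  apply mul_le_mul_of_nonneg_right _ (wgt_nonneg u n)
                  apply Real.exp_le_one_iff.mpr
                  nlinarith [sq_nonneg (t - τ)]
              _ = wgt u n := one_mul _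
      _ = B * (T * wgt u n) := by
          rw [setIntegral_const, Measure.real, Real.volume_Ioc,
            ENNReal.toReal_ofReal (by linarith), smul_eq_mul]
          ring
  have hex := hasSum_integral_of_summable_integral_norm hint hsum
  have key : ∑' n : ℕ, g n * ((Real.sqrt n : ℂ)⁻¹ * bt T u t (Real.log n)) =
      (c : ℂ) * ∫ τ in Ioc T (2 * T), ∑' n : ℕ, g n * Fi u t n τ := by
    rw [← hex.tsum_eq, ← tsum_mul_left]
    apply tsum_congr
    intro n
    rw [bt_eq', intervalIntegral.integral_of_le hT2, integral_const_mul]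
    ring
  rw [key, norm_mul, Complex.norm_real, Real.norm_of_nonneg hc0]
  have hbound : ∀ τ ∈ Ioc T (2 * T), ‖∑' n : ℕ, g n * Fi u t n τ‖ ≤
      A * (3 ^ k * Real.exp ((k : ℝ) ^ 2 / 2)) * T ^ k * Real.exp (-(t - τ) ^ 2 / 8) := by
    intro τ hτ
    have e1 : ∑' n : ℕ, g n * Fi u t n τ =
        ((Real.exp (-(t - τ) ^ 2 / 4) : ℂ) * cexp (I * ((t + τ) / 2 : ℝ) * u)) *
          ∑' n : ℕ, g n * Ew u ((t + τ) / 2) n := by
      rw [← tsum_mul_left]
      apply tsum_congr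
      intro n
      unfold Fi
      ring
    rw [e1, norm_mul, norm_mul, Complex.norm_real, Real.norm_of_nonneg (Real.exp_pos _).le,
      Complex.norm_exp]
    have e2 : (I * (((t + τ) / 2 : ℝ) : ℂ) * (u : ℂ)).re = 0 := by
      simp [Complex.mul_re, Complex.mul_im]
    rw [e2, Real.exp_zero, mul_one]
    have e3 : 1 + |(t + τ) / 2| ≤ 3 * T * (1 + |t - τ| / 2) := by
      have a1 : |(t + τ) / 2| ≤ τ + |t - τ| / 2 := by
        rw [abs_le]
        constructor
        · have := neg_abs_le (t - τ)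
          have h1 := hτ.1
          linarith
        · have := le_abs_self (t - τ)
          linarith
      have a2 := hτ.2
      have a3 : 0 ≤ |t - τ| := abs_nonneg _
      nlinarith
    have e4 : (1 + |(t + τ) / 2|) ^ k ≤ 3 ^ k * T ^ k * (1 + |t - τ| / 2) ^ k := by
      calc (1 + |(t + τ) / 2|) ^ k ≤ (3 * T * (1 + |t - τ| / 2)) ^ k :=
            pow_le_pow_left₀ (by positivity) e3 k
        _ = _ := by rw [mul_pow, mul_pow]
    have e5 : Real.exp (-(t - τ) ^ 2 / 4) = Real.exp (-|t - τ| ^ 2 / 8) *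
        Real.exp (-(t - τ) ^ 2 / 8) := by
      rw [← Real.exp_add, sq_abs]
      congr 1
      ring
    calc Real.exp (-(t - τ) ^ 2 / 4) * ‖∑' n : ℕ, g n * Ew u ((t + τ) / 2) n‖
        ≤ Real.exp (-(t - τ) ^ 2 / 4) * (A * (3 ^ k * T ^ k * (1 + |t - τ| / 2) ^ k)) :=
          mul_le_mul_of_nonneg_left ((h _).trans (mul_le_mul_of_nonneg_left e4 hA))
            (Real.exp_pos _).le
      _ = A * 3 ^ k * T ^ k * Real.exp (-(t - τ) ^ 2 / 8) *
          ((1 + |t - τ| / 2) ^ k * Real.exp (-|t - τ| ^ 2 / 8)) := by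
          rw [e5]; ring
      _ ≤ A * 3 ^ k * T ^ k * Real.exp (-(t - τ) ^ 2 / 8) * Real.exp ((k : ℝ) ^ 2 / 2) := by
          apply mul_le_mul_of_nonneg_left (poly_exp_le k _ (abs_nonneg _))
          have : 0 ≤ T := by linarith
          positivity
      _ = _ := by ring
  have hcontR : IntegrableOn (fun τ : ℝ => A * (3 ^ k * Real.exp ((k : ℝ) ^ 2 / 2)) * T ^ k *
      Real.exp (-(t - τ) ^ 2 / 8)) (Ioc T (2 * T)) volume := by
    have hcont : Continuous (fun τ : ℝ => A * (3 ^ k * Real.exp ((k : ℝ) ^ 2 / 2)) * T ^ k *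
      Real.exp (-(t - τ) ^ 2 / 8)) := by fun_prop
    exact (intervalIntegrable_iff_integrableOn_Ioc_of_le hT2).mp
      (hcont.intervalIntegrable T (2 * T))
  have hfin : ‖∫ τ in Ioc T (2 * T), ∑' n : ℕ, g n * Fi u t n τ‖ ≤
      A * (3 ^ k * Real.exp ((k : ℝ) ^ 2 / 2)) * T ^ k *
        ∫ τ in T..(2 * T), Real.exp (-(t - τ) ^ 2 / 8) := by
    rw [← intervalIntegral.integral_const_mul, intervalIntegral.integral_of_le hT2]
    refine norm_integral_le_of_norm_le hcontR ?_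
    exact (ae_restrict_iff' measurableSet_Ioc).mpr (Eventually.of_forall hbound)
  calc c * ‖∫ τ in Ioc T (2 * T), ∑' n : ℕ, g n * Fi u t n τ‖
      ≤ 1 * ‖∫ τ in Ioc T (2 * T), ∑' n : ℕ, g n * Fi u t n τ‖ :=
        mul_le_mul_of_nonneg_right hc1 (norm_nonneg _)
    _ = _ := one_mul _
    _ ≤ _ := hfin

lemma norm_ee (x : ℝ) : ‖ee x‖ = 1 := by
  unfold H385.ee
  rw [Complex.norm_exp]
  have : (2 * (Real.pi : ℂ) * I * (x : ℂ)).re = 0 := by
    simp [Complex.mul_re, Complex.mul_im]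
  rw [this, Real.exp_zero]

lemma abs_gg_le (R n : ℕ) : |gg R n| ≤ ∑ d ∈ SQ R, |lam R d| := by
  unfold gg
  refine (Finset.abs_sum_le_sum_abs _ _).trans ?_
  exact Finset.sum_le_sum_of_subset_of_nonneg (Finset.filter_subset _ _)
    (fun i _ _ => abs_nonneg _)

/-- Leaf 3 of project OZ. -/
theorem negbt_main (h : S_neg) : S_negbt := by
  intro k hk
  obtain ⟨C, hC, hS⟩ := h k hk
  refine ⟨C * (3 ^ k * Real.exp ((k : ℝ) ^ 2 / 2)), by positivity, ?_⟩
  intro R q b u T t hu hT hR hRq hbq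
  have hL : 0 ≤ ∑ d ∈ SQ R, |lam R d| := Finset.sum_nonneg (fun i _ => abs_nonneg _)
  set A : ℝ := C * ((q : ℝ) * R) ^ k * Real.exp (-((k : ℝ) - 1) * u) *
      ∑ d ∈ SQ R, |lam R d| with hA
  have hA0 : 0 ≤ A := by positivity
  have hav := average k (fun n : ℕ => (gg R n : ℂ) * ee (n * ((b : ℝ) / q)))
    (∑ d ∈ SQ R, |lam R d|) (fun n => by
      rw [norm_mul, norm_ee, mul_one, Complex.norm_real]
      exact abs_gg_le R n) u T t A hT hA0 (fun y => by
      have := hS R q b u y hu hR hRq hbq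
      have e : ∑' n : ℕ, (gg R n : ℂ) * ee (n * ((b : ℝ) / q)) * Ew u y n =
          ∑' n : ℕ, (gg R n : ℂ) * (Ew u y n * ee (n * ((b : ℝ) / q))) :=
        tsum_congr (fun n => by ring)
      rw [e]
      refine this.trans (le_of_eq ?_)
      rw [hA]
      ring)
  refine hav.trans (le_of_eq ?_)
  rw [hA]
  ring

end Pool.Agent.H440.OZ.LNegbt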