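import Pool.Agent.H440.OZ.Stm3
import Pool.Graph.R_seed8.H385R2.Cut
import Pool.Graph.R_seed8.H385R2.Dual

/-!
Project OZ of helper440, step A3: the model is negligible at all Farey fractions of the family.
-/

set_option autoImplicit false

open Complex Filter Topology MeasureTheory Set

namespace Pool.Agent.H440.OZ.LSmall

open H385 (c0 primFam bt wt Rw WW SS ee hP LF)
open Pool.Agent.H440.OZ

/-- the comparison of the two weights -/
lemma wt_le_J (T t : ℝ) (hT : 0 ≤ T) :
    wt T t ≤ ∫ v in T..(2 * T), Real.exp (-(t - v) ^ 2 / 8) := by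
  have h1 : ∫ v in T..(2 * T), Real.exp (-(t - v) ^ 2 / 4) ≤
      ∫ v in T..(2 * T), Real.exp (-(t - v) ^ 2 / 8) := by
    apply intervalIntegral.integral_mono_on (by linarith)
    · exact (by fun_prop : Continuous fun v : ℝ => Real.exp (-(t - v) ^ 2 / 4)).intervalIntegrable _ _
    · exact (by fun_prop : Continuous fun v : ℝ => Real.exp (-(t - v) ^ 2 / 8)).intervalIntegrable _ _
    · intro v _
      apply Real.exp_le_exp.2
      nlinarith [sq_nonneg (t - v)]
  have h0 : 0 ≤ ∫ v in T..(2 * T), Real.exp (-(t - v) ^ 2 / 4) :=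
    intervalIntegral.integral_nonneg (by linarith) fun v _ => (Real.exp_pos _).le
  have hpi : 1 ≤ Real.sqrt Real.pi := by
    rw [Real.one_le_sqrt]
    linarith [Real.pi_gt_three]
  have hc : 1 / (2 * Real.sqrt Real.pi) ≤ 1 := by
    rw [div_le_one (by positivity)]
    linarith
  unfold wt
  calc 1 / (2 * Real.sqrt Real.pi) * ∫ v in T..(2 * T), Real.exp (-(t - v) ^ 2 / 4)
      ≤ 1 * ∫ v in T..(2 * T), Real.exp (-(t - v) ^ 2 / 4) :=
        mul_le_mul_of_nonneg_right hc h0
    _ ≤ _ := by rw [one_mul]; exact h1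

lemma J_nonneg (T t : ℝ) (hT : 0 ≤ T) : 0 ≤ ∫ v in T..(2 * T), Real.exp (-(t - v) ^ 2 / 8) :=
  intervalIntegral.integral_nonneg (by linarith) fun _ _ => (Real.exp_pos _).le

theorem small_main (hneg : S_negbt) (htail : S_tail) : S_small := by
  intro τ s P hτ hs hs1 hP1
  obtain ⟨k, hk⟩ : ∃ k : ℕ, k = ⌈8 / s⌉₊ := ⟨_, rfl⟩
  have hk8 : 8 ≤ s * k := by
    have := Nat.le_ceil (8 / s)
    rw [← hk, div_le_iff₀ hs] at this
    linarith
  have hk1 : 1 ≤ k := by
    rcases Nat.eq_zero_or_pos k with h | h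
    · rw [h] at hk8; norm_num at hk8
    · exact h
  obtain ⟨C1, hC1, hneg⟩ := hneg k hk1
  obtain ⟨C2, hC2, htail⟩ := htail
  obtain ⟨C3, hC3, hGG⟩ := GG_le
  have hPpos : (1 : ℝ) ≤ P := by exact_mod_cast hP1
  refine ⟨C1 * P ^ k * C3 + C2 * C3 * Real.exp (2592 / s ^ 2), 3, ?_, le_rfl, ?_⟩
  · positivity
  intro X Y T u t hX hY hT1 hTL hTτ hu1 hu2 i hi
  have hXpos : (0 : ℝ) < X := by linarith
  have hTpos : 0 < T := by linarith
  obtain ⟨L, hL⟩ : ∃ L, L = Real.log (X * T) := ⟨_, rfl⟩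
  obtain ⟨lX, hlX⟩ : ∃ lX, lX = Real.log X := ⟨_, rfl⟩
  obtain ⟨lT, hlT⟩ : ∃ lT, lT = Real.log T := ⟨_, rfl⟩
  rw [← hL] at hu1 hu2 ⊢
  have hLeq : L = lX + lT := by
    rw [hL, hlX, hlT, Real.log_mul hXpos.ne' hTpos.ne']
  have hlX1 : 1 ≤ lX := by
    rw [hlX, Real.le_log_iff_exp_le hXpos]
    exact Real.exp_one_lt_d9.le.trans (by linarith)
  have hlT0 : 0 ≤ lT := by rw [hlT]; exact Real.log_nonneg hT1
  have hlTτ : lT ≤ τ * lX := by
    rw [hlT, hlX, ← Real.log_rpow hXpos]
    exact Real.log_le_log hTpos hTτ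
  have hL1 : 1 ≤ L := by linarith
  have hL0 : 0 < L := by linarith
  have hXe : (X : ℝ) = Real.exp lX := by rw [hlX, Real.exp_log hXpos]
  have hTe : T = Real.exp lT := by rw [hlT, Real.exp_log hTpos]
  have hh1 : 1 ≤ (2 + τ) / (1 + τ) := by
    rw [le_div_iff₀ (by linarith)]; linarith
  have hh2 : (2 + τ) / (1 + τ) ≤ 2 := by
    rw [div_le_iff₀ (by linarith)]; linarith
  have hhL : (2 + τ) / (1 + τ) * L ≤ 2 * lX + lT := by
    rw [div_mul_eq_mul_div, div_le_iff₀ (by linarith), hLeq]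
    nlinarith
  have hu3 : u ≤ (2 + τ) / (1 + τ) * L - s * L := by
    have e1 : (1 - s) * ((2 + τ) / (1 + τ)) * L =
      (2 + τ) / (1 + τ) * L - s * ((2 + τ) / (1 + τ) * L) := by ring
    have e2 : L ≤ (2 + τ) / (1 + τ) * L := le_mul_of_one_le_left hL0.le hh1
    have e3 := mul_le_mul_of_nonneg_left e2 hs.le
    linarith
  have hsL : 0 ≤ s * L := by positivity
  have hu2L : u ≤ 2 * L := by
    have := mul_le_mul_of_nonneg_right hh2 hL0.le
    linarith
  have hu0 : 0 ≤ u := by
    have : 0 ≤ (1 + s) * L := by positivity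
    linarith
  -- the level
  obtain ⟨R, hR⟩ : ∃ R, R = RR s L u := ⟨_, rfl⟩
  rw [← hR]
  have hR1 : 1 ≤ R := by
    rw [hR, RR]
    apply Nat.le_floor
    rw [Nat.cast_one]
    exact Real.one_le_exp (by linarith)
  have hRe : (R : ℝ) ≤ Real.exp (u - (1 + s) * L) := by
    rw [hR, RR]
    exact Nat.floor_le (Real.exp_pos _).le
  have hRX : (R : ℝ) ≤ Real.exp lX := by
    refine hRe.trans (Real.exp_le_exp.2 ?_)
    linarith
  -- the fraction
  rw [AX, Finset.mem_filter, Finset.mem_product, Finset.mem_Ioc] at hi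
  obtain ⟨⟨⟨hXq, hqY⟩, -⟩, -, hcop⟩ := hi
  obtain ⟨q, b⟩ := i
  simp only at hXq hqY hcop ⊢
  have hRq : R < q := by
    have : (R : ℝ) ≤ X := by rw [hXe]; exact hRX
    have : R ≤ X := by exact_mod_cast this
    omega
  have hqP : (q : ℝ) ≤ P * Real.exp ((1 + s / 8) * lX) := by
    have h1 : (q : ℝ) ≤ P * Y := by exact_mod_cast hqY
    refine h1.trans (mul_le_mul_of_nonneg_left ?_ (by positivity))
    refine hY.trans (le_of_eq ?_)
    rw [Real.rpow_def_of_pos hXpos, ← hlX, mul_comm]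
  -- the two estimates
  have hJ0 := J_nonneg T t hTpos.le
  obtain ⟨J, hJ⟩ : ∃ J, J = ∫ v in T..(2 * T), Real.exp (-(t - v) ^ 2 / 8) := ⟨_, rfl⟩
  have hn := hneg R q b u T t hu0 hT1 hR1 hRq hcop
  have ht := htail R u (s / 4 * L) T t (fun n => ee (n * ((b : ℝ) / q))) hu0 (by positivity)
    hTpos.le (fun n => (H385.ee_norm _).le)
  rw [← hJ] at hn hJ0 ⊢
  have hwJ : wt T t ≤ J := by rw [hJ]; exact wt_le_J T t hTpos.le
  obtain ⟨S, hS⟩ : ∃ S, S = ∑ d ∈ SQ R, |lam R d| := ⟨_, rfl⟩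
  have hS0 : 0 ≤ S := by rw [hS]; exact Finset.sum_nonneg fun _ _ => abs_nonneg _
  have hSle : S ≤ C3 * Real.exp (3 * L) := by
    have h1 := (hGG R hR1).2
    rw [← hS] at h1
    have hRpos : (0 : ℝ) < R := by exact_mod_cast hR1
    have hRL : (R : ℝ) ≤ Real.exp L := hRX.trans (Real.exp_le_exp.2 (by linarith))
    have hlR : Real.log R ≤ L := by
      rw [Real.log_le_iff_le_exp hRpos]; exact hRL
    have hlR0 : 0 ≤ Real.log R := Real.log_nonneg (by exact_mod_cast hR1)
    have h2 : (1 + Real.log R) ^ 2 ≤ Real.exp (2 * L) := by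
      have h3 : 1 + Real.log R ≤ Real.exp L := by
        have := Real.add_one_le_exp L
        linarith
      calc (1 + Real.log R) ^ 2 ≤ Real.exp L ^ 2 := by
            apply pow_le_pow_left₀ (by linarith) h3
        _ = Real.exp (2 * L) := by rw [← Real.exp_nat_mul]; norm_num
    calc S ≤ C3 * R * (1 + Real.log R) ^ 2 := h1
      _ ≤ C3 * Real.exp L * Real.exp (2 * L) := by
          apply mul_le_mul _ h2 (sq_nonneg _) (by positivity)
          exact mul_le_mul_of_nonneg_left hRL (by linarith)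
      _ = C3 * Real.exp (3 * L) := by
          rw [mul_assoc, ← Real.exp_add]; ring_nf
  rw [← hS] at hn ht
  -- main term
  have hmain : C1 * T ^ k * ((q : ℝ) * R) ^ k * Real.exp (-((k : ℝ) - 1) * u) * S * J ≤
      C1 * P ^ k * C3 * J := by
    apply mul_le_mul_of_nonneg_right _ hJ0
    have h1 : T * ((q : ℝ) * R) * Real.exp (-u) ≤ P * Real.exp (-(7 / 8) * (s * L)) := by
      have h2 : T * ((q : ℝ) * R) ≤ Real.exp lT * ((P * Real.exp ((1 + s / 8) * lX)) *
          Real.exp (u - (1 + s) * L)) := by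
        rw [← hTe]
        apply mul_le_mul_of_nonneg_left _ hTpos.le
        apply mul_le_mul hqP hRe (Nat.cast_nonneg _) (by positivity)
      calc T * ((q : ℝ) * R) * Real.exp (-u)
          ≤ Real.exp lT * ((P * Real.exp ((1 + s / 8) * lX)) *
              Real.exp (u - (1 + s) * L)) * Real.exp (-u) :=
            mul_le_mul_of_nonneg_right h2 (Real.exp_pos _).le
        _ = P * Real.exp (lT + (1 + s / 8) * lX + (u - (1 + s) * L) + (-u)) := by
            rw [Real.exp_add, Real.exp_add, Real.exp_add]; ring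
        _ ≤ _ := by
            apply mul_le_mul_of_nonneg_left _ (by positivity)
            apply Real.exp_le_exp.2
            have : s * lX ≤ s * L := mul_le_mul_of_nonneg_left (by linarith) hs.le
            nlinarith
    have h3 : (T * ((q : ℝ) * R) * Real.exp (-u)) ^ k ≤ P ^ k * Real.exp (-(7 * L)) := by
      calc (T * ((q : ℝ) * R) * Real.exp (-u)) ^ k
          ≤ (P * Real.exp (-(7 / 8) * (s * L))) ^ k := by
            apply pow_le_pow_left₀ (by positivity) h1
        _ = P ^ k * Real.exp (k * (-(7 / 8) * (s * L))) := by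
            rw [mul_pow, ← Real.exp_nat_mul]
        _ ≤ _ := by
            apply mul_le_mul_of_nonneg_left _ (by positivity)
            apply Real.exp_le_exp.2
            have := mul_le_mul_of_nonneg_right hk8 hL0.le
            nlinarith
    have h4 : T ^ k * ((q : ℝ) * R) ^ k * Real.exp (-((k : ℝ) - 1) * u) =
        (T * ((q : ℝ) * R) * Real.exp (-u)) ^ k * Real.exp u := by
      have e : -((k : ℝ) - 1) * u = k * -u + u := by ring
      rw [e, Real.exp_add, Real.exp_nat_mul]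
      ring
    have h5 : T ^ k * ((q : ℝ) * R) ^ k * Real.exp (-((k : ℝ) - 1) * u) ≤
        P ^ k * Real.exp (-(5 * L)) := by
      rw [h4]
      calc (T * ((q : ℝ) * R) * Real.exp (-u)) ^ k * Real.exp u
          ≤ (P ^ k * Real.exp (-(7 * L))) * Real.exp (2 * L) := by
            apply mul_le_mul h3 (Real.exp_le_exp.2 hu2L) (Real.exp_pos _).le (by positivity)
        _ = _ := by rw [mul_assoc, ← Real.exp_add]; ring_nf
    calc C1 * T ^ k * ((q : ℝ) * R) ^ k * Real.exp (-((k : ℝ) - 1) * u) * S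
        = C1 * (T ^ k * ((q : ℝ) * R) ^ k * Real.exp (-((k : ℝ) - 1) * u)) * S := by ring
      _ ≤ C1 * (P ^ k * Real.exp (-(5 * L))) * (C3 * Real.exp (3 * L)) := by
          apply mul_le_mul _ hSle hS0 (by positivity)
          exact mul_le_mul_of_nonneg_left h5 hC1.le
      _ = C1 * P ^ k * C3 * (Real.exp (-(5 * L)) * Real.exp (3 * L)) := by ring
      _ ≤ C1 * P ^ k * C3 * 1 := by
          apply mul_le_mul_of_nonneg_left _ (by positivity)
          rw [← Real.exp_add, ← Real.exp_zero]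
          apply Real.exp_le_exp.2
          linarith
      _ = _ := mul_one _
  -- tail
  have htail' : C2 * S * Real.exp (3 * u - (s / 4 * L) ^ 2 / 8) * wt T t ≤
      C2 * C3 * Real.exp (2592 / s ^ 2) * J := by
    have hwt0 : 0 ≤ wt T t := H385.wt_nonneg T t hTpos.le
    apply mul_le_mul _ hwJ hwt0 (by positivity)
    calc C2 * S * Real.exp (3 * u - (s / 4 * L) ^ 2 / 8)
        ≤ C2 * (C3 * Real.exp (3 * L)) * Real.exp (3 * u - (s / 4 * L) ^ 2 / 8) := by
          apply mul_le_mul_of_nonneg_right _ (Real.exp_pos _).le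
          exact mul_le_mul_of_nonneg_left hSle hC2.le
      _ = C2 * C3 * Real.exp (3 * L + (3 * u - (s / 4 * L) ^ 2 / 8)) := by
          rw [Real.exp_add]; ring
      _ ≤ _ := by
          apply mul_le_mul_of_nonneg_left _ (by positivity)
          apply Real.exp_le_exp.2
          have h6 : 3 * L + (3 * u - (s / 4 * L) ^ 2 / 8) ≤ 9 * L - s ^ 2 * L ^ 2 / 128 := by
            nlinarith
          refine h6.trans ?_
          rw [le_div_iff₀ (by positivity)]
          nlinarith [sq_nonneg (s ^ 2 * L - 576)]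
  -- assembly
  have hshape : ∑ n ∈ PN u (s / 4 * L), ee (n * ((b : ℝ) / q)) *
        ((gg R n / Real.sqrt n : ℝ) : ℂ) * bt T u t (Real.log n) =
      ∑ n ∈ PN u (s / 4 * L), ((gg R n : ℂ) * ee (n * ((b : ℝ) / q))) *
        ((Real.sqrt n : ℂ)⁻¹ * bt T u t (Real.log n)) := by
    refine Finset.sum_congr rfl fun n _ => ?_
    push_cast
    ring
  rw [hshape]
  calc _ ≤ _ := norm_le_norm_add_norm_sub' _
        (∑' n : ℕ, ((gg R n : ℂ) * ee (n * ((b : ℝ) / q))) *
          ((Real.sqrt n : ℂ)⁻¹ * bt T u t (Real.log n)))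
    _ ≤ C1 * P ^ k * C3 * J + C2 * C3 * Real.exp (2592 / s ^ 2) * J := by
        apply add_le_add (hn.trans hmain)
        rw [norm_sub_rev]
        exact ht.trans htail'
    _ = _ := by ring

end Pool.Agent.H440.OZ.LSmall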