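import Pool.Agent.H440.OZ.Stm
import Pool.Graph.R_seed8.H385R2.Cut

/-!
# Cutting the model (leaf 4 of the project OZ; written by helper97)
-/

set_option autoImplicit false

open Complex Filter Topology MeasureTheory Set

namespace Pool.Agent.H440.OZ.LTail

open Pool.Agent.H440.OZ
open H385 (bt wt)

lemma gg_le (R n : ℕ) : |gg R n| ≤ ∑ d ∈ SQ R, |lam R d| := by
  unfold gg
  exact (Finset.abs_sum_le_sum_abs _ _).trans
    (Finset.sum_le_sum_of_subset_of_nonneg (Finset.filter_subset _ _) fun _ _ _ => abs_nonneg _)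

/-- the elementary inequality for the Gaussian weight -/
lemma gauss_le {u l D : ℝ} (hu : 0 ≤ u) (hD : D ^ 2 ≤ (u - l) ^ 2) :
    Real.exp (-(u - l) ^ 2 / 4) * Real.exp (-(l / 2)) ≤
      Real.exp (9 / 2) * Real.exp (3 * u - D ^ 2 / 8) * Real.exp (-(2 * l)) := by
  rw [← Real.exp_add, ← Real.exp_add, ← Real.exp_add]
  refine Real.exp_le_exp.2 ?_
  nlinarith [sq_nonneg (l - u - 6)]

lemma term_le {R n : ℕ} {u D T t : ℝ} {z : ℂ} (hu : 0 ≤ u) (hT : 0 ≤ T) (hz : ‖z‖ ≤ 1)
    (hn : n = 0 ∨ D ^ 2 ≤ (u - Real.log n) ^ 2) :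
    ‖((gg R n : ℂ) * z) * ((Real.sqrt n : ℂ)⁻¹ * bt T u t (Real.log n))‖ ≤
      ((∑ d ∈ SQ R, |lam R d|) * (Real.exp (9 / 2) * Real.exp (3 * u - D ^ 2 / 8)) * wt T t) *
        (1 / (n : ℝ) ^ 2) := by
  have hw := H385.wt_nonneg T t hT
  have hS : 0 ≤ ∑ d ∈ SQ R, |lam R d| := Finset.sum_nonneg fun _ _ => abs_nonneg _
  rcases hn with rfl | hn
  · simp
  rcases Nat.eq_zero_or_pos n with rfl | hn0
  · simp
  have hn1 : (0 : ℝ) < n := by exact_mod_cast hn0
  rw [norm_mul, norm_mul, norm_mul, Complex.norm_real, Real.norm_eq_abs, norm_inv,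
    Complex.norm_real, Real.norm_eq_abs, abs_of_nonneg (Real.sqrt_nonneg _)]
  have h1 := H385.bt_norm T u t (Real.log n) hT
  have hpi : 1 / Real.sqrt (2 * Real.pi) ≤ 1 := by
    rw [div_le_one (Real.sqrt_pos.2 (by positivity))]
    refine Real.one_le_sqrt.2 ?_
    linarith [Real.pi_gt_three]
  have h2 : 1 / Real.sqrt (2 * Real.pi) * Real.exp (-(u - Real.log n) ^ 2 / 4) * wt T t ≤
      Real.exp (-(u - Real.log n) ^ 2 / 4) * wt T t := by
    refine mul_le_mul_of_nonneg_right ?_ hw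
    exact mul_le_of_le_one_left (Real.exp_pos _).le hpi
  have h3 : (Real.sqrt n)⁻¹ = Real.exp (-(Real.log n / 2)) := by
    rw [Real.exp_neg, Real.exp_half, Real.exp_log hn1]
  have h4 : 1 / (n : ℝ) ^ 2 = Real.exp (-(2 * Real.log n)) := by
    rw [Real.exp_neg, two_mul, Real.exp_add, Real.exp_log hn1, one_div, pow_two]
  have h5 := gauss_le hu hn
  calc |gg R n| * ‖z‖ * ((Real.sqrt n)⁻¹ * ‖bt T u t (Real.log n)‖) ≤
      (∑ d ∈ SQ R, |lam R d|) * 1 * ((Real.sqrt n)⁻¹ *
        (Real.exp (-(u - Real.log n) ^ 2 / 4) * wt T t)) := by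
        refine mul_le_mul (mul_le_mul (gg_le R n) hz (norm_nonneg _) hS) ?_ (by positivity)
          (by positivity)
        exact mul_le_mul_of_nonneg_left (h1.trans h2) (by positivity)
    _ = (∑ d ∈ SQ R, |lam R d|) * (Real.exp (-(u - Real.log n) ^ 2 / 4) *
        Real.exp (-(Real.log n / 2))) * wt T t := by
        rw [h3]
        ring
    _ ≤ (∑ d ∈ SQ R, |lam R d|) * (Real.exp (9 / 2) * Real.exp (3 * u - D ^ 2 / 8) *
        Real.exp (-(2 * Real.log n))) * wt T t :=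
        mul_le_mul_of_nonneg_right (mul_le_mul_of_nonneg_left h5 hS) hw
    _ = _ := by
        rw [h4]
        ring

/-- **Leaf 4.** -/
theorem tail_main : S_tail := by
  have hsum : Summable fun n : ℕ => 1 / (n : ℝ) ^ 2 :=
    Real.summable_one_div_nat_pow.2 (by norm_num)
  have hK : 0 ≤ ∑' n : ℕ, 1 / (n : ℝ) ^ 2 := tsum_nonneg fun n => by positivity
  refine ⟨Real.exp (9 / 2) * ((∑' n : ℕ, 1 / (n : ℝ) ^ 2) + 1), by positivity, ?_⟩
  intro R u D T t z hu hD hT hz
  have hw := H385.wt_nonneg T t hT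
  have hS : 0 ≤ ∑ d ∈ SQ R, |lam R d| := Finset.sum_nonneg fun _ _ => abs_nonneg _
  set f : ℕ → ℂ := fun n => ((gg R n : ℂ) * z n) * ((Real.sqrt n : ℂ)⁻¹ * bt T u t (Real.log n))
    with hf
  have hfs : Summable f := by
    refine Summable.of_norm_bounded (hsum.mul_left ((∑ d ∈ SQ R, |lam R d|) *
      (Real.exp (9 / 2) * Real.exp (3 * u - 0 ^ 2 / 8)) * wt T t)) fun n => ?_
    exact term_le (D := 0) hu hT (hz n)
      (Or.inr (le_of_eq_of_le (by norm_num) (sq_nonneg (u - Real.log n))))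
  have hg : ∑ n ∈ PN u D, f n = ∑' n, if n ∈ PN u D then f n else 0 := by
    rw [tsum_eq_sum (s := PN u D) fun n hn => if_neg hn]
    exact Finset.sum_congr rfl fun n hn => (if_pos hn).symm
  have hgs : Summable fun n => if n ∈ PN u D then f n else 0 :=
    summable_of_ne_finset_zero (s := PN u D) fun n hn => if_neg hn
  have hdiff : (∑' n, f n) - ∑ n ∈ PN u D, f n = ∑' n, (f n - if n ∈ PN u D then f n else 0) := by
    rw [hg, hfs.tsum_sub hgs]
  show ‖(∑' n, f n) - ∑ n ∈ PN u D, f n‖ ≤ _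
  rw [hdiff]
  have hb : ∀ n, ‖f n - if n ∈ PN u D then f n else 0‖ ≤ ((∑ d ∈ SQ R, |lam R d|) *
      (Real.exp (9 / 2) * Real.exp (3 * u - D ^ 2 / 8)) * wt T t) * (1 / (n : ℝ) ^ 2) := by
    intro n
    by_cases hn : n ∈ PN u D
    · rw [if_pos hn, sub_self, norm_zero]
      positivity
    · rw [if_neg hn, sub_zero]
      refine term_le hu hT (hz n) ?_
      rcases Nat.eq_zero_or_pos n with h0 | h0
      · exact Or.inl h0
      · right
        have hn1 : (0 : ℝ) < n := by exact_mod_cast h0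
        have h1 : D ≤ |u - Real.log n| := by
          by_contra hlt
          push Not at hlt
          apply hn
          unfold PN
          rw [Finset.mem_filter, Finset.mem_Icc]
          rw [abs_sub_comm] at hlt
          refine ⟨⟨h0, ?_⟩, hlt.le⟩
          refine Nat.le_floor ?_
          rw [← Real.exp_log hn1]
          refine Real.exp_le_exp.2 ?_
          linarith [(abs_lt.1 hlt).2]
        rw [← sq_abs (u - Real.log n)]
        exact pow_le_pow_left₀ hD h1 2
  refine (tsum_of_norm_bounded (hsum.hasSum.mul_left _) hb).trans ?_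
  have h2 : 0 ≤ (∑ d ∈ SQ R, |lam R d|) * Real.exp (3 * u - D ^ 2 / 8) * wt T t *
    Real.exp (9 / 2) := by positivity
  nlinarith

end Pool.Agent.H440.OZ.LTail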