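import Pool.Agent.H440.OZ.Stm3
import Pool.Graph.R_pool_sql_team_seeded_63374d34.N880.HD.Fin

/-!
Project OZ (helper440), step A1 (helper894): transfer to Farey fractions and the windowed
additive large sieve.
-/

set_option autoImplicit false

open Complex Filter Topology MeasureTheory Set

namespace Pool.Agent.H440.OZ.LWin

open H385 (c0 primFam bt wt Rw WW SS ee hP)
open Pool.Agent.H440.OZ

lemma aw_nonneg (P : ℕ) (i : ℕ × ℕ) : 0 ≤ aw P i := by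
  unfold aw
  exact div_nonneg (div_nonneg (H385.Flat.hP_nonneg _ _) (by positivity))
    (Finset.prod_nonneg fun p hp =>
      le_trans zero_le_one (H385.Flat.kp_one_le p (Nat.prime_of_mem_primeFactors hp)))

lemma mem_PN {u D : ℝ} {n : ℕ} (h : n ∈ PN u D) : 1 ≤ n ∧ |Real.log n - u| ≤ D := by
  unfold PN at h
  rw [Finset.mem_filter, Finset.mem_Icc] at h
  exact ⟨h.1.1, h.2⟩

lemma card_PN (u D : ℝ) : ((PN u D).card : ℝ) ≤ Real.exp (u + D) := by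
  have h1 : (PN u D).card ≤ ⌊Real.exp (u + D)⌋₊ := by
    unfold PN
    refine (Finset.card_filter_le _ _).trans ?_
    rw [Nat.card_Icc]
    omega
  have h2 : ((PN u D).card : ℝ) ≤ (⌊Real.exp (u + D)⌋₊ : ℝ) := by exact_mod_cast h1
  exact h2.trans (Nat.floor_le (Real.exp_pos _).le)

/-- the block estimate for the integers in a short logarithmic block -/
theorem blk_est {e0 ε W : ℝ} {X Y P : ℕ}
    (hp : ∀ (M H : ℕ) (b : ℕ → ℂ), (H : ℝ) ≤ e0 * (X : ℝ) ^ 2 → (∀ n, n ≤ M → b n = 0) →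
      ∑ i ∈ AX P X Y, aw P i * ‖SS (M + H) b ((i.2 : ℝ) / i.1)‖ ^ 2 ≤
        (1 + ε) * W * ∑ n ∈ Finset.Icc 1 (M + H), ‖b n‖ ^ 2)
    (D u ρ : ℝ) (hρ : 0 < ρ) (hρ1 : ρ ≤ 1) (hW0 : 0 ≤ W) (hε : 0 ≤ ε)
    (hlen : 12 * ρ * Real.exp (u + D) + 1 ≤ e0 * (X : ℝ) ^ 2)
    (v : ℝ) (x : ℕ → ℂ) (hx : ∀ p : ℕ, ρ < |Real.log p - v| → x p = 0) :
    ∑ i ∈ AX P X Y, aw P i * ‖∑ n ∈ PN u D, ee (n * ((i.2 : ℝ) / i.1)) * x n‖ ^ 2 ≤
      (1 + ε) * W * ∑ n ∈ PN u D, ‖x n‖ ^ 2 := by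
  classical
  by_cases hex : ∃ p0 ∈ PN u D, |Real.log p0 - v| ≤ ρ
  · obtain ⟨p0, hp0, hpv⟩ := hex
    obtain ⟨g1, g3⟩ := mem_PN hp0
    have hv : v ≤ u + D + ρ := by
      have h1 := (abs_le.1 hpv).1
      have h2 := (abs_le.1 g3).2
      linarith
    obtain ⟨M, H, h1, h2, h3⟩ := Pool.Agent.N880.HD.block_int (v := v) hρ hρ1
    set b : ℕ → ℂ := fun n => if n ∈ PN u D ∧ |Real.log n - v| ≤ ρ then x n else 0 with hb
    have hHlen : (H : ℝ) ≤ e0 * (X : ℝ) ^ 2 := by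
      refine h3.trans (le_trans ?_ hlen)
      have e1 : Real.exp v ≤ 3 * Real.exp (u + D) := by
        calc Real.exp v ≤ Real.exp (u + D + 1) := Real.exp_le_exp.2 (by linarith)
          _ = Real.exp (u + D) * Real.exp 1 := Real.exp_add _ _
          _ ≤ Real.exp (u + D) * 3 :=
            mul_le_mul_of_nonneg_left (by linarith [Real.exp_one_lt_d9]) (Real.exp_pos _).le
          _ = _ := by ring
      have := mul_le_mul_of_nonneg_left e1 (show 0 ≤ 4 * ρ by positivity)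
      linarith
    have hbn : ∀ n, b n ≠ 0 → n ∈ PN u D ∧ |Real.log n - v| ≤ ρ := by
      intro n hn
      by_contra hcon
      exact hn (by simp only [hb]; rw [if_neg hcon])
    have hmem : ∀ n, b n ≠ 0 → n ∈ Finset.Icc 1 (M + H) ∧ M < n := by
      intro n hn
      obtain ⟨k1, k2⟩ := hbn n hn
      obtain ⟨k3, k5⟩ := mem_PN k1
      have hn0 : (0 : ℝ) < n := by exact_mod_cast k3
      have k6 := abs_le.1 k2
      have k7 : Real.exp (v - ρ) ≤ n := by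
        rw [← Real.le_log_iff_exp_le hn0]; linarith [k6.1]
      have k8 : (n : ℝ) ≤ Real.exp (v + ρ) := by
        rw [← Real.log_le_iff_le_exp hn0]; linarith [k6.2]
      refine ⟨Finset.mem_Icc.2 ⟨k3, h2 n k8⟩, ?_⟩
      by_contra hcon
      have := h1 n (by omega)
      linarith
    have h4 := hp M H b hHlen (fun n hn => by
        by_contra hcon
        have := (hmem n hcon).2
        omega)
    -- compare sums
    have hsum : ∀ (f : ℕ → ℂ → ℂ), (∀ n, f n 0 = 0) →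
        ∑ p ∈ PN u D, f p (x p) = ∑ n ∈ Finset.Icc 1 (M + H), f n (b n) := by
      intro f hf
      have e1 : ∑ p ∈ PN u D, f p (x p) = ∑ p ∈ PN u D, f p (b p) := by
        refine Finset.sum_congr rfl fun p hpp => ?_
        by_cases hc : |Real.log p - v| ≤ ρ
        · simp only [hb]; rw [if_pos ⟨hpp, hc⟩]
        · have hb0 : b p = 0 := by simp only [hb]; rw [if_neg (fun h => hc h.2)]
          rw [hb0, hx p (not_le.1 hc)]
      rw [e1]
      have e2 : ∑ p ∈ PN u D, f p (b p) =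
          ∑ p ∈ PN u D ∪ Finset.Icc 1 (M + H), f p (b p) := by
        refine Finset.sum_subset Finset.subset_union_left fun n _ hn => ?_
        have : b n = 0 := by
          by_contra hcon
          exact hn (hbn n hcon).1
        rw [this, hf]
      have e3 : ∑ n ∈ Finset.Icc 1 (M + H), f n (b n) =
          ∑ p ∈ PN u D ∪ Finset.Icc 1 (M + H), f p (b p) := by
        refine Finset.sum_subset Finset.subset_union_right fun n _ hn => ?_
        have : b n = 0 := by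
          by_contra hcon
          exact hn (hmem n hcon).1
        rw [this, hf]
      rw [e2, e3]
    have hsumR : ∑ p ∈ PN u D, ‖x p‖ ^ 2 = ∑ n ∈ Finset.Icc 1 (M + H), ‖b n‖ ^ 2 := by
      have := hsum (fun _ z => ((‖z‖ ^ 2 : ℝ) : ℂ)) (fun n => by simp)
      have h5 : ((∑ p ∈ PN u D, ‖x p‖ ^ 2 : ℝ) : ℂ) =
        ((∑ n ∈ Finset.Icc 1 (M + H), ‖b n‖ ^ 2 : ℝ) : ℂ) := by
        push_cast
        push_cast at this
        exact this
      exact_mod_cast h5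
    rw [hsumR]
    refine le_trans (le_of_eq (Finset.sum_congr rfl fun i _ => ?_)) h4
    rw [hsum (fun n z => ee (n * ((i.2 : ℝ) / i.1)) * z) (fun n => by simp)]
    have e4 : ∑ n ∈ Finset.Icc 1 (M + H), ee (n * ((i.2 : ℝ) / i.1)) * b n =
        SS (M + H) b ((i.2 : ℝ) / i.1) := by
      unfold SS
      exact Finset.sum_congr rfl fun n _ => mul_comm _ _
    rw [e4]
  · push Not at hex
    have h1 : ∀ p ∈ PN u D, x p = 0 := fun p hpp => hx p (hex p hpp)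
    have h2 : ∀ i : ℕ × ℕ, ∑ p ∈ PN u D, ee (p * ((i.2 : ℝ) / i.1)) * x p = 0 :=
      fun i => Finset.sum_eq_zero fun p hpp => by rw [h1 p hpp, mul_zero]
    have h3 : ∑ i ∈ AX P X Y, aw P i *
        ‖∑ p ∈ PN u D, ee (p * ((i.2 : ℝ) / i.1)) * x p‖ ^ 2 = 0 :=
      Finset.sum_eq_zero fun i _ => by rw [h2 i]; simp
    rw [h3]
    exact mul_nonneg (mul_nonneg (by linarith) hW0) (Finset.sum_nonneg fun _ _ => by positivity)

/-- Step A1 -/
theorem winA_main (hadd : S_add) : S_winA := by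
  intro τ s hτ hs hs1
  obtain ⟨δ, hδ⟩ : ∃ δ, δ = s / 20 := ⟨_, rfl⟩
  have hδ0 : 0 < δ := by rw [hδ]; positivity
  have hδ1 : δ ≤ 1 := by rw [hδ]; linarith
  have hδs : δ ≤ s := by rw [hδ]; linarith
  obtain ⟨P, B, K, e0, hP1, hB1, hK1, he0, hp⟩ := hadd δ hδ0 hδ1
  obtain ⟨Cg, hCg, hg⟩ := Pool.Agent.N880.HD.gauss_main δ hδ0
  obtain ⟨C2, κ0, d0, hC2, hκ0, hd0, hw⟩ := Pool.Agent.N880.HD.winC_main δ hδ0
  obtain ⟨L1, hL1⟩ := Pool.Agent.N880.HD.thr (κ0 := κ0) (d0 := d0) hs he0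
    (show 0 < 10 * Cg by positivity) hδ0
  refine ⟨P, B, K, 10 * C2, max 3 (max (Real.exp L1) (2 / e0)), hP1, hB1, hK1, by positivity,
    le_max_left _ _, ?_⟩
  intro X Y hX hKX
  have hX3 : (3 : ℝ) ≤ X := (le_max_left _ _).trans hX
  have hXL1 : Real.exp L1 ≤ X := ((le_max_left _ _).trans (le_max_right _ _)).trans hX
  have hXe0 : 2 / e0 ≤ X := ((le_max_right _ _).trans (le_max_right _ _)).trans hX
  have hX0 : (0 : ℝ) < X := by linarith
  have hXn : 1 ≤ X := by exact_mod_cast hX0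
  have hW0 : 0 ≤ WW X Y := H385.primFam_nonneg _ _ _ (fun _ _ => zero_le_one)
  obtain ⟨hp1, hp2, hp3⟩ := hp X Y hXn hKX
  refine ⟨fun N b hb => (hp2 N b hb).trans ?_, hp3, ?_⟩
  · refine add_le_add (mul_le_mul_of_nonneg_right (by linarith)
      (Finset.sum_nonneg fun i _ => mul_nonneg (aw_nonneg _ _) (by positivity))) ?_
    exact mul_le_mul_of_nonneg_right (mul_le_mul_of_nonneg_right hδs hW0)
      (Finset.sum_nonneg fun _ _ => by positivity)
  intro T u hT1 hTL hTX hu0 hu x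
  have hT0 : 0 < T := by linarith
  obtain ⟨lX, hlX⟩ : ∃ lX, lX = Real.log X := ⟨_, rfl⟩
  obtain ⟨lT, hlT⟩ : ∃ lT, lT = Real.log T := ⟨_, rfl⟩
  have hLeq : Real.log (X * T) = lX + lT := by
    rw [Real.log_mul hX0.ne' hT0.ne', hlX, hlT]
  obtain ⟨L, hL⟩ : ∃ L, L = Real.log (X * T) := ⟨_, rfl⟩
  rw [← hL] at hTL hu ⊢
  rw [← hL] at hLeq
  have hlT0 : 0 ≤ lT := by rw [hlT]; exact Real.log_nonneg hT1
  have hlX1 : L1 ≤ lX := by rw [hlX, Real.le_log_iff_exp_le hX0]; exact hXL1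
  have hlX0 : 0 ≤ lX := by rw [hlX]; exact Real.log_nonneg (by linarith)
  have hlTX : lT ≤ τ * lX := by
    have := Real.log_le_log hT0 hTX
    rw [Real.log_rpow hX0] at this
    rw [hlT, hlX]; exact this
  obtain ⟨t1, t2, t3, t4, t5⟩ := hL1 L (by linarith)
  have hL0 : 0 < L := by linarith
  have hh1 : 1 ≤ (2 + τ) / (1 + τ) := by
    rw [le_div_iff₀ (by linarith)]; linarith
  have hh2 : (2 + τ) / (1 + τ) ≤ 2 := by
    rw [div_le_iff₀ (by linarith)]; linarith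
  have hhL : (2 + τ) / (1 + τ) * L ≤ 2 * lX + lT := by
    rw [div_mul_eq_mul_div, div_le_iff₀ (by linarith), hLeq]
    have e : (2 * lX + lT) * (1 + τ) = (2 + τ) * (lX + lT) + (τ * lX - lT) := by ring
    rw [e]
    exact le_add_of_nonneg_right (sub_nonneg.2 hlTX)
  have hu2 : u ≤ (2 + τ) / (1 + τ) * L - s * L := by
    have e1 : (1 - s) * ((2 + τ) / (1 + τ)) * L =
      (2 + τ) / (1 + τ) * L - s * ((2 + τ) / (1 + τ) * L) := by ring
    have e2 : L ≤ (2 + τ) / (1 + τ) * L := le_mul_of_one_le_left hL0.le hh1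
    have e3 := mul_le_mul_of_nonneg_left e2 hs.le
    linarith
  have hsL : 0 ≤ s * L := by positivity
  have hu2L : u ≤ 2 * L := by
    have := mul_le_mul_of_nonneg_right hh2 hL0.le
    linarith
  have hexp1 : u + s / 4 * L ≤ 2 * lX + lT - 3 / 4 * s * L := by linarith
  have hexp2 : u + s / 4 * L ≤ 3 * L := by
    have : s * L ≤ 1 / 2 * L := mul_le_mul_of_nonneg_right hs1 hL0.le
    linarith
  obtain ⟨Q, hQ⟩ : ∃ Q, Q = PN u (s / 4 * L) := ⟨_, rfl⟩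
  have hcard : (Q.card : ℝ) ≤ Real.exp (3 * L) := by
    rw [hQ]
    exact (card_PN _ _).trans (Real.exp_le_exp.2 hexp2)
  -- parameters
  obtain ⟨κ, hκ⟩ : ∃ κ, κ = T / L := ⟨_, rfl⟩
  obtain ⟨ρ, hρ⟩ : ∃ ρ, ρ = L ^ 2 / T := ⟨_, rfl⟩
  have hκL : L ≤ κ := by
    rw [hκ, le_div_iff₀ hL0, ← pow_two]; exact hTL
  have hκ1 : 0 < κ := by linarith
  have hκd : κ ≤ d0 * T := by
    rw [hκ, div_le_iff₀ hL0]
    have : 1 ≤ d0 * L := by
      rw [div_le_iff₀ hd0, mul_comm] at t4; exact t4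
    calc T = T * 1 := (mul_one T).symm
      _ ≤ T * (d0 * L) := mul_le_mul_of_nonneg_left this hT0.le
      _ = _ := by ring
  have hρ0 : 0 < ρ := by rw [hρ]; positivity
  have hρ1 : ρ ≤ 1 := by rw [hρ, div_le_one hT0]; exact hTL
  have hκρ : κ * ρ = L := by rw [hκ, hρ]; field_simp
  have hlen : 12 * ρ * Real.exp (u + s / 4 * L) + 1 ≤ e0 * (X : ℝ) ^ 2 := by
    have e1 : Real.exp (u + s / 4 * L) ≤ (X : ℝ) ^ 2 * T * Real.exp (-(3 / 4 * s * L)) := by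
      refine (Real.exp_le_exp.2 hexp1).trans (le_of_eq ?_)
      rw [show 2 * lX + lT - 3 / 4 * s * L = lX + lX + lT + -(3 / 4 * s * L) by ring,
        Real.exp_add, Real.exp_add, Real.exp_add, hlX, hlT, Real.exp_log hX0, Real.exp_log hT0]
      ring
    have e2 : 12 * ρ * Real.exp (u + s / 4 * L) ≤ e0 / 2 * (X : ℝ) ^ 2 := by
      calc _ ≤ 12 * ρ * ((X : ℝ) ^ 2 * T * Real.exp (-(3 / 4 * s * L))) :=
            mul_le_mul_of_nonneg_left e1 (by positivity)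
        _ = (12 * L ^ 2 * Real.exp (-(3 / 4 * s * L))) * (X : ℝ) ^ 2 := by
            rw [hρ]; field_simp
        _ ≤ _ := mul_le_mul_of_nonneg_right t1 (by positivity)
    have e3 : 1 ≤ e0 / 2 * (X : ℝ) ^ 2 := by
      rw [div_le_iff₀ he0] at hXe0
      have e4 : (X : ℝ) * e0 * 1 ≤ X * e0 * X :=
        mul_le_mul_of_nonneg_left (by linarith) (by positivity)
      have e5 : e0 / 2 * (X : ℝ) ^ 2 = X * e0 * X / 2 := by ring
      rw [e5]
      linarith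
    linarith
  obtain ⟨W, hWd⟩ : ∃ W, W = WW X Y := ⟨_, rfl⟩
  rw [← hWd] at hW0 hp3 hp1 ⊢
  have hω : ∀ i ∈ AX P X Y, 0 ≤ aw P i := fun i _ => aw_nonneg P i
  have hz : ∀ (i : ℕ × ℕ) (n : ℕ),
      ‖(fun (i : ℕ × ℕ) (n : ℕ) => ee (n * ((i.2 : ℝ) / i.1))) i n‖ ≤ 1 :=
    fun i n => (H385.ee_norm _).le
  -- kernel estimate
  have hker := hg (ℕ × ℕ) ℕ (AX P X Y) (aw P)
    (fun i n => ee (n * ((i.2 : ℝ) / i.1))) Q (fun p => Real.log p) ((1 + δ) * W) κ ρ hω hz hκ1 hρ0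
    (by positivity) (fun v x hx => by
      rw [hQ]
      exact blk_est hp1 (s / 4 * L) u ρ hρ0 hρ1 hW0 hδ0.le hlen v x hx)
  rw [hκρ] at hker
  have hS0 : 0 ≤ ∑ i ∈ AX P X Y, aw P i := Finset.sum_nonneg hω
  obtain ⟨A, hA⟩ : ∃ A, A = (1 + δ) * ((1 + δ) * W) + δ * W := ⟨_, rfl⟩
  have hA0 : 0 ≤ A := by rw [hA]; positivity
  have hker2 : ∀ x : ℕ → ℂ, ∑ i ∈ AX P X Y, aw P i *
      (∑ p ∈ Q, ∑ q ∈ Q, (ee (p * ((i.2 : ℝ) / i.1)) * x p) *
        (starRingEnd ℂ) (ee (q * ((i.2 : ℝ) / i.1)) * x q) *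
        ((Real.exp (-(κ ^ 2 * (Real.log p - Real.log q) ^ 2 / 4)) : ℝ) : ℂ)).re ≤
      A * ∑ p ∈ Q, ‖x p‖ ^ 2 := by
    intro x
    refine (hker x).trans ?_
    refine mul_le_mul_of_nonneg_right ?_ (Finset.sum_nonneg fun _ _ => by positivity)
    rw [hA]
    have e1 : Cg * (∑ i ∈ AX P X Y, aw P i) * Q.card * Real.exp (-L ^ 2 / 2) ≤ δ * W := by
      calc _ ≤ Cg * (10 * W) * Real.exp (3 * L) * Real.exp (-L ^ 2 / 2) := by gcongr
        _ = (10 * Cg * (Real.exp (3 * L) * Real.exp (-L ^ 2 / 2))) * W := by ring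
        _ ≤ _ := mul_le_mul_of_nonneg_right t2 hW0
    linarith
  -- window lemma
  have hwin1 := hw (ℕ × ℕ) ℕ (AX P X Y) (aw P)
    (fun i n => ee (n * ((i.2 : ℝ) / i.1))) Q (fun p => Real.log p) x A κ T u
    hω hz (fun p _ => Real.log_natCast_nonneg p) (t3.trans hκL) hκd hA0 hker2
  rw [← hQ]
  refine hwin1.trans ?_
  have hTp : 0 ≤ T / (2 * Real.pi) := by positivity
  obtain ⟨Sa, hSa⟩ : ∃ Sa, Sa = ∑ p ∈ Q, ‖x p‖ ^ 2 * Real.exp (-(u - Real.log p) ^ 2) := ⟨_, rfl⟩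
  obtain ⟨Sb, hSb⟩ : ∃ Sb, Sb = ∑ p ∈ Q, ‖x p‖ ^ 2 * Real.exp (-(u - Real.log p) ^ 2 / 2) :=
    ⟨_, rfl⟩
  obtain ⟨Sc, hSc⟩ : ∃ Sc, Sc = (∑ p ∈ Q, ‖x p‖) ^ 2 := ⟨_, rfl⟩
  rw [← hSa, ← hSb, ← hSc]
  have hSa0 : 0 ≤ Sa := by rw [hSa]; exact Finset.sum_nonneg fun _ _ => by positivity
  have hSb0 : 0 ≤ Sb := by rw [hSb]; exact Finset.sum_nonneg fun _ _ => by positivity
  have hSc0 : 0 ≤ Sc := by rw [hSc]; positivity
  have hd2 : δ ≤ 1 / 40 := by rw [hδ]; linarith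
  have hδδ : δ * δ ≤ 1 / 40 * δ := mul_le_mul_of_nonneg_right hd2 hδ0.le
  have hAle : (1 + δ) * A ≤ (1 + s) * W := by
    have hA1 : (1 + δ) * (1 + δ) + δ ≤ 1 + 4 * δ := by
      have e : (1 + δ) * (1 + δ) + δ = 1 + 3 * δ + δ * δ := by ring
      linarith
    have h2 : (1 + δ) * ((1 + δ) * (1 + δ) + δ) ≤ 1 + s := by
      have e2 : (1 + δ) * ((1 + δ) * (1 + δ) + δ) ≤ (1 + δ) * (1 + 4 * δ) :=
        mul_le_mul_of_nonneg_left hA1 (by positivity)
      have e3 : (1 + δ) * (1 + 4 * δ) ≤ 1 + 8 * δ := by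
        have e : (1 + δ) * (1 + 4 * δ) = 1 + 5 * δ + 4 * (δ * δ) := by ring
        linarith
      have e4 : 8 * δ ≤ s := by rw [hδ] at hδ0 ⊢; linarith
      linarith
    rw [hA]
    calc _ = ((1 + δ) * ((1 + δ) * (1 + δ) + δ)) * W := by ring
      _ ≤ _ := mul_le_mul_of_nonneg_right h2 hW0
  have hA10 : A ≤ 10 * W := by
    have h2 : (1 + δ) * (1 + δ) + δ ≤ 10 := by
      have e : (1 + δ) * (1 + δ) + δ = 1 + 3 * δ + δ * δ := by ring
      linarith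
    rw [hA]
    calc _ = ((1 + δ) * (1 + δ) + δ) * W := by ring
      _ ≤ _ := mul_le_mul_of_nonneg_right h2 hW0
  have b1 : (1 + δ) * A * (T / (2 * Real.pi)) * Sa ≤ (1 + s) * W * (T / (2 * Real.pi)) * Sa := by
    gcongr
  have b2 : C2 * A * κ * Sb ≤ 10 * C2 * W * (T / L) * Sb := by
    rw [← hκ]
    have : C2 * A * κ * Sb = A * (C2 * κ * Sb) := by ring
    rw [this]
    calc _ ≤ (10 * W) * (C2 * κ * Sb) := mul_le_mul_of_nonneg_right hA10 (by positivity)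
      _ = _ := by ring
  have b3 : C2 * (∑ i ∈ AX P X Y, aw P i) * T * Real.exp (-κ ^ 2 / 16) * Sc ≤
      10 * C2 * W * T * Real.exp (-L ^ 2 / 16) * Sc := by
    have h5 : Real.exp (-κ ^ 2 / 16) ≤ Real.exp (-L ^ 2 / 16) := by
      apply Real.exp_le_exp.2
      have : L ^ 2 ≤ κ ^ 2 := pow_le_pow_left₀ hL0.le hκL 2
      linarith
    calc _ ≤ C2 * (10 * W) * T * Real.exp (-L ^ 2 / 16) * Sc := by gcongr
      _ = _ := by ring
  linarith

end Pool.Agent.H440.OZ.LWin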