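import Pool.Agent.H440.OZ.Add
import Pool.Agent.H440.OZ.LExp
import Pool.Agent.H440.OZ.LNeg
import Pool.Agent.H440.OZ.LNegbt
import Pool.Agent.H440.OZ.LTail
import Pool.Agent.H440.OZ.LMer
import Pool.Agent.H440.OZ.LNum
import Pool.Agent.H440.OZ.LWin
import Pool.Agent.H440.OZ.LCoef
import Pool.Agent.H440.OZ.LSmall
import Pool.Agent.H440.OZ.LHigh
import Pool.Agent.H440.OZ.LMsN
import Pool.Agent.H440.OZ.LCore
import Pool.Graph.R_pool_sql_team_seeded_63374d34.N880.HD.Fin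

/-!
Project OZ (helper440): assembly.
-/

set_option autoImplicit false

open Complex Filter Topology MeasureTheory Set

namespace Pool.Agent.H440.OZ

open H385 (c0 primFam bt wt Rw WW IX primSet primFam_eq mem_primSet LF LF_eq Rw_nonneg)
open H370 (NN Nd Ns)

theorem coreN : S_coreN :=
  LCore.core_mainN (LMsN.msN_main
    (LHigh.high_main (LWin.winA_main add_main) (LCoef.coef_main LMer.mer_main)
      (LSmall.small_main (LNegbt.negbt_main (LNeg.neg_main LExp.exp_main)) LTail.tail_main))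
    (Pool.Agent.N880.HD.ms_main (Pool.Agent.N880.HD.prim_main Pool.Agent.N880.HD.block_main
      Pool.Agent.N880.HD.cop_main) Pool.Agent.N880.HD.gauss_main Pool.Agent.N880.HD.winC_main
      Pool.Agent.N880.QF.Rest.rest_main))

/-- The proportions of simple critical zeros and of distinct zeros. -/
theorem fin_main (τ γ ε : ℝ) (hτ : 0 ≤ τ) (hγ : 0 < γ) (hγπ : γ < Real.pi) (hε : 0 < ε) :
    ∃ K η X0 : ℝ, 1 ≤ K ∧ 0 < η ∧ 1 ≤ X0 ∧
    ∀ (X Y : ℕ) (T : ℝ), X0 ≤ X → K * X ≤ Y → (Y : ℝ) ≤ (X : ℝ) ^ (1 + η) →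
      4 * (Real.log X) ^ 2 ≤ T → T ≤ (X : ℝ) ^ τ →
      (2 - cN ((2 + τ) / (1 + τ)) γ - ε) *
          primFam X Y (fun q χ => (NN (LF q χ) T (2 * T) : ℝ)) ≤
        primFam X Y (fun q χ => (Ns (LF q χ) T (2 * T) : ℝ)) ∧
      (3 - cN ((2 + τ) / (1 + τ)) γ - ε) / 2 *
          primFam X Y (fun q χ => (NN (LF q χ) T (2 * T) : ℝ)) ≤
        primFam X Y (fun q χ => (Nd (LF q χ) T (2 * T) : ℝ)) := by
  have hh1 : 1 ≤ (2 + τ) / (1 + τ) := by
    rw [le_div_iff₀ (by linarith)]; linarith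
  have hnum := LNum.num1_main ((2 + τ) / (1 + τ)) γ hh1 hγ hγπ
  obtain ⟨K, η, X0, hK, hη, hX0, H⟩ := coreN τ γ (cN ((2 + τ) / (1 + τ)) γ + ε) hτ hγ hγπ (by
    rw [hnum]; linarith)
  refine ⟨K, η, X0, hK, hη, hX0, ?_⟩
  intro X Y T a1 a2 a3 a4 a5
  obtain ⟨k1, k2⟩ := H X Y T a1 a2 a3 a4 a5
  have e1 := Pool.Agent.N880.HD.primFam_lin X Y 2 1 (fun q χ => (NN (LF q χ) T (2 * T) : ℝ))
    (fun q χ => (Ns (LF q χ) T (2 * T) : ℝ))
  have e2 := Pool.Agent.N880.HD.primFam_lin X Y 3 2 (fun q χ => (NN (LF q χ) T (2 * T) : ℝ))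
    (fun q χ => (Nd (LF q χ) T (2 * T) : ℝ))
  simp only [one_mul] at e1
  rw [e1] at k1
  rw [e2] at k2
  constructor
  · linarith
  · linarith

end Pool.Agent.H440.OZ
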