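import Mathlib

/-!
Project OZ (helper440): the sums `∑ 1/k exp(-c (u - log k)²)`.
-/

set_option autoImplicit false

open Finset Real MeasureTheory Filter Topology

namespace Pool.Agent.H440.OZ

/-- the summand -/
noncomputable def Fc (c u x : ℝ) : ℝ := x⁻¹ * Real.exp (-c * (u - Real.log x) ^ 2)

lemma Fc_nonneg (c u : ℝ) {x : ℝ} (hx : 0 ≤ x) : 0 ≤ Fc c u x := by
  unfold Fc; positivity

/-- bound of `e^{w - c w²} (2 c |w| + 1)` -/
lemma wb {c : ℝ} (hc : 0 < c) : ∃ C : ℝ, 0 < C ∧ ∀ w : ℝ,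
    Real.exp (w - c * w ^ 2) * (2 * c * |w| + 1) * (1 + w ^ 2) ≤ C := by
  refine ⟨(2 * c + 1) * (Real.exp ((4 : ℝ) ^ 2 / (4 * c))), by positivity, fun w => ?_⟩
  have h1 : (2 * c * |w| + 1) * (1 + w ^ 2) ≤ (2 * c + 1) * Real.exp (3 * |w|) := by
    have h2 : 0 ≤ |w| := abs_nonneg w
    have h3 : 1 + |w| ≤ Real.exp |w| := by linarith [Real.add_one_le_exp |w|]
    have h4 : 2 * c * |w| + 1 ≤ (2 * c + 1) * (1 + |w|) := by nlinarith
    have h5 : 1 + w ^ 2 ≤ (1 + |w|) ^ 2 := by rw [← sq_abs w]; nlinarith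
    have h6 : (1 + |w|) ^ 3 ≤ Real.exp (3 * |w|) := by
      have : Real.exp (3 * |w|) = (Real.exp |w|) ^ 3 := by rw [← Real.exp_nat_mul]; norm_num
      rw [this]
      exact pow_le_pow_left₀ (by linarith) h3 3
    calc _ ≤ ((2 * c + 1) * (1 + |w|)) * (1 + |w|) ^ 2 := by gcongr
      _ = (2 * c + 1) * (1 + |w|) ^ 3 := by ring
      _ ≤ _ := mul_le_mul_of_nonneg_left h6 (by positivity)
  have h7 : Real.exp (w - c * w ^ 2) * Real.exp (3 * |w|) ≤ Real.exp ((4 : ℝ) ^ 2 / (4 * c)) := by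
    rw [← Real.exp_add]
    apply Real.exp_le_exp.2
    have h8 : w ≤ |w| := le_abs_self w
    have h9 : w ^ 2 = |w| ^ 2 := (sq_abs w).symm
    rw [h9, le_div_iff₀ (by positivity)]
    have h10 : (w - c * |w| ^ 2 + 3 * |w|) * (4 * c) ≤ (4 * |w| - c * |w| ^ 2) * (4 * c) :=
      mul_le_mul_of_nonneg_right (by linarith) (by positivity)
    refine h10.trans ?_
    nlinarith [sq_nonneg (2 * c * |w| - 4)]
  calc _ = Real.exp (w - c * w ^ 2) * ((2 * c * |w| + 1) * (1 + w ^ 2)) := by ring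
    _ ≤ Real.exp (w - c * w ^ 2) * ((2 * c + 1) * Real.exp (3 * |w|)) :=
        mul_le_mul_of_nonneg_left h1 (Real.exp_pos _).le
    _ = (2 * c + 1) * (Real.exp (w - c * w ^ 2) * Real.exp (3 * |w|)) := by ring
    _ ≤ _ := mul_le_mul_of_nonneg_left h7 (by positivity)

lemma Fc_hasDeriv (c u : ℝ) {x : ℝ} (hx : 0 < x) :
    HasDerivAt (Fc c u) ((x ^ 2)⁻¹ * Real.exp (-c * (u - Real.log x) ^ 2) *
      (2 * c * (u - Real.log x) - 1)) x := by
  unfold Fc
  have h1 : HasDerivAt (fun x : ℝ => -c * (u - Real.log x) ^ 2)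
      (-c * (2 * (u - Real.log x) * (-x⁻¹))) x := by
    have h2 := ((Real.hasDerivAt_log hx.ne').const_sub u).pow 2
    refine (h2.const_mul (-c)).congr_deriv ?_
    push_cast
    ring
  refine ((hasDerivAt_inv hx.ne').mul h1.exp).congr_deriv ?_
  field_simp
  ring

/-- the variation function -/
lemma Fc_var {c : ℝ} {C : ℝ}
    (hC : ∀ w : ℝ, Real.exp (w - c * w ^ 2) * (2 * c * |w| + 1) * (1 + w ^ 2) ≤ C)
    (hc : 0 < c) (u : ℝ) {x y : ℝ} (hx : 0 < x) (hxy : x ≤ y) :
    |Fc c u y - Fc c u x| ≤ C * Real.exp (-u) * (Real.arctan (Real.log y - u) -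
      Real.arctan (Real.log x - u)) := by
  have hV : ∀ z : ℝ, 0 < z → HasDerivAt (fun z => C * Real.exp (-u) * Real.arctan (Real.log z - u))
      (C * Real.exp (-u) * (1 / (1 + (Real.log z - u) ^ 2) * z⁻¹)) z := by
    intro z hz
    have h1 := ((Real.hasDerivAt_log hz.ne').sub_const u).arctan
    exact h1.const_mul _
  have hd : ∀ z : ℝ, 0 < z → |(z ^ 2)⁻¹ * Real.exp (-c * (u - Real.log z) ^ 2) *
      (2 * c * (u - Real.log z) - 1)| ≤
      C * Real.exp (-u) * (1 / (1 + (Real.log z - u) ^ 2) * z⁻¹) := by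
    intro z hz
    obtain ⟨w, hw⟩ : ∃ w, w = u - Real.log z := ⟨_, rfl⟩
    have hlog : Real.log z = u - w := by rw [hw]; ring
    have hzi : z⁻¹ = Real.exp (w - u) := by
      rw [← Real.exp_log hz, ← Real.exp_neg, hlog]; ring_nf
    have h1 : |2 * c * w - 1| ≤ 2 * c * |w| + 1 := by
      refine (abs_sub _ _).trans ?_
      rw [abs_mul, abs_of_pos (by positivity : 0 < 2 * c), abs_one]
    rw [← hw, abs_mul, abs_of_pos (by positivity), hlog]
    have h2 : (1 : ℝ) + (u - w - u) ^ 2 = 1 + w ^ 2 := by ring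
    rw [h2]
    have h3 := hC w
    have hw1 : 0 < 1 + w ^ 2 := by positivity
    have h4 : Real.exp (w - c * w ^ 2) * (2 * c * |w| + 1) ≤ C * (1 / (1 + w ^ 2)) := by
      rw [mul_one_div, le_div_iff₀ hw1]
      exact h3
    have h5 : (z ^ 2)⁻¹ * Real.exp (-c * w ^ 2) = Real.exp (w - c * w ^ 2) * Real.exp (-u) * z⁻¹ := by
      have : (z ^ 2)⁻¹ = z⁻¹ * z⁻¹ := by rw [sq, mul_inv]
      rw [this]
      nth_rewrite 1 [hzi]
      rw [← Real.exp_add]
      have : z⁻¹ * Real.exp (-c * w ^ 2) = Real.exp (-c * w ^ 2) * z⁻¹ := mul_comm _ _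
      rw [mul_assoc, this, ← mul_assoc, ← Real.exp_add]
      ring_nf
    rw [h5]
    calc _ ≤ Real.exp (w - c * w ^ 2) * Real.exp (-u) * z⁻¹ * (2 * c * |w| + 1) :=
          mul_le_mul_of_nonneg_left h1 (by positivity)
      _ = (Real.exp (w - c * w ^ 2) * (2 * c * |w| + 1)) * (Real.exp (-u) * z⁻¹) := by ring
      _ ≤ (C * (1 / (1 + w ^ 2))) * (Real.exp (-u) * z⁻¹) :=
          mul_le_mul_of_nonneg_right h4 (by positivity)
      _ = _ := by ring
  have hy : 0 < y := lt_of_lt_of_le hx hxy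
  have m1 : MonotoneOn (fun z => C * Real.exp (-u) * Real.arctan (Real.log z - u) - Fc c u z)
      (Set.Ioi 0) := by
    apply monotoneOn_of_deriv_nonneg (convex_Ioi 0)
    · intro z hz
      exact ((hV z hz).sub (Fc_hasDeriv c u hz)).continuousAt.continuousWithinAt
    · rw [interior_Ioi]
      intro z hz
      exact ((hV z hz).sub (Fc_hasDeriv c u hz)).differentiableAt.differentiableWithinAt
    · rw [interior_Ioi]
      intro z hz
      have hh : HasDerivAt (fun z => C * Real.exp (-u) * Real.arctan (Real.log z - u) - Fc c u z)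
          _ z := (hV z hz).sub (Fc_hasDeriv c u hz)
      rw [hh.deriv]
      have := (abs_le.1 (hd z hz)).2
      linarith
  have m2 : MonotoneOn (fun z => C * Real.exp (-u) * Real.arctan (Real.log z - u) + Fc c u z)
      (Set.Ioi 0) := by
    apply monotoneOn_of_deriv_nonneg (convex_Ioi 0)
    · intro z hz
      exact ((hV z hz).add (Fc_hasDeriv c u hz)).continuousAt.continuousWithinAt
    · rw [interior_Ioi]
      intro z hz
      exact ((hV z hz).add (Fc_hasDeriv c u hz)).differentiableAt.differentiableWithinAt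
    · rw [interior_Ioi]
      intro z hz
      have hh : HasDerivAt (fun z => C * Real.exp (-u) * Real.arctan (Real.log z - u) + Fc c u z)
          _ z := (hV z hz).add (Fc_hasDeriv c u hz)
      rw [hh.deriv]
      have := (abs_le.1 (hd z hz)).1
      linarith
  have k1 := m1 (Set.mem_Ioi.2 hx) (Set.mem_Ioi.2 hy) hxy
  have k2 := m2 (Set.mem_Ioi.2 hx) (Set.mem_Ioi.2 hy) hxy
  simp only at k1 k2
  rw [abs_le]
  constructor <;> linarith

/-- one-sided integral -/
noncomputable def Pc (c u x : ℝ) : ℝ := ∫ v in (0 : ℝ)..(Real.log x), Real.exp (-c * (u - v) ^ 2)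

lemma Pc_hasDeriv (c u : ℝ) {x : ℝ} (hx : 0 < x) : HasDerivAt (Pc c u) (Fc c u x) x := by
  have h1 : HasDerivAt (fun y => ∫ v in (0 : ℝ)..y, Real.exp (-c * (u - v) ^ 2))
      (Real.exp (-c * (u - Real.log x) ^ 2)) (Real.log x) := by
    apply intervalIntegral.integral_hasDerivAt_right
    · exact (by fun_prop : Continuous fun v : ℝ => Real.exp (-c * (u - v) ^ 2)).intervalIntegrable _ _
    · exact (by fun_prop : Continuous fun v : ℝ =>
        Real.exp (-c * (u - v) ^ 2)).stronglyMeasurableAtFilter _ _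
    · exact (by fun_prop : Continuous fun v : ℝ => Real.exp (-c * (u - v) ^ 2)).continuousAt
  have h2 := h1.comp x (Real.hasDerivAt_log hx.ne')
  refine h2.congr_deriv ?_
  unfold Fc
  ring

lemma Pc_one (c u : ℝ) : Pc c u 1 = 0 := by
  unfold Pc
  rw [Real.log_one, intervalIntegral.integral_same]

/-- finite comparison -/
lemma Fc_fin {c : ℝ} {C : ℝ}
    (hC : ∀ w : ℝ, Real.exp (w - c * w ^ 2) * (2 * c * |w| + 1) * (1 + w ^ 2) ≤ C)
    (hc : 0 < c) (u : ℝ) (N : ℕ) :
    |∑ k ∈ Finset.range N, Fc c u ((k : ℝ) + 2) - Pc c u ((N : ℝ) + 1)| ≤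
      C * Real.exp (-u) * (Real.arctan (Real.log ((N : ℝ) + 1) - u) - Real.arctan (Real.log 1 - u)) := by
  induction N with
  | zero =>
    simp [Pc_one]
  | succ N ih =>
    rw [Finset.sum_range_succ]
    have hN : (0 : ℝ) < (N : ℝ) + 1 := by positivity
    have hlt : (N : ℝ) + 1 < (N : ℝ) + 2 := by linarith
    obtain ⟨ξ, ⟨hξ1, hξ2⟩, hξ⟩ := exists_hasDerivAt_eq_slope (Pc c u) (Fc c u) hlt
      (fun z hz => (Pc_hasDeriv c u (by linarith [hz.1] : (0 : ℝ) < z)).continuousAt.continuousWithinAt)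
      (fun z hz => Pc_hasDeriv c u (by linarith [hz.1]))
    have h1 : (N : ℝ) + 2 - ((N : ℝ) + 1) = 1 := by ring
    rw [h1, div_one] at hξ
    have hξ0 : 0 < ξ := by linarith
    have h2 := Fc_var hC hc u hξ0 hξ2.le
    have hC0 : 0 ≤ C := by
      have := hC 0
      simp at this
      linarith
    have h3 : Real.arctan (Real.log ((N : ℝ) + 1) - u) ≤ Real.arctan (Real.log ξ - u) := by
      apply Real.arctan_strictMono.monotone
      have := Real.log_le_log hN hξ1.le
      linarith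
    push_cast
    have e1 : (N : ℝ) + 1 + 1 = (N : ℝ) + 2 := by ring
    rw [e1]
    have h4 : ∑ k ∈ Finset.range N, Fc c u ((k : ℝ) + 2) + Fc c u ((N : ℝ) + 2) - Pc c u ((N : ℝ) + 2) =
        (∑ k ∈ Finset.range N, Fc c u ((k : ℝ) + 2) - Pc c u ((N : ℝ) + 1)) +
          (Fc c u ((N : ℝ) + 2) - Fc c u ξ) := by rw [hξ]; ring
    rw [h4]
    refine (abs_add_le _ _).trans ?_
    have h5 : C * Real.exp (-u) * (Real.arctan (Real.log ((N : ℝ) + 2) - u) -
        Real.arctan (Real.log ξ - u)) ≤ C * Real.exp (-u) *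
        (Real.arctan (Real.log ((N : ℝ) + 2) - u) - Real.arctan (Real.log ((N : ℝ) + 1) - u)) :=
      mul_le_mul_of_nonneg_left (by linarith) (by positivity)
    have h6 := ih
    have : C * Real.exp (-u) * (Real.arctan (Real.log ((N : ℝ) + 2) - u) - Real.arctan (Real.log 1 - u))
      = C * Real.exp (-u) * (Real.arctan (Real.log ((N : ℝ) + 1) - u) - Real.arctan (Real.log 1 - u))
        + C * Real.exp (-u) *
        (Real.arctan (Real.log ((N : ℝ) + 2) - u) - Real.arctan (Real.log ((N : ℝ) + 1) - u)) := by ring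
    rw [this]
    linarith

/-- **the sums `∑ 1/k exp(-c (u - log k)²)`** -/
theorem Hc_main {c : ℝ} (hc : 0 < c) : ∃ C : ℝ, 0 < C ∧ ∀ u : ℝ, 0 ≤ u →
    Summable (fun k : ℕ => Fc c u k) ∧ |∑' k : ℕ, Fc c u k - Real.sqrt (Real.pi / c)| ≤
      C * Real.exp (-u) := by
  obtain ⟨C, hC0, hC⟩ := wb hc
  have hgi : ∀ u : ℝ, Integrable (fun v : ℝ => Real.exp (-c * (u - v) ^ 2)) := fun u =>
    (integrable_exp_neg_mul_sq hc).comp_sub_left u
  have hgv : ∀ u : ℝ, ∫ v : ℝ, Real.exp (-c * (u - v) ^ 2) = Real.sqrt (Real.pi / c) := fun u => by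
    rw [integral_sub_left_eq_self (fun v : ℝ => Real.exp (-c * v ^ 2)) volume u]
    exact integral_gaussian c
  -- the left tail
  have htail : ∀ u : ℝ, 0 ≤ u → ∫ v in Set.Iic (0 : ℝ), Real.exp (-c * (u - v) ^ 2) ≤
      Real.exp (1 / (4 * c)) * Real.exp (-u) := by
    intro u hu
    have h1 : ∀ v ∈ Set.Iic (0 : ℝ), Real.exp (-c * (u - v) ^ 2) ≤
        Real.exp (1 / (4 * c)) * Real.exp (-u) * Real.exp v := by
      intro v hv
      rw [← Real.exp_add, ← Real.exp_add]
      apply Real.exp_le_exp.2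
      have h2 : 1 / (4 * c) = (1 / (2 * c)) ^ 2 * c := by field_simp; ring
      have h3 : 0 ≤ c * ((u - v) - 1 / (2 * c)) ^ 2 := by positivity
      have h4 : c * ((u - v) - 1 / (2 * c)) ^ 2 = c * (u - v) ^ 2 - (u - v) + 1 / (4 * c) := by
        field_simp; ring
      linarith
    refine (setIntegral_mono_on (hgi u).integrableOn
      ((integrableOn_exp_Iic 0).const_mul _) measurableSet_Iic h1).trans ?_
    rw [integral_const_mul, integral_exp_Iic_zero, mul_one]
  refine ⟨Real.exp (1 / (4 * c)) + 2 + C * Real.pi, by positivity, fun u hu => ?_⟩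
  have hpi := Real.pi_pos
  have hfin : ∀ N : ℕ, |∑ k ∈ Finset.range N, Fc c u ((k : ℝ) + 2) - Pc c u ((N : ℝ) + 1)| ≤
      C * Real.exp (-u) * Real.pi := by
    intro N
    refine (Fc_fin hC hc u N).trans (mul_le_mul_of_nonneg_left ?_ (by positivity))
    have h1 := Real.arctan_lt_pi_div_two (Real.log ((N : ℝ) + 1) - u)
    have h2 := Real.neg_pi_div_two_lt_arctan (Real.log 1 - u)
    linarith
  have hPc : Tendsto (fun N : ℕ => Pc c u ((N : ℝ) + 1)) atTop
      (𝓝 (∫ v in Set.Ioi (0 : ℝ), Real.exp (-c * (u - v) ^ 2))) := by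
    have h1 := intervalIntegral_tendsto_integral_Ioi (0 : ℝ) (hgi u).integrableOn
      (tendsto_id (α := ℝ) (x := atTop))
    exact h1.comp (Real.tendsto_log_atTop.comp
      (tendsto_natCast_atTop_atTop.atTop_add tendsto_const_nhds))
  have hnn : ∀ k : ℕ, 0 ≤ Fc c u ((k : ℝ) + 2) := fun k => Fc_nonneg c u (by positivity)
  obtain ⟨I, hI⟩ : ∃ I, I = ∫ v in Set.Ioi (0 : ℝ), Real.exp (-c * (u - v) ^ 2) := ⟨_, rfl⟩
  rw [← hI] at hPc
  have hPle : ∀ N : ℕ, Pc c u ((N : ℝ) + 1) ≤ I := by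
    intro N
    have hl : 0 ≤ Real.log ((N : ℝ) + 1) := Real.log_nonneg (by
      have : (0 : ℝ) ≤ N := Nat.cast_nonneg N
      linarith)
    unfold Pc
    rw [intervalIntegral.integral_of_le hl, hI]
    exact setIntegral_mono_set (hgi u).integrableOn
      (Eventually.of_forall fun v => (Real.exp_pos _).le)
      (Set.Ioc_subset_Ioi_self.eventuallyLE)
  have hsum2 : Summable (fun k : ℕ => Fc c u ((k : ℝ) + 2)) := by
    refine summable_of_sum_range_le hnn (c := I + C * Real.exp (-u) * Real.pi) fun N => ?_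
    have h1 := (abs_le.1 (hfin N)).2
    have h2 := hPle N
    linarith
  have hlim := hsum2.hasSum.tendsto_sum_nat
  have habs : |∑' k : ℕ, Fc c u ((k : ℝ) + 2) - I| ≤ C * Real.exp (-u) * Real.pi := by
    have h1 := (hlim.sub hPc).abs
    exact le_of_tendsto' h1 hfin
  have hsum : Summable (fun k : ℕ => Fc c u k) := by
    rw [← summable_nat_add_iff 2]
    refine hsum2.congr fun k => ?_
    push_cast
    ring_nf
  refine ⟨hsum, ?_⟩
  have hts : ∑' k : ℕ, Fc c u k = Fc c u 0 + Fc c u 1 + ∑' k : ℕ, Fc c u ((k : ℝ) + 2) := by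
    rw [← hsum.sum_add_tsum_nat_add 2]
    rw [Finset.sum_range_succ, Finset.sum_range_one]
    push_cast
    simp
  have hF0 : Fc c u 0 = 0 := by unfold Fc; simp
  have hF1 : 0 ≤ Fc c u 1 ∧ Fc c u 1 ≤ Real.exp (1 / (4 * c)) * Real.exp (-u) := by
    refine ⟨Fc_nonneg c u zero_le_one, ?_⟩
    unfold Fc
    rw [Real.log_one, sub_zero, inv_one, one_mul, ← Real.exp_add]
    apply Real.exp_le_exp.2
    have h3 : 0 ≤ c * (u - 1 / (2 * c)) ^ 2 := by positivity
    have h4 : c * (u - 1 / (2 * c)) ^ 2 = c * u ^ 2 - u + 1 / (4 * c) := by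
      field_simp; ring
    linarith
  have hsplit : (∫ v in Set.Iic (0 : ℝ), Real.exp (-c * (u - v) ^ 2)) + I =
      Real.sqrt (Real.pi / c) := by
    rw [hI, ← hgv u]
    exact intervalIntegral.integral_Iic_add_Ioi (hgi u).integrableOn (hgi u).integrableOn
  have hl0 : 0 ≤ ∫ v in Set.Iic (0 : ℝ), Real.exp (-c * (u - v) ^ 2) :=
    setIntegral_nonneg measurableSet_Iic fun v _ => (Real.exp_pos _).le
  have hl1 := htail u hu
  have he := Real.exp_pos (-u)
  have hE : 0 ≤ Real.exp (1 / (4 * c)) * Real.exp (-u) := by positivity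
  rw [abs_le] at habs ⊢
  have h2E : 0 ≤ 2 * Real.exp (-u) := by positivity
  have e1 : (Real.exp (1 / (4 * c)) + 2 + C * Real.pi) * Real.exp (-u) =
    Real.exp (1 / (4 * c)) * Real.exp (-u) + 2 * Real.exp (-u) + C * Real.exp (-u) * Real.pi := by
    ring
  rw [e1, hts, hF0]
  constructor
  · linarith [habs.1, hF1.1]
  · linarith [habs.2, hF1.2]

end Pool.Agent.H440.OZ
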