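import Pool.Graph.R_seed8.Helper112.Arith
import Pool.Graph.R_seed8.Helper923.PPS.Selberg

/-!
Project OZ (helper440): the arithmetic of the sieve model of the primes with major arcs of
denominators `≤ R`.
-/

set_option autoImplicit false

open Finset

namespace Pool.Agent.H440.OZ

open ArithmeticFunction in
/-- the squarefree numbers up to `R` -/
def SQ (R : ℕ) : Finset ℕ := (Icc 1 R).filter Squarefree

lemma mem_SQ {R r : ℕ} : r ∈ SQ R ↔ (1 ≤ r ∧ r ≤ R) ∧ Squarefree r := by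
  unfold SQ; rw [mem_filter, mem_Icc]

/-- `∑ μ²(r)/φ(r)`, `r ≤ R` -/
noncomputable def GG (R : ℕ) : ℝ := ∑ r ∈ SQ R, 1 / (Nat.totient r : ℝ)

/-- the same over the multiples of `d` -/
noncomputable def GD (R d : ℕ) : ℝ := ∑ r ∈ (SQ R).filter (fun r => d ∣ r), 1 / (Nat.totient r : ℝ)

/-- the sieve weights -/
noncomputable def lam (R d : ℕ) : ℝ := d * (ArithmeticFunction.moebius d : ℝ) * GD R d

/-- the model `∑_{d ∣ n} lam d` -/
noncomputable def gg (R n : ℕ) : ℝ := ∑ d ∈ (SQ R).filter (fun d => d ∣ n), lam R d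

lemma GG_nonneg (R : ℕ) : 0 ≤ GG R := Finset.sum_nonneg fun _ _ => by positivity

lemma GD_nonneg (R d : ℕ) : 0 ≤ GD R d := Finset.sum_nonneg fun _ _ => by positivity

lemma lam_one (R : ℕ) : lam R 1 = GG R := by
  unfold lam GD GG
  simp

/-- value at primes `> R` -/
lemma gg_prime {R p : ℕ} (hR : 1 ≤ R) (hp : p.Prime) (hRp : R < p) : gg R p = GG R := by
  unfold gg
  have : (SQ R).filter (fun d => d ∣ p) = {1} := by
    ext d
    rw [mem_filter, mem_SQ, mem_singleton]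
    constructor
    · rintro ⟨⟨⟨_, h2⟩, _⟩, h3⟩
      rcases (Nat.dvd_prime hp).1 h3 with h | h
      · exact h
      · omega
    · rintro rfl
      exact ⟨⟨⟨le_rfl, hR⟩, squarefree_one⟩, one_dvd _⟩
  rw [this, sum_singleton, lam_one]

/-- Moebius sum between -/
lemma mob_between {r f : ℕ} (hr : Squarefree r) (hf : f ∣ r) :
    ∑ d ∈ r.divisors.filter (fun d => f ∣ d), (ArithmeticFunction.moebius d : ℝ) =
      if f = r then (ArithmeticFunction.moebius f : ℝ) else 0 := by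
  have h := Pool.Agent.Helper923.PPS.sum_moebius_between hr hf (dvd_refl r)
  rw [← h]
  apply Finset.sum_congr _ fun _ _ => rfl
  ext d
  rw [mem_filter, mem_filter, Nat.mem_divisors]
  constructor
  · rintro ⟨⟨h1, h2⟩, h3⟩
    exact ⟨⟨h1, h2⟩, h3, h1⟩
  · rintro ⟨⟨h1, h2⟩, h3, _⟩
    exact ⟨⟨h1, h2⟩, h3⟩

lemma divisors_SQ {R r : ℕ} (hr : r ∈ SQ R) {d : ℕ} (hd : d ∣ r) : d ∈ SQ R := by
  rw [mem_SQ] at hr ⊢
  have hr0 : r ≠ 0 := by omega
  exact ⟨⟨Nat.pos_of_ne_zero (fun h => hr0 (by rw [h] at hd; exact zero_dvd_iff.1 hd)),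
    (Nat.le_of_dvd (by omega) hd).trans hr.1.2⟩, hr.2.squarefree_of_dvd hd⟩

lemma inner_mob {R f : ℕ} (hf : f ∈ SQ R) :
    ∑ d ∈ (SQ R).filter (fun d => f ∣ d), (ArithmeticFunction.moebius d : ℝ) * GD R d =
      (ArithmeticFunction.moebius f : ℝ) / (Nat.totient f : ℝ) := by
  have h1 : ∑ d ∈ (SQ R).filter (fun d => f ∣ d), (ArithmeticFunction.moebius d : ℝ) * GD R d =
      ∑ r ∈ SQ R, (1 / (Nat.totient r : ℝ)) *
        ∑ d ∈ (SQ R).filter (fun d => f ∣ d ∧ d ∣ r), (ArithmeticFunction.moebius d : ℝ) := by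
    unfold GD
    simp_rw [Finset.mul_sum]
    rw [Finset.sum_comm' (t' := SQ R) (s' := fun r => (SQ R).filter (fun d => f ∣ d ∧ d ∣ r))]
    · exact Finset.sum_congr rfl fun r _ => Finset.sum_congr rfl fun d _ => mul_comm _ _
    · intro x y
      simp only [mem_filter]
      tauto
  rw [h1, Finset.sum_eq_single f]
  · have h2 : (SQ R).filter (fun d => f ∣ d ∧ d ∣ f) = {f} := by
      ext d
      rw [mem_filter, mem_singleton]
      constructor
      · rintro ⟨_, h3, h4⟩; exact Nat.dvd_antisymm h4 h3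
      · rintro rfl; exact ⟨hf, dvd_rfl, dvd_rfl⟩
    rw [h2, sum_singleton]
    ring
  · intro r hr hrf
    by_cases hfr : f ∣ r
    · have h3 : (SQ R).filter (fun d => f ∣ d ∧ d ∣ r) = r.divisors.filter (fun d => f ∣ d) := by
        ext d
        rw [mem_filter, mem_filter, Nat.mem_divisors]
        constructor
        · rintro ⟨_, h4, h5⟩
          exact ⟨⟨h5, (mem_SQ.1 hr).2.ne_zero⟩, h4⟩
        · rintro ⟨⟨h5, _⟩, h4⟩
          exact ⟨divisors_SQ hr h5, h4, h5⟩
      rw [h3, mob_between (mem_SQ.1 hr).2 hfr, if_neg (fun h => hrf h.symm), mul_zero]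
    · have h3 : (SQ R).filter (fun d => f ∣ d ∧ d ∣ r) = ∅ := by
        apply Finset.filter_eq_empty_iff.2
        rintro d _ ⟨h4, h5⟩
        exact hfr (h4.trans h5)
      rw [h3, sum_empty, mul_zero]
  · intro h; exact absurd hf h

/-- the diagonal form of the quadratic form -/
theorem quad_main (R : ℕ) :
    ∑ d ∈ SQ R, ∑ e ∈ SQ R, lam R d * lam R e / (Nat.lcm d e : ℝ) = GG R := by
  have h0 : ∀ d ∈ SQ R, ∀ e ∈ SQ R, lam R d * lam R e / (Nat.lcm d e : ℝ) =
      ∑ f ∈ SQ R, (Nat.totient f : ℝ) *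
        ((if f ∣ d then (ArithmeticFunction.moebius d : ℝ) * GD R d else 0) *
          (if f ∣ e then (ArithmeticFunction.moebius e : ℝ) * GD R e else 0)) := by
    intro d hd e he
    have hd0 : 1 ≤ d := (mem_SQ.1 hd).1.1
    have he0 : 1 ≤ e := (mem_SQ.1 he).1.1
    have hdR : (0 : ℝ) < d := by exact_mod_cast hd0
    have heR : (0 : ℝ) < e := by exact_mod_cast he0
    have hg0 : 0 < Nat.gcd d e := Nat.gcd_pos_of_pos_left _ hd0
    have hl : (Nat.gcd d e : ℝ) * (Nat.lcm d e : ℝ) = d * e := by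
      exact_mod_cast Nat.gcd_mul_lcm d e
    have hl0 : (0 : ℝ) < (Nat.lcm d e : ℝ) := by
      exact_mod_cast Nat.lcm_pos hd0 he0
    have hgcd : (Nat.gcd d e : ℝ) = ∑ f ∈ SQ R, (if f ∣ d ∧ f ∣ e then (Nat.totient f : ℝ) else 0) := by
      have h1 := Nat.sum_totient (Nat.gcd d e)
      have h2 : (Nat.gcd d e : ℝ) = ∑ f ∈ (Nat.gcd d e).divisors, (Nat.totient f : ℝ) := by
        exact_mod_cast h1.symm
      rw [h2, ← Finset.sum_filter]
      apply Finset.sum_congr _ fun _ _ => rfl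
      ext f
      rw [Nat.mem_divisors, mem_filter]
      constructor
      · rintro ⟨h3, _⟩
        have h4 := h3.trans (Nat.gcd_dvd_left d e)
        exact ⟨divisors_SQ hd h4, h4, h3.trans (Nat.gcd_dvd_right d e)⟩
      · rintro ⟨_, h3, h4⟩
        exact ⟨Nat.dvd_gcd h3 h4, hg0.ne'⟩
    have h5 : lam R d * lam R e / (Nat.lcm d e : ℝ) =
        (Nat.gcd d e : ℝ) * (((ArithmeticFunction.moebius d : ℝ) * GD R d) *
          ((ArithmeticFunction.moebius e : ℝ) * GD R e)) := by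
      unfold lam
      rw [div_eq_iff hl0.ne']
      calc _ = (d * e : ℝ) * (((ArithmeticFunction.moebius d : ℝ) * GD R d) *
          ((ArithmeticFunction.moebius e : ℝ) * GD R e)) := by ring
        _ = _ := by rw [← hl]; ring
    rw [h5, hgcd, Finset.sum_mul]
    refine Finset.sum_congr rfl fun f _ => ?_
    by_cases h6 : f ∣ d <;> by_cases h7 : f ∣ e <;> simp [h6, h7]
  calc ∑ d ∈ SQ R, ∑ e ∈ SQ R, lam R d * lam R e / (Nat.lcm d e : ℝ)
      = ∑ d ∈ SQ R, ∑ e ∈ SQ R, ∑ f ∈ SQ R, (Nat.totient f : ℝ) *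
        ((if f ∣ d then (ArithmeticFunction.moebius d : ℝ) * GD R d else 0) *
          (if f ∣ e then (ArithmeticFunction.moebius e : ℝ) * GD R e else 0)) :=
        Finset.sum_congr rfl fun d hd => Finset.sum_congr rfl fun e he => h0 d hd e he
    _ = ∑ f ∈ SQ R, (Nat.totient f : ℝ) *
        ((∑ d ∈ SQ R, if f ∣ d then (ArithmeticFunction.moebius d : ℝ) * GD R d else 0) *
          (∑ e ∈ SQ R, if f ∣ e then (ArithmeticFunction.moebius e : ℝ) * GD R e else 0)) := by
        simp_rw [Finset.sum_mul_sum, Finset.mul_sum]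
        rw [Finset.sum_congr rfl fun d _ => Finset.sum_comm, Finset.sum_comm]
    _ = ∑ f ∈ SQ R, 1 / (Nat.totient f : ℝ) := by
        refine Finset.sum_congr rfl fun f hf => ?_
        rw [← Finset.sum_filter, inner_mob hf]
        have hm : (ArithmeticFunction.moebius f : ℝ) ^ 2 = 1 := by
          exact_mod_cast ArithmeticFunction.moebius_sq_eq_one_of_squarefree (mem_SQ.1 hf).2
        have hφ : (0 : ℝ) < Nat.totient f := by
          exact_mod_cast Nat.totient_pos.2 (mem_SQ.1 hf).1.1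
        field_simp
        exact hm
    _ = GG R := rfl

/-- `GD R d ≤ GG R / φ(d)` -/
lemma GD_le {R d : ℕ} (hd : d ∈ SQ R) : GD R d ≤ GG R / (Nat.totient d : ℝ) := by
  have hd1 : 1 ≤ d := (mem_SQ.1 hd).1.1
  have hφ : (0 : ℝ) < Nat.totient d := by exact_mod_cast Nat.totient_pos.2 hd1
  rw [le_div_iff₀ hφ]
  unfold GD GG
  rw [Finset.sum_mul]
  have hcop : ∀ r ∈ (SQ R).filter (fun r => d ∣ r), Nat.Coprime d (r / d) ∧ r / d ∈ SQ R := by
    intro r hr
    rw [mem_filter] at hr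
    obtain ⟨k, hk⟩ := hr.2
    have hkd : r / d = k := by rw [hk, Nat.mul_div_cancel_left _ hd1]
    have hsq : Squarefree (d * k) := hk ▸ (mem_SQ.1 hr.1).2
    refine ⟨?_, ?_⟩
    · rw [hkd]
      exact Nat.coprime_of_squarefree_mul hsq
    · rw [hkd]
      exact divisors_SQ hr.1 (by rw [hk]; exact dvd_mul_left _ _)
  have h1 : ∀ r ∈ (SQ R).filter (fun r => d ∣ r), 1 / (Nat.totient r : ℝ) * (Nat.totient d : ℝ) =
      1 / (Nat.totient (r / d) : ℝ) := by
    intro r hr
    obtain ⟨hc, hm⟩ := hcop r hr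
    rw [mem_filter] at hr
    have hrd : r = d * (r / d) := (Nat.mul_div_cancel' hr.2).symm
    have h2 : (Nat.totient r : ℝ) = Nat.totient d * Nat.totient (r / d) := by
      conv_lhs => rw [hrd]
      rw [Nat.totient_mul hc]
      push_cast
      ring
    have hφ2 : (0 : ℝ) < Nat.totient (r / d) := by
      exact_mod_cast Nat.totient_pos.2 (mem_SQ.1 hm).1.1
    rw [h2]
    field_simp
  rw [Finset.sum_congr rfl h1]
  have hinj : Set.InjOn (fun r => r / d) ((SQ R).filter (fun r => d ∣ r) : Set ℕ) := by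
    intro a ha b hb hab
    simp only [Finset.coe_filter, Set.mem_setOf_eq] at ha hb
    have : a / d = b / d := hab
    rw [← Nat.mul_div_cancel' ha.2, ← Nat.mul_div_cancel' hb.2, this]
  rw [← Finset.sum_image (f := fun m => 1 / (Nat.totient m : ℝ)) hinj]
  apply Finset.sum_le_sum_of_subset_of_nonneg
  · intro m hm
    rw [mem_image] at hm
    obtain ⟨r, hr, rfl⟩ := hm
    exact (hcop r hr).2
  · intro _ _ _; positivity

/-- upper bound for `GG` and for the sum of the weights -/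
theorem GG_le : ∃ C : ℝ, 1 ≤ C ∧ ∀ R : ℕ, 1 ≤ R → GG R ≤ C * (1 + Real.log R) ∧
    ∑ d ∈ SQ R, |lam R d| ≤ C * R * (1 + Real.log R) ^ 2 := by
  obtain ⟨C, hC, h⟩ := Pool.Agent.Helper112.sum_ratio_sq
  obtain ⟨C', hC'⟩ : ∃ C', C' = max C 1 := ⟨_, rfl⟩
  have hC1 : 1 ≤ C' := hC' ▸ le_max_right _ _
  have hCC : C ≤ C' := hC' ▸ le_max_left _ _
  refine ⟨C' ^ 2, by nlinarith, fun R hR => ?_⟩
  have hlog : 0 ≤ Real.log R := Real.log_nonneg (by exact_mod_cast hR)
  have hR0 : (0 : ℝ) < R := by exact_mod_cast hR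
  have h' : ∑ r ∈ Icc 1 R, (1 / (r : ℝ)) * ((r : ℝ) / (Nat.totient r : ℝ)) ^ 2 ≤
      C' * (1 + Real.log R) := (h R hR).trans (mul_le_mul_of_nonneg_right hCC (by linarith))
  have hge : ∀ r : ℕ, 1 ≤ r → 1 ≤ (r : ℝ) / (Nat.totient r : ℝ) := by
    intro r hr
    rw [le_div_iff₀ (by exact_mod_cast Nat.totient_pos.2 hr), one_mul]
    exact_mod_cast Nat.totient_le r
  have hG : GG R ≤ C' * (1 + Real.log R) := by
    refine le_trans ?_ h'
    unfold GG
    refine le_trans (Finset.sum_le_sum_of_subset_of_nonneg (Finset.filter_subset _ _)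
      (fun _ _ _ => by positivity)) (Finset.sum_le_sum fun r hr => ?_)
    rw [mem_Icc] at hr
    have h1 := hge r hr.1
    have hr0 : (0 : ℝ) < r := by exact_mod_cast hr.1
    have hφ : (0 : ℝ) < Nat.totient r := by exact_mod_cast Nat.totient_pos.2 hr.1
    have e : 1 / (Nat.totient r : ℝ) = (1 / (r : ℝ)) * ((r : ℝ) / (Nat.totient r : ℝ)) := by
      field_simp
    rw [e]
    refine mul_le_mul_of_nonneg_left ?_ (by positivity)
    nlinarith
  have hCC2 : C' ≤ C' ^ 2 := by nlinarith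
  refine ⟨hG.trans (mul_le_mul_of_nonneg_right hCC2 (by linarith)), ?_⟩
  have h2 : ∀ d ∈ SQ R, |lam R d| ≤ (C' * (1 + Real.log R)) * (R * ((1 / (d : ℝ)) *
      ((d : ℝ) / (Nat.totient d : ℝ)) ^ 2)) := by
    intro d hd
    obtain ⟨⟨hd1, hd2⟩, hsq⟩ := mem_SQ.1 hd
    have hd0 : (0 : ℝ) < d := by exact_mod_cast hd1
    have hφ : (0 : ℝ) < Nat.totient d := by exact_mod_cast Nat.totient_pos.2 hd1
    have hdR : (d : ℝ) ≤ R := by exact_mod_cast hd2
    have hmu : |(ArithmeticFunction.moebius d : ℝ)| ≤ 1 := by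
      exact_mod_cast ArithmeticFunction.abs_moebius_le_one
    unfold lam
    rw [abs_mul, abs_mul, abs_of_pos hd0, abs_of_nonneg (GD_nonneg R d)]
    have h3 := GD_le hd
    have h4 : d * |(ArithmeticFunction.moebius d : ℝ)| * GD R d ≤
        d * 1 * (GG R / (Nat.totient d : ℝ)) := by
      have := GD_nonneg R d
      gcongr
    refine h4.trans ?_
    have h5 : d * 1 * (GG R / (Nat.totient d : ℝ)) = GG R * (d / Nat.totient d) := by ring
    rw [h5]
    refine mul_le_mul hG ?_ (by positivity) (by positivity)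
    have h1 := hge d hd1
    have h6 : (d : ℝ) / Nat.totient d ≤ (d : ℝ) * ((1 / (d : ℝ)) * ((d : ℝ) / Nat.totient d) ^ 2) := by
      rw [← mul_assoc, mul_one_div_cancel hd0.ne', one_mul]
      nlinarith
    exact h6.trans (mul_le_mul_of_nonneg_right hdR (by positivity))
  refine (Finset.sum_le_sum h2).trans ?_
  rw [← Finset.mul_sum, ← Finset.mul_sum]
  have h7 : ∑ d ∈ SQ R, (1 / (d : ℝ)) * ((d : ℝ) / (Nat.totient d : ℝ)) ^ 2 ≤
      C' * (1 + Real.log R) :=
    (Finset.sum_le_sum_of_subset_of_nonneg (Finset.filter_subset _ _)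
      (fun _ _ _ => by positivity)).trans h'
  calc _ ≤ (C' * (1 + Real.log R)) * (R * (C' * (1 + Real.log R))) := by gcongr
    _ = _ := by ring

end Pool.Agent.H440.OZ
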