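import Pool.Agent.H440.OZ.Ram

set_option autoImplicit false

open Finset UniqueFactorizationMonoid

namespace Pool.Agent.H440.OZ

/-- the completely multiplicative function `1/n` -/
noncomputable def invHom : ℕ →* ℝ where
  toFun := fun n => if n = 0 then 0 else (1 : ℝ) / n
  map_one' := by simp
  map_mul' := by
    intro a b
    by_cases ha : a = 0
    · simp [ha]
    by_cases hb : b = 0
    · simp [hb]
    simp only [ha, hb, mul_eq_zero, or_self, if_false]
    push_cast
    field_simp

lemma invHom_apply {n : ℕ} (hn : n ≠ 0) : invHom n = 1 / (n : ℝ) := by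
  show (if n = 0 then 0 else (1 : ℝ) / n) = _
  rw [if_neg hn]

lemma invHom_nonneg (n : ℕ) : 0 ≤ invHom n := by
  show 0 ≤ (if n = 0 then 0 else (1 : ℝ) / n)
  split_ifs <;> positivity

lemma fiber_le {R r : ℕ} (hr : r ∈ SQ R) :
    ∑ n ∈ (Icc 1 R).filter (fun n => radical n = r), (1 : ℝ) / n ≤ 1 / (Nat.totient r : ℝ) := by
  classical
  obtain ⟨⟨hr1, hr2⟩, hsq⟩ := mem_SQ.1 hr
  have hr0 : (0 : ℝ) < r := by exact_mod_cast hr1
  have hlt : ∀ {p : ℕ}, p.Prime → ‖invHom p‖ < 1 := by
    intro p hp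
    rw [invHom_apply hp.ne_zero, Real.norm_eq_abs, abs_of_nonneg (by positivity)]
    rw [div_lt_one (by exact_mod_cast hp.pos)]
    exact_mod_cast hp.one_lt
  obtain ⟨hs, hsum⟩ := EulerProduct.summable_and_hasSum_factoredNumbers_prod_filter_prime_geometric
    (f := invHom) hlt r.primeFactors
  have hprod : ∏ p ∈ r.primeFactors with p.Prime, (1 - invHom p)⁻¹ = (r : ℝ) / Nat.totient r := by
    have h1 : r.primeFactors.filter Nat.Prime = r.primeFactors :=
      Finset.filter_true_of_mem fun p hp => Nat.prime_of_mem_primeFactors hp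
    rw [h1]
    have h2 : (Nat.totient r : ℝ) = r * ∏ p ∈ r.primeFactors, (1 - (p : ℝ)⁻¹) := by
      have := Nat.totient_eq_mul_prod_factors r
      have h2 := congrArg (fun x : ℚ => (x : ℝ)) this
      push_cast at h2
      exact h2
    rw [h2, Finset.prod_inv_distrib]
    have h3 : ∏ p ∈ r.primeFactors, (1 - invHom p) = ∏ p ∈ r.primeFactors, (1 - (p : ℝ)⁻¹) := by
      refine Finset.prod_congr rfl fun p hp => ?_
      rw [invHom_apply (Nat.prime_of_mem_primeFactors hp).ne_zero, one_div]
    rw [h3]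
    have h4 : ∏ p ∈ r.primeFactors, (1 - (p : ℝ)⁻¹) ≠ 0 := by
      rw [Finset.prod_ne_zero_iff]
      intro p hp
      have hp2 : (2 : ℝ) ≤ p := by exact_mod_cast (Nat.prime_of_mem_primeFactors hp).two_le
      have : (p : ℝ)⁻¹ ≤ 1 / 2 := by
        rw [inv_eq_one_div]
        exact one_div_le_one_div_of_le (by norm_num) hp2
      linarith
    field_simp
  rw [hprod] at hsum
  -- the map
  have hmem : ∀ n ∈ (Icc 1 R).filter (fun n => radical n = r), r * (n / r) = n ∧
      n / r ∈ Nat.factoredNumbers r.primeFactors := by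
    intro n hn
    rw [mem_filter, mem_Icc] at hn
    have hn0 : n ≠ 0 := by omega
    have hrn : r ∣ n := hn.2 ▸ radical_dvd_self
    have h1 : r * (n / r) = n := Nat.mul_div_cancel' hrn
    refine ⟨h1, ?_⟩
    rw [Nat.mem_factoredNumbers_iff_primeFactors_subset]
    have hd : n / r ∣ n := Nat.div_dvd_of_dvd hrn
    refine ⟨fun h => hn0 (by rw [← h1, h, mul_zero]), ?_⟩
    have h2 : r.primeFactors = n.primeFactors := by rw [← hn.2, Nat.primeFactors_radical]
    rw [h2]
    exact Nat.primeFactors_mono hd hn0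
  have h5 : ∑ n ∈ (Icc 1 R).filter (fun n => radical n = r), (1 : ℝ) / n =
      (1 / (r : ℝ)) * ∑ n ∈ (Icc 1 R).filter (fun n => radical n = r), invHom (n / r) := by
    rw [Finset.mul_sum]
    refine Finset.sum_congr rfl fun n hn => ?_
    obtain ⟨h1, h2⟩ := hmem n hn
    have h3 := (Nat.mem_factoredNumbers_iff_primeFactors_subset.1 h2).1
    have h4 : (n : ℝ) = r * ((n / r : ℕ) : ℝ) := by exact_mod_cast h1.symm
    rw [invHom_apply h3]
    conv_lhs => rw [h4]
    rw [one_div_mul_one_div]
  have h6 : ∑ n ∈ (Icc 1 R).filter (fun n => radical n = r), invHom (n / r) ≤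
      (r : ℝ) / Nat.totient r := by
    have hinj : Set.InjOn (fun n => n / r)
        (((Icc 1 R).filter (fun n => radical n = r) : Finset ℕ) : Set ℕ) := by
      intro a ha b hb hab
      have h1 := (hmem a ha).1
      have h2 := (hmem b hb).1
      have h3 : a / r = b / r := hab
      rw [← h1, ← h2, h3]
    rw [← Finset.sum_image (f := fun m => invHom m) hinj]
    obtain ⟨S, hS⟩ : ∃ S, S = ((Icc 1 R).filter (fun n => radical n = r)).image (fun n => n / r) :=
      ⟨_, rfl⟩
    rw [← hS]
    have hSm : ∀ m ∈ S, m ∈ Nat.factoredNumbers r.primeFactors := by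
      intro m hm
      rw [hS, mem_image] at hm
      obtain ⟨n, hn, rfl⟩ := hm
      exact (hmem n hn).2
    have h7 : ∑ m ∈ S, invHom m = ∑ m ∈ S.subtype (fun m => m ∈ Nat.factoredNumbers r.primeFactors),
        invHom (m : ℕ) := by
      rw [Finset.sum_subtype_of_mem (p := fun m => m ∈ Nat.factoredNumbers r.primeFactors)
        (fun m => invHom m) hSm]
    rw [h7, ← hsum.tsum_eq]
    exact hsum.summable.sum_le_tsum _ fun m _ => invHom_nonneg _
  rw [h5]
  calc _ ≤ (1 / (r : ℝ)) * ((r : ℝ) / Nat.totient r) := mul_le_mul_of_nonneg_left h6 (by positivity)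
    _ = _ := by
      have hφ : (0 : ℝ) < Nat.totient r := by exact_mod_cast Nat.totient_pos.2 hr1
      field_simp

/-- the lower bound `log R ≤ ∑ μ²(r)/φ(r)` -/
theorem log_le_GG {R : ℕ} (hR : 1 ≤ R) : Real.log R ≤ GG R := by
  classical
  have h1 : Real.log R ≤ ∑ n ∈ Icc 1 R, (1 : ℝ) / n := by
    have h := log_add_one_le_harmonic R
    rw [harmonic_eq_sum_Icc] at h
    push_cast at h
    have h2 : Real.log R ≤ Real.log (R + 1) :=
      Real.log_le_log (by exact_mod_cast hR) (by linarith)
    refine h2.trans (h.trans (le_of_eq (Finset.sum_congr rfl fun n _ => by rw [one_div])))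
  refine h1.trans ?_
  have hmap : ∀ n ∈ Icc 1 R, radical n ∈ SQ R := by
    intro n hn
    rw [mem_Icc] at hn
    have hd : radical n ∣ n := radical_dvd_self
    have h0 : radical n ≠ 0 := radical_ne_zero
    rw [mem_SQ]
    exact ⟨⟨Nat.pos_of_ne_zero h0, (Nat.le_of_dvd (by omega) hd).trans hn.2⟩, squarefree_radical⟩
  rw [← Finset.sum_fiberwise_of_maps_to hmap]
  exact Finset.sum_le_sum fun r hr => fiber_le hr

end Pool.Agent.H440.OZ
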