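import Pool.Agent.H440.OZ.Ram2
import Pool.Agent.H440.OZ.Hc

/-!
Project OZ (helper440): the mean square of the model.
-/

set_option autoImplicit false

open Finset Real MeasureTheory Filter Topology

namespace Pool.Agent.H440.OZ

/-- the sum over the multiples of `m` -/
lemma mult_sum {c C : ℝ}
    (hC : ∀ u : ℝ, 0 ≤ u → Summable (fun k : ℕ => Fc c u k) ∧
      |∑' k : ℕ, Fc c u k - Real.sqrt (Real.pi / c)| ≤ C * Real.exp (-u))
    {u : ℝ} {m : ℕ} (hm : 1 ≤ m) (hmu : Real.log m ≤ u) :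
    Summable (fun n : ℕ => if m ∣ n then Fc c u n else 0) ∧
      |(∑' n : ℕ, if m ∣ n then Fc c u n else 0) - Real.sqrt (Real.pi / c) / m| ≤
        C * Real.exp (-u) := by
  have hm0 : (0 : ℝ) < m := by exact_mod_cast hm
  obtain ⟨h1, h2⟩ := hC (u - Real.log m) (by linarith)
  have hinj : Function.Injective (fun k : ℕ => m * k) := fun a b hab =>
    Nat.eq_of_mul_eq_mul_left hm hab
  have hterm : ∀ k : ℕ, (fun n : ℕ => if m ∣ n then Fc c u n else 0) (m * k) =
      (1 / (m : ℝ)) * Fc c (u - Real.log m) k := by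
    intro k
    show (if m ∣ m * k then Fc c u ((m * k : ℕ) : ℝ) else 0) = _
    rw [if_pos (dvd_mul_right m k)]
    rcases Nat.eq_zero_or_pos k with rfl | hk
    · unfold Fc; simp
    · have hk0 : (0 : ℝ) < k := by exact_mod_cast hk
      unfold Fc
      push_cast
      rw [Real.log_mul hm0.ne' hk0.ne', mul_inv]
      have : u - (Real.log m + Real.log k) = u - Real.log m - Real.log k := by ring
      rw [this]
      ring
  have hsupp : Function.support (fun n : ℕ => if m ∣ n then Fc c u n else 0) ⊆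
      Set.range (fun k : ℕ => m * k) := by
    intro n hn
    rw [Function.mem_support] at hn
    have : m ∣ n := by
      by_contra hcon
      exact hn (if_neg hcon)
    obtain ⟨k, hk⟩ := this
    exact ⟨k, hk.symm⟩
  have hs : Summable (fun n : ℕ => if m ∣ n then Fc c u n else 0) := by
    rw [← hinj.summable_iff (fun n hn => by
      by_contra hcon
      exact hn (hsupp hcon))]
    refine (h1.mul_left (1 / (m : ℝ))).congr fun k => ?_
    exact (hterm k).symm
  refine ⟨hs, ?_⟩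
  have ht : (∑' n : ℕ, if m ∣ n then Fc c u n else 0) =
      (1 / (m : ℝ)) * ∑' k : ℕ, Fc c (u - Real.log m) k := by
    rw [← hinj.tsum_eq hsupp, ← tsum_mul_left]
    exact tsum_congr hterm
  rw [ht]
  have h3 : (1 / (m : ℝ)) * ∑' k : ℕ, Fc c (u - Real.log m) k - Real.sqrt (Real.pi / c) / m =
      (1 / (m : ℝ)) * (∑' k : ℕ, Fc c (u - Real.log m) k - Real.sqrt (Real.pi / c)) := by ring
  rw [h3, abs_mul, abs_of_pos (by positivity)]
  refine (mul_le_mul_of_nonneg_left h2 (by positivity)).trans (le_of_eq ?_)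
  have h4 : Real.exp (-(u - Real.log m)) = Real.exp (-u) * m := by
    rw [neg_sub, sub_eq_add_neg, Real.exp_add, Real.exp_log hm0, mul_comm]
  rw [h4]
  field_simp

lemma gg_sq (R n : ℕ) : gg R n ^ 2 = ∑ d ∈ SQ R, ∑ e ∈ SQ R,
    lam R d * lam R e * (if Nat.lcm d e ∣ n then 1 else 0) := by
  unfold gg
  rw [sq, Finset.sum_filter, Finset.sum_mul_sum]
  refine Finset.sum_congr rfl fun d _ => Finset.sum_congr rfl fun e _ => ?_
  by_cases h1 : d ∣ n <;> by_cases h2 : e ∣ n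
  · rw [if_pos h1, if_pos h2, if_pos (Nat.lcm_dvd h1 h2), mul_one]
  · rw [if_neg h2, if_neg (fun h => h2 ((Nat.dvd_lcm_right d e).trans h))]; ring
  · rw [if_neg h1, if_neg (fun h => h1 ((Nat.dvd_lcm_left d e).trans h))]; ring
  · rw [if_neg h1, if_neg (fun h => h1 ((Nat.dvd_lcm_left d e).trans h))]; ring

/-- **mean square of the model** -/
theorem gg_mean {c : ℝ} (hc : 0 < c) : ∃ C : ℝ, 0 < C ∧ ∀ (R : ℕ) (u : ℝ), 1 ≤ R →
    2 * Real.log R ≤ u →
    Summable (fun n : ℕ => gg R n ^ 2 / n * Real.exp (-c * (u - Real.log n) ^ 2)) ∧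
    ∑' n : ℕ, gg R n ^ 2 / n * Real.exp (-c * (u - Real.log n) ^ 2) ≤
      Real.sqrt (Real.pi / c) * GG R + C * Real.exp (-u) * (∑ d ∈ SQ R, |lam R d|) ^ 2 := by
  obtain ⟨C, hC0, hC⟩ := Hc_main hc
  refine ⟨C, hC0, fun R u hR hu => ?_⟩
  have hm : ∀ d ∈ SQ R, ∀ e ∈ SQ R, 1 ≤ Nat.lcm d e ∧ Real.log (Nat.lcm d e : ℕ) ≤ u := by
    intro d hd e he
    obtain ⟨⟨hd1, hd2⟩, _⟩ := mem_SQ.1 hd
    obtain ⟨⟨he1, he2⟩, _⟩ := mem_SQ.1 he
    have h1 : 1 ≤ Nat.lcm d e := Nat.lcm_pos hd1 he1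
    refine ⟨h1, le_trans ?_ hu⟩
    have h2 : Nat.lcm d e ≤ d * e := Nat.div_le_self _ _
    have h3 : d * e ≤ R * R := Nat.mul_le_mul hd2 he2
    have h4 : ((Nat.lcm d e : ℕ) : ℝ) ≤ (R : ℝ) ^ 2 := by
      have : Nat.lcm d e ≤ R * R := h2.trans h3
      calc ((Nat.lcm d e : ℕ) : ℝ) ≤ ((R * R : ℕ) : ℝ) := by exact_mod_cast this
        _ = (R : ℝ) ^ 2 := by push_cast; ring
    calc Real.log (Nat.lcm d e : ℕ) ≤ Real.log ((R : ℝ) ^ 2) :=
          Real.log_le_log (by exact_mod_cast h1) h4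
      _ = 2 * Real.log R := by rw [Real.log_pow]; norm_num
  have heq : ∀ n : ℕ, gg R n ^ 2 / n * Real.exp (-c * (u - Real.log n) ^ 2) =
      ∑ d ∈ SQ R, ∑ e ∈ SQ R, lam R d * lam R e *
        (if Nat.lcm d e ∣ n then Fc c u n else 0) := by
    intro n
    rw [gg_sq, Finset.sum_div, Finset.sum_mul]
    refine Finset.sum_congr rfl fun d _ => ?_
    rw [Finset.sum_div, Finset.sum_mul]
    refine Finset.sum_congr rfl fun e _ => ?_
    unfold Fc
    split_ifs
    · rw [div_eq_mul_inv]; ring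
    · ring
  have hs : ∀ d ∈ SQ R, ∀ e ∈ SQ R, Summable (fun n : ℕ => lam R d * lam R e *
        (if Nat.lcm d e ∣ n then Fc c u n else 0)) := fun d hd e he =>
    ((mult_sum hC (hm d hd e he).1 (hm d hd e he).2).1).mul_left _
  simp_rw [heq]
  have hs2 : ∀ d ∈ SQ R, Summable (fun n : ℕ => ∑ e ∈ SQ R, lam R d * lam R e *
        (if Nat.lcm d e ∣ n then Fc c u n else 0)) := fun d hd => summable_sum fun e he => hs d hd e he
  refine ⟨summable_sum hs2, ?_⟩
  rw [Summable.tsum_finsetSum hs2]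
  have h5 : ∀ d ∈ SQ R, ∑' n : ℕ, ∑ e ∈ SQ R, lam R d * lam R e *
      (if Nat.lcm d e ∣ n then Fc c u n else 0) ≤ ∑ e ∈ SQ R, (lam R d * lam R e *
        (Real.sqrt (Real.pi / c) / (Nat.lcm d e : ℕ)) + |lam R d| * |lam R e| * (C * Real.exp (-u))) := by
    intro d hd
    rw [Summable.tsum_finsetSum (fun e he => hs d hd e he)]
    refine Finset.sum_le_sum fun e he => ?_
    rw [tsum_mul_left]
    have h6 := (mult_sum hC (hm d hd e he).1 (hm d hd e he).2).2
    obtain ⟨z, hz⟩ : ∃ z, z = (∑' n : ℕ, if Nat.lcm d e ∣ n then Fc c u n else 0) := ⟨_, rfl⟩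
    rw [← hz] at h6 ⊢
    have h7 : lam R d * lam R e * z - lam R d * lam R e * (Real.sqrt (Real.pi / c) / (Nat.lcm d e : ℕ))
        ≤ |lam R d| * |lam R e| * (C * Real.exp (-u)) := by
      rw [← mul_sub]
      refine (le_abs_self _).trans ?_
      rw [abs_mul, abs_mul]
      exact mul_le_mul_of_nonneg_left h6 (by positivity)
    linarith
  refine (Finset.sum_le_sum h5).trans (le_of_eq ?_)
  simp_rw [Finset.sum_add_distrib]
  congr 1
  · rw [← quad_main R, Finset.mul_sum]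
    refine Finset.sum_congr rfl fun d _ => ?_
    rw [Finset.mul_sum]
    refine Finset.sum_congr rfl fun e _ => ?_
    ring
  · rw [sq, Finset.sum_mul_sum, Finset.mul_sum]
    refine Finset.sum_congr rfl fun d _ => ?_
    rw [Finset.mul_sum]
    refine Finset.sum_congr rfl fun e _ => ?_
    ring

end Pool.Agent.H440.OZ
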