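import Pool.Agent.H440.OZ.Sqs
import Pool.Graph.R_pool_sql_team_seeded_63374d34.N880.HD.Stm2

/-!
Project OZ (helper440): statements of the leaves.

Mean square of `∑ Λ(n) χ(n) n^{-1/2} b(n)` over all primitive characters of conductor in `(X, Y]`
for lengths beyond the sharp range of the large sieve: the primes are compared with Selberg's
model `gg R n`, whose additive sums at the Farey points of order larger than `R` are negligible.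
-/

set_option autoImplicit false

open Complex Filter Topology MeasureTheory Set

namespace Pool.Agent.H440.OZ

open H385 (c0 primFam bt wt Rw WW SS ee hP)
open Pool.Agent.N7.MainC (inner)

/-- the smooth weight `n^{-1/2 - i y} exp(-(u - log n)²/4)`, zero at `n = 0` -/
noncomputable def Ew (u y : ℝ) (n : ℕ) : ℂ :=
  ((Real.exp (-(u - Real.log n) ^ 2 / 4) / Real.sqrt n : ℝ) : ℂ) * cexp (-(I * y * Real.log n))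

/-- the integers `n` with `|log n - u| ≤ D` -/
noncomputable def PN (u D : ℝ) : Finset ℕ :=
  (Finset.Icc 1 ⌊Real.exp (u + D)⌋₊).filter (fun n => |Real.log n - u| ≤ D)

/-- the Farey fractions `b/q` with `X < q ≤ P Y` as pairs `(q, b)` -/
def AX (P X Y : ℕ) : Finset (ℕ × ℕ) :=
  (Finset.Ioc X (P * Y) ×ˢ Finset.range (P * Y + 1)).filter
    (fun i => i.2 < i.1 ∧ Nat.Coprime i.2 i.1)

/-- the weights of the Farey fractions -/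
noncomputable def aw (P : ℕ) (i : ℕ × ℕ) : ℝ :=
  hP P i.1 / (i.1 : ℝ) ^ 2 / ∏ p ∈ P.primeFactors, H385.Flat.kp p

/-- Leaf 1 (exponential sums by `k`-fold summation by parts). -/
def S_exp : Prop := ∀ k : ℕ, 1 ≤ k → ∃ C : ℝ, 0 < C ∧ ∀ u y φ : ℝ, 0 ≤ u → ee φ ≠ 1 →
  ‖∑' n : ℕ, Ew u y n * ee (n * φ)‖ ≤
    C * (1 + |y|) ^ k * Real.exp (-((k : ℝ) - 1) * u) / ‖1 - ee φ‖ ^ k

/-- Leaf 2 (the model has tiny additive sums at fractions with denominator `q > R`). -/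
def S_neg : Prop := ∀ k : ℕ, 1 ≤ k → ∃ C : ℝ, 0 < C ∧ ∀ (R q b : ℕ) (u y : ℝ), 0 ≤ u →
  1 ≤ R → R < q → Nat.Coprime b q →
  ‖∑' n : ℕ, (gg R n : ℂ) * (Ew u y n * ee (n * ((b : ℝ) / q)))‖ ≤
    C * (1 + |y|) ^ k * ((q : ℝ) * R) ^ k * Real.exp (-((k : ℝ) - 1) * u) *
      ∑ d ∈ SQ R, |lam R d|

/-- Leaf 3 (the same for the coefficient functions `bt`). -/
def S_negbt : Prop := ∀ k : ℕ, 1 ≤ k → ∃ C : ℝ, 0 < C ∧ ∀ (R q b : ℕ) (u T t : ℝ), 0 ≤ u →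
  1 ≤ T → 1 ≤ R → R < q → Nat.Coprime b q →
  ‖∑' n : ℕ, ((gg R n : ℂ) * ee (n * ((b : ℝ) / q))) *
      ((Real.sqrt n : ℂ)⁻¹ * bt T u t (Real.log n))‖ ≤
    C * T ^ k * ((q : ℝ) * R) ^ k * Real.exp (-((k : ℝ) - 1) * u) *
      (∑ d ∈ SQ R, |lam R d|) * ∫ τ in T..(2 * T), Real.exp (-(t - τ) ^ 2 / 8)

/-- Leaf 4 (cutting the model to `|log n - u| ≤ D`). -/
def S_tail : Prop := ∃ C : ℝ, 0 < C ∧ ∀ (R : ℕ) (u D T t : ℝ) (z : ℕ → ℂ), 0 ≤ u → 0 ≤ D →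
  0 ≤ T → (∀ n, ‖z n‖ ≤ 1) →
  ‖(∑' n : ℕ, ((gg R n : ℂ) * z n) * ((Real.sqrt n : ℂ)⁻¹ * bt T u t (Real.log n))) -
      ∑ n ∈ PN u D, ((gg R n : ℂ) * z n) * ((Real.sqrt n : ℂ)⁻¹ * bt T u t (Real.log n))‖ ≤
    C * (∑ d ∈ SQ R, |lam R d|) * Real.exp (3 * u - D ^ 2 / 8) * wt T t

/-- Leaf 5 (Mertens with Gaussian weights; from the prime number theorem
`Pool.Graph.R_seed8.Helper923.PNT`, `theta_div_tendsto`). -/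
def S_mer : Prop := ∀ ε : ℝ, 0 < ε → ∃ D u0 : ℝ, 0 < D ∧ 0 < u0 ∧ ∀ u : ℝ, u0 ≤ u →
  Real.sqrt Real.pi - ε ≤
    ∑ p ∈ (Finset.Icc 1 ⌊Real.exp (u + D)⌋₊).filter
        (fun p : ℕ => p.Prime ∧ |Real.log p - u| ≤ D),
      Real.log p / p * Real.exp (-(u - Real.log p) ^ 2)

/-- Leaf 6 (the passage to additive characters, and the additive large sieve in blocks). -/
def S_add : Prop := ∀ ε : ℝ, 0 < ε → ε ≤ 1 → ∃ (P B : ℕ) (K e0 : ℝ), 1 ≤ P ∧ 1 ≤ B ∧ 1 ≤ K ∧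
  0 < e0 ∧ ∀ X Y : ℕ, 1 ≤ X → K * X ≤ Y →
    (∀ (M H : ℕ) (b : ℕ → ℂ), (H : ℝ) ≤ e0 * (X : ℝ) ^ 2 → (∀ n, n ≤ M → b n = 0) →
      ∑ i ∈ AX P X Y, aw P i * ‖SS (M + H) b ((i.2 : ℝ) / i.1)‖ ^ 2 ≤
        (1 + ε) * WW X Y * ∑ n ∈ Finset.Icc 1 (M + H), ‖b n‖ ^ 2) ∧
    (∀ (N : ℕ) (b : ℕ → ℂ), (∀ n, b n ≠ 0 → n.Prime ∧ B < n) →
      primFam X Y (fun q χ => ‖∑ n ∈ Finset.Icc 1 N, b n * χ (n : ZMod q)‖ ^ 2) ≤
        (1 + ε) * ∑ i ∈ AX P X Y, aw P i * ‖SS N b ((i.2 : ℝ) / i.1)‖ ^ 2 +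
          ε * WW X Y * ∑ n ∈ Finset.Icc 1 N, ‖b n‖ ^ 2) ∧
    ∑ i ∈ AX P X Y, aw P i ≤ 10 * WW X Y

/-- Leaf 7 (the new mean square; `L = log (X T)`). -/
def S_msN : Prop := ∀ (τ s : ℝ), 0 ≤ τ → 0 < s → s ≤ 1 / 2 → ∃ η K C X0 : ℝ, 0 < η ∧ η ≤ 1 ∧
  1 ≤ K ∧ 0 < C ∧ 3 ≤ X0 ∧
  ∀ (X Y : ℕ) (T u : ℝ), X0 ≤ X → K * X ≤ Y → (Y : ℝ) ≤ (X : ℝ) ^ (1 + η) →
    1 ≤ T → (Real.log (X * T)) ^ 2 ≤ T → T ≤ (X : ℝ) ^ τ → 0 ≤ u →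
    u ≤ (1 - s) * ((2 + τ) / (1 + τ)) * Real.log (X * T) →
    ∫ t : ℝ, primFam X Y (fun q χ => ‖∑' n : ℕ, (χ (n : ZMod q) *
        (ArithmeticFunction.vonMangoldt n : ℂ)) *
        ((Real.sqrt n : ℂ)⁻¹ * bt T u t (Real.log n))‖ ^ 2) ≤
      WW X Y * (T / (2 * Real.pi)) * (inner 1 u -
        Real.sqrt Real.pi * max 0 (u - Real.log (X * T))) +
        (s * Real.log (X * T) + C) * WW X Y * T

end Pool.Agent.H440.OZ
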