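import Pool.Agent.H440.OZ.Stm
import Pool.Graph.R_pool_sql_team_seeded_63374d34.N880.QF.Ms
import Pool.Graph.R_seed8.H370R2.Defs

/-!
Project OZ (helper440): statements of the assembly steps.
-/

set_option autoImplicit false

open Complex Filter Topology MeasureTheory Set

namespace Pool.Agent.H440.OZ

open H385 (c0 primFam bt wt Rw WW SS ee hP LF)
open H370 (NN Nd Ns)
open Pool.Agent.N7.MainC (inner)

/-- the compared coefficients: primes `> B` minus the model -/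
noncomputable def xc (B R : ℕ) (n : ℕ) : ℝ :=
  (if n.Prime ∧ B < n then Pool.Agent.N880.QF.yy n else 0) - gg R n / Real.sqrt n

/-- the level of the model -/
noncomputable def RR (s L u : ℝ) : ℕ := ⌊Real.exp (u - (1 + s) * L)⌋₊

/-- Step A1: transfer to Farey fractions, and the windowed large sieve for the Farey fractions. -/
def S_winA : Prop := ∀ (τ s : ℝ), 0 ≤ τ → 0 < s → s ≤ 1 / 2 → ∃ (P B : ℕ) (K C X0 : ℝ),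
  1 ≤ P ∧ 1 ≤ B ∧ 1 ≤ K ∧ 0 < C ∧ 3 ≤ X0 ∧ ∀ X Y : ℕ, X0 ≤ X → K * X ≤ Y →
    (∀ (N : ℕ) (b : ℕ → ℂ), (∀ n, b n ≠ 0 → n.Prime ∧ B < n) →
      primFam X Y (fun q χ => ‖∑ n ∈ Finset.Icc 1 N, b n * χ (n : ZMod q)‖ ^ 2) ≤
        (1 + s) * ∑ i ∈ AX P X Y, aw P i * ‖SS N b ((i.2 : ℝ) / i.1)‖ ^ 2 +
          s * WW X Y * ∑ n ∈ Finset.Icc 1 N, ‖b n‖ ^ 2) ∧
    ∑ i ∈ AX P X Y, aw P i ≤ 10 * WW X Y ∧
    ∀ (T u : ℝ), 1 ≤ T → (Real.log (X * T)) ^ 2 ≤ T → T ≤ (X : ℝ) ^ τ → 0 ≤ u →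
      u ≤ (1 - s) * ((2 + τ) / (1 + τ)) * Real.log (X * T) → ∀ x : ℕ → ℂ,
      ∫ t : ℝ, ∑ i ∈ AX P X Y, aw P i * ‖∑ n ∈ PN u (s / 4 * Real.log (X * T)),
          ee (n * ((i.2 : ℝ) / i.1)) * x n * bt T u t (Real.log n)‖ ^ 2 ≤
        (1 + s) * WW X Y * (T / (2 * Real.pi)) *
            ∑ n ∈ PN u (s / 4 * Real.log (X * T)), ‖x n‖ ^ 2 * Real.exp (-(u - Real.log n) ^ 2) +
          C * WW X Y * (T / Real.log (X * T)) *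
            ∑ n ∈ PN u (s / 4 * Real.log (X * T)),
              ‖x n‖ ^ 2 * Real.exp (-(u - Real.log n) ^ 2 / 2) +
          C * WW X Y * T * Real.exp (-(Real.log (X * T)) ^ 2 / 16) *
            (∑ n ∈ PN u (s / 4 * Real.log (X * T)), ‖x n‖) ^ 2

/-- Step A2: the coefficient sums of the compared coefficients. -/
def S_coef : Prop := ∀ s : ℝ, 0 < s → s ≤ 1 / 2 → ∀ B : ℕ, ∃ C L0 : ℝ, 0 < C ∧ 1 ≤ L0 ∧
  ∀ L u : ℝ, L0 ≤ L → (1 + s) * L ≤ u → u ≤ 2 * L →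
    ∑ n ∈ PN u (s / 4 * L), xc B (RR s L u) n ^ 2 * Real.exp (-(u - Real.log n) ^ 2) ≤
      inner 1 u - Real.sqrt Real.pi * (u - (1 + s) * L) + s * L + C ∧
    ∑ n ∈ PN u (s / 4 * L), xc B (RR s L u) n ^ 2 * Real.exp (-(u - Real.log n) ^ 2 / 2) ≤
      C * L ∧
    ∑ n ∈ PN u (s / 4 * L), |xc B (RR s L u) n| ≤ C * Real.exp (5 * L)

/-- Step A3: the model is negligible at all Farey fractions of the family. -/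
def S_small : Prop := ∀ (τ s : ℝ) (P : ℕ), 0 ≤ τ → 0 < s → s ≤ 1 / 2 → 1 ≤ P →
  ∃ C X0 : ℝ, 0 < C ∧ 3 ≤ X0 ∧ ∀ (X Y : ℕ) (T u t : ℝ), X0 ≤ X →
    (Y : ℝ) ≤ (X : ℝ) ^ (1 + s / 8) →
    1 ≤ T → (Real.log (X * T)) ^ 2 ≤ T → T ≤ (X : ℝ) ^ τ → (1 + s) * Real.log (X * T) ≤ u →
    u ≤ (1 - s) * ((2 + τ) / (1 + τ)) * Real.log (X * T) → ∀ i ∈ AX P X Y,
    ‖∑ n ∈ PN u (s / 4 * Real.log (X * T)), ee (n * ((i.2 : ℝ) / i.1)) *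
        ((gg (RR s (Real.log (X * T)) u) n / Real.sqrt n : ℝ) : ℂ) * bt T u t (Real.log n)‖ ≤
      C * ∫ v in T..(2 * T), Real.exp (-(t - v) ^ 2 / 8)

/-- Step A4: the mean square beyond `(1 + s) L`. -/
def S_high : Prop := ∃ C0 : ℝ, 0 < C0 ∧ ∀ (τ s : ℝ), 0 ≤ τ → 0 < s → s ≤ 1 / 2 →
  ∃ K C X0 : ℝ, 1 ≤ K ∧ 0 < C ∧ 3 ≤ X0 ∧
  ∀ (X Y : ℕ) (T u : ℝ), X0 ≤ X → K * X ≤ Y → (Y : ℝ) ≤ (X : ℝ) ^ (1 + s / 8) →
    1 ≤ T → (Real.log (X * T)) ^ 2 ≤ T → T ≤ (X : ℝ) ^ τ → (1 + s) * Real.log (X * T) ≤ u →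
    u ≤ (1 - s) * ((2 + τ) / (1 + τ)) * Real.log (X * T) →
    ∫ t : ℝ, primFam X Y (fun q χ => ‖∑' n : ℕ, (χ (n : ZMod q) *
        (ArithmeticFunction.vonMangoldt n : ℂ)) *
        ((Real.sqrt n : ℂ)⁻¹ * bt T u t (Real.log n))‖ ^ 2) ≤
      WW X Y * (T / (2 * Real.pi)) * (inner 1 u - Real.sqrt Real.pi * (u - Real.log (X * T))) +
        (C0 * s * Real.log (X * T) + C) * WW X Y * T

/-- Step B: from the mean square to the zeros. -/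
def S_coreN : Prop := ∀ (τ γ κ0 : ℝ), 0 ≤ τ → 0 < γ → γ < Real.pi →
  Rw γ 0 / ((2 + τ) / (1 + τ)) + 2 * ((2 + τ) / (1 + τ)) *
      (∫ α in (0 : ℝ)..1, min α (1 / ((2 + τ) / (1 + τ))) * Rw γ α) < κ0 →
  ∃ K η X0 : ℝ, 1 ≤ K ∧ 0 < η ∧ 1 ≤ X0 ∧
    ∀ (X Y : ℕ) (T : ℝ), X0 ≤ X → K * X ≤ Y → (Y : ℝ) ≤ (X : ℝ) ^ (1 + η) →
      4 * (Real.log X) ^ 2 ≤ T → T ≤ (X : ℝ) ^ τ →
      primFam X Y (fun q χ => 2 * (NN (LF q χ) T (2 * T) : ℝ) - (Ns (LF q χ) T (2 * T) : ℝ)) ≤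
        κ0 * primFam X Y (fun q χ => (NN (LF q χ) T (2 * T) : ℝ)) ∧
      primFam X Y (fun q χ => 3 * (NN (LF q χ) T (2 * T) : ℝ) - 2 * (Nd (LF q χ) T (2 * T) : ℝ)) ≤
        κ0 * primFam X Y (fun q χ => (NN (LF q χ) T (2 * T) : ℝ))

end Pool.Agent.H440.OZ
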