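import Pool.Graph.R_seed8.H385R2.WinE

/-!
Project OZ (helper440): the constant.
-/

set_option autoImplicit false

open MeasureTheory Set

namespace Pool.Agent.H440.OZ

open H385 (Rw)

/-- the constant of the new bandwidth, closed form -/
noncomputable def cN (h γ : ℝ) : ℝ :=
  (γ / (2 * Real.sin (γ / 2))) ^ 2 / 2 *
    ((1 + Real.sin γ / γ) / h + 2 * h / γ ^ 2 * ((1 - 1 / h) * Real.cos (γ / h) - 1) +
      2 * h / γ ^ 3 * (2 * Real.sin (γ / h) + Real.sin (γ * (1 - 1 / h)) - Real.sin γ) +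
      2 / γ ^ 2 * (1 - Real.cos γ))

/-- the closed form -/
def S_num1 : Prop := ∀ h γ : ℝ, 1 ≤ h → 0 < γ → γ < Real.pi →
  Rw γ 0 / h + 2 * h * ∫ α in (0 : ℝ)..1, min α (1 / h) * Rw γ α = cN h γ

/-- numerical values -/
def S_num2 : Prop := cN 2 (9 / 4) ≤ 1.0678 ∧ cN (3 / 2) (39 / 20) ≤ 1.1344 ∧
  cN (4 / 3) (9 / 5) ≤ 1.1757

end Pool.Agent.H440.OZ
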